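/-
MP_33c730_lc (helper20), second part (graphs of bounded degeneracy): linearly ordered types,
levels. Definitions only.
-/
import Pool.Agent.Lib.MP_33c730_lc.Notions

set_option autoImplicit false

namespace Pool.MP_33c730_lc

variable {C V : Type}

/-! ### linearly ordered types -/

open Classical in
/-- the finset of a finite set (empty if the set is infinite) -/
noncomputable def fs {α : Type} (s : Set α) : Finset α := if h : s.Finite then h.toFinset else ∅

/-- rank of the value of `f` at `c` among all values of `f` -/
noncomputable def rk {α : Type} [LinearOrder α] (f : V → α) (c : V) : ℕ :=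
  {t | (∃ c', f c' = t) ∧ t < f c}.ncard

/-- atomic data of a new element: neighbours in the interface (coded by their depths), and a list
of truth values. -/
abbrev AT : Type := (Colex (Finset ℕ)) ×ₗ (List Prop)

/-- a bundled linear order -/
structure LO where
  α : Type
  o : LinearOrder α

/-- types of rank `n`: finite sets of pairs (atomic data, type of rank `n - 1`) in colexicographic
order. -/
noncomputable def TT : ℕ → LO
  | 0 => ⟨Unit, inferInstance⟩
  | n + 1 =>
    letI : LinearOrder (TT n).α := (TT n).o
    ⟨Colex (Finset (AT ×ₗ (TT n).α)), inferInstance⟩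

/-- types of rank `n` -/
abbrev Ty (n : ℕ) : Type := (TT n).α

noncomputable instance instTy (n : ℕ) : LinearOrder (Ty n) := (TT n).o

/-- depth of a vertex -/
noncomputable def dep (le : V → V → Prop) (a : V) : ℕ := (anc le a).ncard

/-- truth values describing `x` relative to the list `u` (`cs` is a list of the colours). -/
def bits (G : CG C V) (cs : List C) (r : V → V → Prop) (x : V) (u : List V) : List Prop :=
  (r x x) :: (cs.map fun c => G.col c x) ++
    u.flatMap fun w => [x = w, G.gr.Adj x w, r x w, r w x]

/-- atomic data of `x` relative to the list `u` over the interface `B`. -/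
noncomputable def atd (G : CG C V) (cs : List C) (le : V → V → Prop) (B : Set V)
    (r : V → V → Prop) (x : V) (u : List V) : AT :=
  toLex (toColex (fs (dep le '' {a | a ∈ B ∧ G.gr.Adj x a})), bits G cs r x u)

/-- the type of rank `n` of the list `u` in `(G[W], r)` over the interface `B`. -/
noncomputable def tp (G : CG C V) (cs : List C) (le : V → V → Prop) (B : Set V)
    (r : V → V → Prop) : (n : ℕ) → Set V → List V → Ty n
  | 0, _, _ => ()
  | n + 1, W, u => (toColex (fs ((fun x => (toLex (atd G cs le B r x u,
      tp G cs le B r n W (x :: u)) : AT ×ₗ Ty n)) '' W)) : Colex (Finset (AT ×ₗ Ty n)))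

/-! ### levels -/

/-- reduced subtree with the path to `w` -/
def kpw (le : V → V → Prop) (K : Set V) (w c : V) : Set V :=
  {x | le c x ∧ ∀ y, le c y → y ≠ c → le y x → (y ∈ K ∨ le y w)}

/-- the type of rank `r + 1` of the subtree of `c`, computed with reduced subtrees `K` and the
relation `lt`. -/
noncomputable def ty (G : CG C V) (cs : List C) (le : V → V → Prop) (K : Set V)
    (lt : V → V → Prop) (r : ℕ) (c : V) : Ty (r + 1) :=
  (toColex (fs ((fun w => (toLex (atd G cs le (anc le c) lt w [],
      tp G cs le (anc le c) lt r (kpw le K w c) [w]) : AT ×ₗ Ty r)) '' (sub le c))) :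
    Colex (Finset (AT ×ₗ Ty r)))

/-- class numbers of level `r`: rank of (class number of level `r - 1`, type of rank `r`). -/
noncomputable def klev (G : CG C V) (cs : List C) (le : V → V → Prop) (K : ℕ → Set V)
    (j : ℕ → V → ℕ) : ℕ → V → ℕ
  | 0 => fun _ => 0
  | r + 1 => rk fun c => (toLex (klev G cs le K j r c,
      ty G cs le (K r) (dlt G.gr le (klev G cs le K j r) (j r)) r c) : ℕ ×ₗ Ty (r + 1))

/-! ### levels of a full order -/

/-- the lexicographic products of types -/
noncomputable def HH : ℕ → LO
  | 0 => ⟨Unit, inferInstance⟩
  | n + 1 =>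
    letI : LinearOrder (HH n).α := (HH n).o
    ⟨(HH n).α ×ₗ Ty (n + 1), inferInstance⟩

/-- lexicographic products of types of ranks `1, ..., n` -/
abbrev Hy (n : ℕ) : Type := (HH n).α

noncomputable instance instHy (n : ℕ) : LinearOrder (Hy n) := (HH n).o

/-- the types of ranks `1, ..., n` of the subtree of `c` with the order `lt`. -/
noncomputable def hk (G : CG C V) (cs : List C) (le : V → V → Prop) (lt : V → V → Prop) :
    (n : ℕ) → V → Hy n
  | 0, _ => ()
  | n + 1, c => (toLex (hk G cs le lt n c, tp G cs le (anc le c) lt (n + 1) (sub le c) []) :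
      Hy n ×ₗ Ty (n + 1))

end Pool.MP_33c730_lc
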