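/-
MP_33c730_lc (helper20): coding a normal spanning forest of a degenerate graph by vertex sets, and
names for the set parameters. Definitions only.
-/
import Pool.Agent.Lib.MP_33c730_lc.CodeDefs
import Pool.Agent.Lib.MP_33c730_lc.Dg.TDefs

set_option autoImplicit false

namespace Pool.MP_33c730_lc

variable {C V : Type}

/-- `p` is the parent of `v` -/
def par (le : V → V → Prop) (p v : V) : Prop := le p v ∧ p ≠ v ∧ ∀ b, le b v → b ≠ v → le b p

/-- `s` is the parent of some `v` which has the strict descendant `t` as a neighbour. -/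
def conf (G : SimpleGraph V) (le : V → V → Prop) (s t : V) : Prop :=
  ∃ v, par le s v ∧ le v t ∧ v ≠ t ∧ G.Adj v t

/-- the conflict graph -/
def confl (G : SimpleGraph V) (le : V → V → Prop) : SimpleGraph V where
  Adj s t := s ≠ t ∧ (conf G le s t ∨ conf G le t s)
  symm := ⟨fun _ _ h => ⟨h.1.symm, h.2.symm⟩⟩
  loopless := ⟨fun _ h => h.1 rfl⟩

/-- an arc from `x` to `y` according to the sets -/
def up2 (G : SimpleGraph V) {m : ℕ} (Cs As : Fin m → Set V) (x y : V) : Prop :=
  G.Adj x y ∧ ∃ j, x ∈ As j ∧ y ∈ Cs j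

/-- reachability of `a` from `x` by arcs -/
def le2 (G : SimpleGraph V) {m : ℕ} (Cs As : Fin m → Set V) (a x : V) : Prop :=
  ∀ X : Set V, x ∈ X → (∀ u w, u ∈ X → up2 G Cs As u w → w ∈ X) → a ∈ X

/-- names of the set parameters: colours, colours of the parents, kept vertices and indices for the
levels `0, ..., q`. -/
abbrev Par2 (m b q : ℕ) : Type := (Fin m ⊕ Fin m) ⊕ (Fin (q + 1) ⊕ (Fin (q + 1) × Fin b))

variable {m b q : ℕ}

/-- the tree order coded by the parameters -/
def lS (G : SimpleGraph V) (S : Par2 m b q → Set V) : V → V → Prop :=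
  le2 G (fun j => S (.inl (.inl j))) (fun j => S (.inl (.inr j)))

/-- kept vertices of level `r` -/
def kS (S : Par2 m b q → Set V) (r : ℕ) : Set V :=
  {v | ∃ h : r < q + 1, v ∈ S (.inr (.inl ⟨r, h⟩))}

/-- indices of level `r` -/
noncomputable def jS (S : Par2 m b q → Set V) (r : ℕ) : V → ℕ :=
  idx fun i : Fin b => {v | ∃ h : r < q + 1, v ∈ S (.inr (.inr (⟨r, h⟩, i)))}

/-- class numbers of level `r` -/
noncomputable def klS (G : CG C V) (cs : List C) (S : Par2 m b q → Set V) (r : ℕ) : V → ℕ :=
  klev G cs (lS G.gr S) (kS S) (jS S) r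

/-- the order of level `r` -/
def dS (G : CG C V) (cs : List C) (S : Par2 m b q → Set V) (r : ℕ) : V → V → Prop :=
  dlt G.gr (lS G.gr S) (klS G cs S r) (jS S r)

/-- The parameters code a forest order. -/
def okS (G : CG C V) (S : Par2 m b q → Set V) : Prop := Forest G.gr (lS G.gr S)

/-- definable on finite coloured graphs, for the parameters which satisfy `P`. -/
def DefP (C α β : Type) (P : ∀ {V : Type}, CG C V → (β → Set V) → Prop)
    (R : ∀ {V : Type}, CG C V → (α → V) → (β → Set V) → Prop) : Prop :=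
  ∃ φ : MSO C α β, ∀ (V : Type) [Finite V] (G : CG C V) (v : α → V) (S : β → Set V), P G S →
    (φ.Sat G v S ↔ R G v S)

end Pool.MP_33c730_lc
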