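import Pool.Agent.Lib.MP_33c730_lc.Dg.Code2
import Pool.Agent.Lib.MP_33c730_lc.Tree

set_option autoImplicit false

namespace Pool.MP_33c730_lc

private theorem Coding2_anc_lt {V : Type} [Finite V] {G : SimpleGraph V} {le : V → V → Prop}
    (hF : Forest G le) {a b : V} (h : le a b) (hne : a ≠ b) :
    (anc le a).ncard < (anc le b).ncard := by
  refine Set.ncard_lt_ncard ?_ (Set.toFinite _)
  refine ⟨fun w hw => ⟨hF.trans _ _ _ hw.1 h, ?_⟩, fun hs => (hs (a := a) ⟨h, hne⟩).2 rfl⟩
  rintro rfl
  exact hw.2 (hF.antisymm _ _ hw.1 h)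

/-! ### Coding2: the tree order is the reachability relation of the coded arcs -/
theorem coding2 {V : Type} [Finite V] {G : SimpleGraph V} {le : V → V → Prop} (hN : Normal G le)
    {m : ℕ} (χ : V → Fin m)
    (hχ : ∀ p v t, par le p v → le v t → v ≠ t → G.Adj v t → χ p ≠ χ t) (a x : V) :
    le2 G (fun j => {v | χ v = j}) (fun j => {v | ∃ p, par le p v ∧ χ p = j}) a x ↔ le a x := by
  constructor
  · intro h
    refine h {z | le z x} (hN.refl x) ?_
    intro u w hu huw
    obtain ⟨hadj, j, ⟨p, hp, hpj⟩, hw⟩ := huw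
    have hw' : χ w = j := hw
    have hwu : le w u := by
      rcases hN.comp u w hadj with h1 | h1
      · exact absurd (hpj.trans hw'.symm) (hχ p u w hp h1 hadj.ne hadj)
      · exact h1
    exact hN.trans _ _ _ hwu hu
  · intro h X hx hX
    obtain ⟨k, hk⟩ : ∃ k, k = (anc le x).ncard := ⟨_, rfl⟩
    induction k using Nat.strong_induction_on generalizing x with
    | _ k ih =>
      by_cases hax : a = x
      · rw [hax]
        exact hx
      · obtain ⟨p, hpx, hpne, hadj, hpar⟩ := hN.parent x a h hax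
        have hpX : p ∈ X := hX x p hx ⟨hadj, χ p, ⟨p, ⟨hpx, hpne, hpar⟩, rfl⟩, rfl⟩
        have hlt := Coding2_anc_lt hN.toForest hpx hpne
        exact ih _ (by rw [hk]; exact hlt) p (hpar a h hax) hpX rfl

end Pool.MP_33c730_lc
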