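import Pool.Agent.Lib.MP_33c730_lc.Dg.Unif

set_option autoImplicit false

namespace Pool.MP_33c730_lc

variable {V : Type}

/-! ### Pos: the first and the last vertices of every class -/

private theorem pos_slt_irrefl {G : SimpleGraph V} {le : V → V → Prop} {κ num : V → ℕ} (c : V) :
    ¬ slt G le κ num c c := by
  rintro (h | ⟨-, h | ⟨-, h⟩⟩)
  · exact nbLt_irrefl c c (fun _ => Iff.rfl) h
  · exact lt_irrefl _ h
  · exact lt_irrefl _ h

/-- an injective function on a finite set of size `m` with values below `m` takes all values. -/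
private theorem pos_surj [Finite V] (A : Set V) (p : V → ℕ) (hp : ∀ x ∈ A, p x < A.ncard)
    (hinj : ∀ x ∈ A, ∀ y ∈ A, p x = p y → x = y) (M : ℕ) (hM : M ≤ A.ncard) :
    ∃ g : Fin M → V, Function.Injective g ∧ ∀ i, g i ∈ A ∧ p (g i) = i := by
  classical
  have := Fintype.ofFinite V
  have hcard : (A.toFinset.image p).card = A.ncard := by
    rw [Finset.card_image_of_injOn, Set.ncard_eq_toFinset_card']
    intro x hx y hy h
    exact hinj x (Set.mem_toFinset.1 hx) y (Set.mem_toFinset.1 hy) h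
  have hsub : A.toFinset.image p ⊆ Finset.range A.ncard := by
    intro i hi
    obtain ⟨x, hx, rfl⟩ := Finset.mem_image.1 hi
    exact Finset.mem_range.2 (hp x (Set.mem_toFinset.1 hx))
  have heq : A.toFinset.image p = Finset.range A.ncard :=
    Finset.eq_of_subset_of_card_le hsub (by rw [hcard, Finset.card_range])
  have hex : ∀ i : Fin M, ∃ x ∈ A, p x = i := by
    intro i
    have hi : (i : ℕ) ∈ Finset.range A.ncard := Finset.mem_range.2 (lt_of_lt_of_le i.2 hM)
    rw [← heq] at hi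
    obtain ⟨x, hx, h⟩ := Finset.mem_image.1 hi
    exact ⟨x, Set.mem_toFinset.1 hx, h⟩
  choose g hg1 hg2 using hex
  refine ⟨g, ?_, fun i => ⟨hg1 i, hg2 i⟩⟩
  intro i j hij
  apply Fin.ext
  rw [← hg2 i, ← hg2 j, hij]

theorem positions [Finite V] {G : SimpleGraph V} {le : V → V → Prop} (hF : Forest G le)
    (κ num f : V → ℕ) (hnum : Function.Injective num) (n : ℕ) :
    ∃ (K : Set V) (j : V → ℕ), (∀ v, j v ≤ 2 * 2 ^ n) ∧
      (∀ c c', sib le c c' → nbEq G le c c' → f c = f c' → slt G le κ num c c' →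
        (c ∈ K ∨ c' ∈ K) → j c < j c') ∧
      ∀ c, c ∉ K →
      (∃ g : Fin (2 ^ n) → V, Function.Injective g ∧ ∀ i, g i ∈ K ∧ sib le c (g i) ∧
        nbEq G le c (g i) ∧ f c = f (g i) ∧ slt G le κ num (g i) c) ∧
      (∃ g : Fin (2 ^ n) → V, Function.Injective g ∧ ∀ i, g i ∈ K ∧ sib le c (g i) ∧
        nbEq G le c (g i) ∧ f c = f (g i) ∧ slt G le κ num c (g i)) := by
  classical
  -- members of the class before and after
  let A : V → Set V := fun c =>
    {x | (sib le c x ∧ nbEq G le c x ∧ f c = f x) ∧ slt G le κ num x c}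
  let A' : V → Set V := fun c =>
    {x | (sib le c x ∧ nbEq G le c x ∧ f c = f x) ∧ slt G le κ num c x}
  have hcl : ∀ {a b c : V}, (sib le a b ∧ nbEq G le a b ∧ f a = f b) →
      (sib le b c ∧ nbEq G le b c ∧ f b = f c) → (sib le a c ∧ nbEq G le a c ∧ f a = f c) :=
    fun h h' => ⟨sib_trans h.1 h'.1, fun x => (h.2.1 x).trans (h'.2.1 x), h.2.2.trans h'.2.2⟩
  have hcs : ∀ {a b : V}, (sib le a b ∧ nbEq G le a b ∧ f a = f b) →
      (sib le b a ∧ nbEq G le b a ∧ f b = f a) :=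
    fun h => ⟨sib_symm h.1, fun x => (h.2.1 x).symm, h.2.2.symm⟩
  have hp : ∀ c c', (sib le c c' ∧ nbEq G le c c' ∧ f c = f c') → slt G le κ num c c' →
      (A c).ncard < (A c').ncard := by
    intro c c' hc hs
    refine Set.ncard_lt_ncard ⟨?_, ?_⟩ (Set.toFinite _)
    · rintro x ⟨h1, h2⟩
      exact ⟨hcl (hcs hc) h1, slt_trans hF (sib_symm h1.1) hc.1 h2 hs⟩
    · intro h
      exact pos_slt_irrefl c (h (show c ∈ A c' from ⟨hcs hc, hs⟩)).2
  have hn : ∀ c c', (sib le c c' ∧ nbEq G le c c' ∧ f c = f c') → slt G le κ num c c' →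
      (A' c').ncard < (A' c).ncard := by
    intro c c' hc hs
    refine Set.ncard_lt_ncard ⟨?_, ?_⟩ (Set.toFinite _)
    · rintro x ⟨h1, h2⟩
      exact ⟨hcl hc h1, slt_trans hF hc.1 h1.1 hs h2⟩
    · intro h
      exact pos_slt_irrefl c' (h (show c' ∈ A' c from ⟨hc, hs⟩)).2
  refine ⟨{c | (A c).ncard < 2 ^ n ∨ (A' c).ncard < 2 ^ n},
    fun c => if (A c).ncard < 2 ^ n then (A c).ncard else
      if (A' c).ncard < 2 ^ n then 2 * 2 ^ n - (A' c).ncard else 2 ^ n, ?_, ?_, ?_⟩
  · intro v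
    dsimp only
    split_ifs <;> omega
  · intro c c' h1 h2 h3 h4 h5
    have e1 := hp c c' ⟨h1, h2, h3⟩ h4
    have e2 := hn c c' ⟨h1, h2, h3⟩ h4
    have h5' : ((A c).ncard < 2 ^ n ∨ (A' c).ncard < 2 ^ n) ∨
        ((A c').ncard < 2 ^ n ∨ (A' c').ncard < 2 ^ n) := h5
    dsimp only
    split_ifs <;> omega
  · intro c hc
    have hc' : ¬ ((A c).ncard < 2 ^ n ∨ (A' c).ncard < 2 ^ n) := hc
    rw [not_or, not_lt, not_lt] at hc'
    constructor
    · obtain ⟨g, hg1, hg2⟩ := pos_surj (A c) (fun x => (A x).ncard)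
        (fun x hx => hp x c (hcs hx.1) hx.2) (by
          intro x hx y hy h
          by_contra hne
          have hxy := hcl (hcs hx.1) hy.1
          rcases slt_trichotomy hF (κ := κ) hnum hxy.1 hne with h1 | h1
          · exact absurd h (hp x y hxy h1).ne
          · exact absurd h (hp y x (hcs hxy) h1).ne') (2 ^ n) hc'.1
      refine ⟨g, hg1, fun i => ?_⟩
      obtain ⟨h1, h2⟩ := hg2 i
      refine ⟨Or.inl ?_, h1.1.1, h1.1.2.1, h1.1.2.2, h1.2⟩
      have h3 : (A (g i)).ncard = i := h2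
      rw [h3]
      exact i.2
    · obtain ⟨g, hg1, hg2⟩ := pos_surj (A' c) (fun x => (A' x).ncard)
        (fun x hx => hn c x hx.1 hx.2) (by
          intro x hx y hy h
          by_contra hne
          have hxy := hcl (hcs hx.1) hy.1
          rcases slt_trichotomy hF (κ := κ) hnum hxy.1 hne with h1 | h1
          · exact absurd h (hn x y hxy h1).ne'
          · exact absurd h (hn y x (hcs hxy) h1).ne) (2 ^ n) hc'.2
      refine ⟨g, hg1, fun i => ?_⟩
      obtain ⟨h1, h2⟩ := hg2 i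
      refine ⟨Or.inr ?_, h1.1.1, h1.1.2.1, h1.1.2.2, h1.2⟩
      have h3 : (A' (g i)).ncard = i := h2
      rw [h3]
      exact i.2

end Pool.MP_33c730_lc
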