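import Pool.Agent.Lib.MP_33c730_lc.Dg.TDefs
import Pool.Agent.Lib.MP_33c730_lc.EFAlg

set_option autoImplicit false

namespace Pool.MP_33c730_lc

variable {C V : Type}

/-! ### TLem: types and EF equivalence -/
theorem fs_mem {α : Type} (s : Set α) (h : s.Finite) (t : α) : t ∈ fs s ↔ t ∈ s := by
  unfold fs
  rw [dif_pos h]
  exact Set.Finite.mem_toFinset h

/-- colexicographic comparison -/
theorem colex_lt {α : Type} [LinearOrder α] (s t : Finset α) :
    toColex s < toColex t ↔ ∃ a ∈ t, a ∉ s ∧ ∀ b ∈ s, b ∉ t → b < a :=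
  Finset.Colex.toColex_lt_toColex_iff_exists_forall_lt

theorem colex_eq {α : Type} [LinearOrder α] (s t : Finset α) :
    toColex s = toColex t ↔ s = t :=
  ⟨fun h => congrArg ofColex h, fun h => by rw [h]⟩

private theorem tlem_img_lt [Finite V] {α : Type} [LinearOrder α] (f f' : V → α) (W W' : Set V) :
    toColex (fs (f '' W)) < toColex (fs (f' '' W')) ↔
      ∃ x' ∈ W', (∀ x ∈ W, ¬ (f x = f' x')) ∧
        ∀ x ∈ W, (∀ x'' ∈ W', ¬ (f x = f' x'')) → f x < f' x' := by
  have h1 : (f '' W).Finite := (Set.toFinite W).image f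
  have h2 : (f' '' W').Finite := (Set.toFinite W').image f'
  rw [colex_lt]
  simp only [fs_mem _ h1, fs_mem _ h2]
  constructor
  · rintro ⟨_, ⟨x', hx', rfl⟩, h1, h2⟩
    refine ⟨x', hx', fun x hx he => h1 ⟨x, hx, he⟩, fun x hx hn => h2 _ ⟨x, hx, rfl⟩ ?_⟩
    rintro ⟨x'', hx'', he⟩
    exact hn x'' hx'' he.symm
  · rintro ⟨x', hx', h1, h2⟩
    refine ⟨_, ⟨x', hx', rfl⟩, ?_, ?_⟩
    · rintro ⟨x, hx, he⟩
      exact h1 x hx he
    · rintro _ ⟨x, hx, rfl⟩ hn
      exact h2 x hx fun x'' hx'' he => hn ⟨x'', hx'', he.symm⟩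

private theorem tlem_img_eq [Finite V] {α : Type} (f f' : V → α) (W W' : Set V) :
    toColex (fs (f '' W)) = toColex (fs (f' '' W')) ↔
      (∀ x ∈ W, ∃ x' ∈ W', f x = f' x') ∧ ∀ x' ∈ W', ∃ x ∈ W, f x = f' x' := by
  have h1 : (f '' W).Finite := (Set.toFinite W).image f
  have h2 : (f' '' W').Finite := (Set.toFinite W').image f'
  have h3 : toColex (fs (f '' W)) = toColex (fs (f' '' W')) ↔ fs (f '' W) = fs (f' '' W') :=
    ⟨fun h => congrArg ofColex h, fun h => by rw [h]⟩
  rw [h3, Finset.ext_iff]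
  simp only [fs_mem _ h1, fs_mem _ h2]
  constructor
  · intro h
    constructor
    · intro x hx
      obtain ⟨x', hx', he⟩ := (h (f x)).1 ⟨x, hx, rfl⟩
      exact ⟨x', hx', he.symm⟩
    · intro x' hx'
      exact (h (f' x')).2 ⟨x', hx', rfl⟩
  · rintro ⟨h1, h2⟩ t
    constructor
    · rintro ⟨x, hx, rfl⟩
      obtain ⟨x', hx', he⟩ := h1 x hx
      exact ⟨x', hx', he.symm⟩
    · rintro ⟨x', hx', rfl⟩
      exact h2 x' hx'

/-- comparison of types of rank `n + 1` -/
theorem tp_succ_lt [Finite V] (G : CG C V) (cs : List C) (le : V → V → Prop) (B B' : Set V)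
    (r r' : V → V → Prop) (n : ℕ) (W W' : Set V) (u u' : List V) :
    tp G cs le B r (n + 1) W u < tp G cs le B' r' (n + 1) W' u' ↔
      ∃ x' ∈ W',
        (∀ x ∈ W, ¬ ((toLex (atd G cs le B r x u, tp G cs le B r n W (x :: u)) : AT ×ₗ Ty n) =
          toLex (atd G cs le B' r' x' u', tp G cs le B' r' n W' (x' :: u')))) ∧
        ∀ x ∈ W,
          (∀ x'' ∈ W', ¬ ((toLex (atd G cs le B r x u, tp G cs le B r n W (x :: u)) : AT ×ₗ Ty n) =
            toLex (atd G cs le B' r' x'' u', tp G cs le B' r' n W' (x'' :: u')))) →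
          ((toLex (atd G cs le B r x u, tp G cs le B r n W (x :: u)) : AT ×ₗ Ty n) <
            toLex (atd G cs le B' r' x' u', tp G cs le B' r' n W' (x' :: u'))) := by
  exact tlem_img_lt (fun x => (toLex (atd G cs le B r x u,
      tp G cs le B r n W (x :: u)) : AT ×ₗ Ty n)) (fun x => (toLex (atd G cs le B' r' x u',
      tp G cs le B' r' n W' (x :: u')) : AT ×ₗ Ty n)) W W'

/-- comparison of the types `ty` -/
theorem ty_lt [Finite V] (G : CG C V) (cs : List C) (le : V → V → Prop) (K : Set V)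
    (lt : V → V → Prop) (n : ℕ) (c c' : V) :
    ty G cs le K lt n c < ty G cs le K lt n c' ↔
      ∃ x' ∈ sub le c',
        (∀ x ∈ sub le c, ¬ ((toLex (atd G cs le (anc le c) lt x [],
            tp G cs le (anc le c) lt n (kpw le K x c) [x]) : AT ×ₗ Ty n) =
          toLex (atd G cs le (anc le c') lt x' [],
            tp G cs le (anc le c') lt n (kpw le K x' c') [x']))) ∧
        ∀ x ∈ sub le c,
          (∀ x'' ∈ sub le c', ¬ ((toLex (atd G cs le (anc le c) lt x [],
              tp G cs le (anc le c) lt n (kpw le K x c) [x]) : AT ×ₗ Ty n) =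
            toLex (atd G cs le (anc le c') lt x'' [],
              tp G cs le (anc le c') lt n (kpw le K x'' c') [x'']))) →
          ((toLex (atd G cs le (anc le c) lt x [],
              tp G cs le (anc le c) lt n (kpw le K x c) [x]) : AT ×ₗ Ty n) <
            toLex (atd G cs le (anc le c') lt x' [],
              tp G cs le (anc le c') lt n (kpw le K x' c') [x'])) := by
  exact tlem_img_lt (fun w => (toLex (atd G cs le (anc le c) lt w [],
      tp G cs le (anc le c) lt n (kpw le K w c) [w]) : AT ×ₗ Ty n))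
    (fun w => (toLex (atd G cs le (anc le c') lt w [],
      tp G cs le (anc le c') lt n (kpw le K w c') [w]) : AT ×ₗ Ty n)) (sub le c) (sub le c')

private theorem tlem_fs_dep [Finite V] (G : CG C V) (le : V → V → Prop)
    (B : Set V) (hB : Set.InjOn (dep le) B) (x x' : V) :
    fs (dep le '' {a | a ∈ B ∧ G.gr.Adj x a}) = fs (dep le '' {a | a ∈ B ∧ G.gr.Adj x' a}) ↔
      ∀ a ∈ B, (G.gr.Adj x a ↔ G.gr.Adj x' a) := by
  constructor
  · intro h a ha
    rw [Finset.ext_iff] at h
    have h1 := h (dep le a)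
    rw [fs_mem _ ((Set.toFinite _).image _), fs_mem _ ((Set.toFinite _).image _)] at h1
    constructor
    · intro hx
      obtain ⟨b, ⟨hb, hb'⟩, he⟩ := h1.1 ⟨a, ⟨ha, hx⟩, rfl⟩
      rwa [← hB hb ha he]
    · intro hx
      obtain ⟨b, ⟨hb, hb'⟩, he⟩ := h1.2 ⟨a, ⟨ha, hx⟩, rfl⟩
      rwa [← hB hb ha he]
  · intro h
    have : {a | a ∈ B ∧ G.gr.Adj x a} = {a | a ∈ B ∧ G.gr.Adj x' a} := by
      ext a
      exact ⟨fun ha => ⟨ha.1, (h a ha.1).1 ha.2⟩, fun ha => ⟨ha.1, (h a ha.1).2 ha.2⟩⟩
    rw [this]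

private theorem tlem_flat (G : CG C V) (r r' : V → V → Prop) (L : List (V × V)) (x x' : V) :
    ((L.map Prod.fst).flatMap fun w => [x = w, G.gr.Adj x w, r x w, r w x]) =
      ((L.map Prod.snd).flatMap fun w => [x' = w, G.gr.Adj x' w, r' x' w, r' w x']) ↔
    ∀ p ∈ L, (x = p.1 ↔ x' = p.2) ∧ (G.gr.Adj x p.1 ↔ G.gr.Adj x' p.2) ∧
      (r x p.1 ↔ r' x' p.2) ∧ (r p.1 x ↔ r' p.2 x') := by
  induction L with
  | nil => simp
  | cons p L ih =>
    rw [List.map_cons, List.map_cons, List.flatMap_cons, List.flatMap_cons, List.forall_mem_cons,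
      ← ih]
    constructor
    · intro h
      obtain ⟨h1, h2⟩ := List.append_inj h rfl
      simp only [List.cons.injEq, and_true] at h1
      exact ⟨⟨Iff.of_eq h1.1, Iff.of_eq h1.2.1, Iff.of_eq h1.2.2.1, Iff.of_eq h1.2.2.2⟩, h2⟩
    · rintro ⟨⟨h1, h2, h3, h4⟩, h5⟩
      rw [h5, propext h1, propext h2, propext h3, propext h4]

private theorem tlem_bits (G : CG C V) (cs : List C) (hcs : ∀ c, c ∈ cs) (r r' : V → V → Prop)
    (L : List (V × V)) (x x' : V) :
    bits G cs r x (L.map Prod.fst) = bits G cs r' x' (L.map Prod.snd) ↔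
      (r x x ↔ r' x' x') ∧ (∀ c, G.col c x ↔ G.col c x') ∧
      ∀ p ∈ L, (x = p.1 ↔ x' = p.2) ∧ (G.gr.Adj x p.1 ↔ G.gr.Adj x' p.2) ∧
        (r x p.1 ↔ r' x' p.2) ∧ (r p.1 x ↔ r' p.2 x') := by
  rw [← tlem_flat]
  unfold bits
  constructor
  · intro h
    obtain ⟨h1, h2⟩ := List.append_inj h (by simp)
    rw [List.cons.injEq] at h1
    refine ⟨Iff.of_eq h1.1, fun c => ?_, h2⟩
    have := List.map_inj_left.1 h1.2 c (hcs c)
    exact Iff.of_eq this
  · rintro ⟨h1, h2, h3⟩
    have e1 : (r x x) = (r' x' x') := propext h1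
    have e2 : (fun c => G.col c x) = fun c => G.col c x' := funext fun c => propext (h2 c)
    rw [e1, e2, h3]

/-- atomic data and atomic agreement -/
theorem atd_eq_iff [Finite V] (G : CG C V) (cs : List C) (hcs : ∀ c, c ∈ cs) (le : V → V → Prop)
    (B : Set V) (hB : Set.InjOn (dep le) B) (r r' : V → V → Prop) (L : List (V × V))
    (hL : Atom G B r r' L) (x x' : V) :
    atd G cs le B r x (L.map Prod.fst) = atd G cs le B r' x' (L.map Prod.snd) ↔
      Atom G B r r' ((x, x') :: L) := by
  have hA : atd G cs le B r x (L.map Prod.fst) = atd G cs le B r' x' (L.map Prod.snd) ↔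
      fs (dep le '' {a | a ∈ B ∧ G.gr.Adj x a}) = fs (dep le '' {a | a ∈ B ∧ G.gr.Adj x' a}) ∧
        bits G cs r x (L.map Prod.fst) = bits G cs r' x' (L.map Prod.snd) := by
    unfold atd
    constructor
    · intro h
      have h' := congrArg ofLex h
      exact ⟨congrArg (fun p => ofColex p.1) h', congrArg Prod.snd h'⟩
    · rintro ⟨h1, h2⟩
      rw [h1, h2]
  rw [hA, tlem_fs_dep G le B hB x x', tlem_bits G cs hcs r r' L x x']
  constructor
  · rintro ⟨hb, hr, hc, hl⟩
    intro p hp q hq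
    rcases List.mem_cons.1 hp with rfl | hp
    · rcases List.mem_cons.1 hq with rfl | hq
      · exact ⟨iff_of_true rfl rfl, iff_of_false (G.gr.loopless.irrefl _) (G.gr.loopless.irrefl _),
          hr, hc, hb⟩
      · obtain ⟨h1, h2, h3, h4⟩ := hl q hq
        exact ⟨h1, h2, h3, hc, hb⟩
    · obtain ⟨-, -, -, g4, g5⟩ := hL p hp p hp
      rcases List.mem_cons.1 hq with rfl | hq
      · obtain ⟨h1, h2, h3, h4⟩ := hl p hp
        exact ⟨⟨fun e => (h1.1 e.symm).symm, fun e => (h1.2 e.symm).symm⟩,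
          ⟨fun e => (h2.1 e.symm).symm, fun e => (h2.2 e.symm).symm⟩, h4, g4, g5⟩
      · exact hL p hp q hq
  · intro h
    obtain ⟨-, -, hr, hc, hb⟩ := h (x, x') List.mem_cons_self (x, x') List.mem_cons_self
    refine ⟨hb, hr, hc, fun q hq => ?_⟩
    obtain ⟨h1, h2, h3, -, -⟩ := h (x, x') List.mem_cons_self q (List.mem_cons_of_mem _ hq)
    obtain ⟨-, -, h4, -, -⟩ := h q (List.mem_cons_of_mem _ hq) (x, x') List.mem_cons_self
    exact ⟨h1, h2, h3, h4⟩

/-- equality of types is EF equivalence -/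
theorem tp_eq_iff [Finite V] (G : CG C V) (cs : List C) (hcs : ∀ c, c ∈ cs) (le : V → V → Prop)
    (B : Set V) (hB : Set.InjOn (dep le) B) (r r' : V → V → Prop) (n : ℕ) (W W' : Set V)
    (L : List (V × V)) (hL : Atom G B r r' L) :
    tp G cs le B r n W (L.map Prod.fst) = tp G cs le B r' n W' (L.map Prod.snd) ↔
      EF G B r r' W W' n L := by
  induction n generalizing L with
  | zero => exact iff_of_true rfl hL
  | succ n ih =>
    have key : ∀ x x' : V, ((toLex (atd G cs le B r x (L.map Prod.fst),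
        tp G cs le B r n W (x :: L.map Prod.fst)) : AT ×ₗ Ty n) =
        toLex (atd G cs le B r' x' (L.map Prod.snd),
          tp G cs le B r' n W' (x' :: L.map Prod.snd))) ↔ EF G B r r' W W' n ((x, x') :: L) := by
      intro x x'
      have h1 : ((toLex (atd G cs le B r x (L.map Prod.fst),
        tp G cs le B r n W (x :: L.map Prod.fst)) : AT ×ₗ Ty n) =
        toLex (atd G cs le B r' x' (L.map Prod.snd),
          tp G cs le B r' n W' (x' :: L.map Prod.snd))) ↔
          (atd G cs le B r x (L.map Prod.fst) = atd G cs le B r' x' (L.map Prod.snd) ∧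
          tp G cs le B r n W (x :: L.map Prod.fst) = tp G cs le B r' n W' (x' :: L.map Prod.snd)) := by
        constructor
        · intro h
          have h' := congrArg ofLex h
          exact ⟨congrArg Prod.fst h', congrArg Prod.snd h'⟩
        · rintro ⟨h1, h2⟩
          rw [h1, h2]
      rw [h1, atd_eq_iff G cs hcs le B hB r r' L hL x x']
      constructor
      · rintro ⟨hA, ht⟩
        exact (ih ((x, x') :: L) hA).1 ht
      · intro hE
        exact ⟨hE.efalg_atom, (ih ((x, x') :: L) hE.efalg_atom).2 hE⟩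
    have h2 : tp G cs le B r (n + 1) W (L.map Prod.fst) =
        tp G cs le B r' (n + 1) W' (L.map Prod.snd) ↔ _ :=
      tlem_img_eq (fun x => (toLex (atd G cs le B r x (L.map Prod.fst),
        tp G cs le B r n W (x :: L.map Prod.fst)) : AT ×ₗ Ty n)) (fun x => (toLex
        (atd G cs le B r' x (L.map Prod.snd),
        tp G cs le B r' n W' (x :: L.map Prod.snd)) : AT ×ₗ Ty n)) W W'
    rw [h2]
    simp only [key]
    exact ⟨fun h => ⟨hL, h.1, h.2⟩, fun h => ⟨h.2.1, h.2.2⟩⟩

theorem atd_congr (G : CG C V) (cs : List C) (le : V → V → Prop) (B : Set V)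
    (r r' : V → V → Prop) (x : V) (u : List V)
    (h : ∀ z y, (z = x ∨ z ∈ u) → (y = x ∨ y ∈ u) → (r z y ↔ r' z y)) :
    atd G cs le B r x u = atd G cs le B r' x u := by
  have hb : bits G cs r x u = bits G cs r' x u := by
    unfold bits
    rw [propext (h x x (Or.inl rfl) (Or.inl rfl))]
    congr 1
    refine List.flatMap_congr fun w hw => ?_
    rw [propext (h x w (Or.inl rfl) (Or.inr hw)), propext (h w x (Or.inr hw) (Or.inl rfl))]
  unfold atd
  rw [hb]

/-- types depend only on the order inside -/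
theorem tp_congr (G : CG C V) (cs : List C) (le : V → V → Prop) (B : Set V)
    (r r' : V → V → Prop) (n : ℕ) (W : Set V) (u : List V)
    (h : ∀ x y, (x ∈ W ∨ x ∈ u) → (y ∈ W ∨ y ∈ u) → (r x y ↔ r' x y)) :
    tp G cs le B r n W u = tp G cs le B r' n W u := by
  induction n generalizing u with
  | zero => rfl
  | succ n ih =>
    have h1 : ((fun x => (toLex (atd G cs le B r x u,
      tp G cs le B r n W (x :: u)) : AT ×ₗ Ty n)) '' W) = ((fun x => (toLex (atd G cs le B r' x u,
      tp G cs le B r' n W (x :: u)) : AT ×ₗ Ty n)) '' W) := by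
      refine Set.image_congr fun x hx => ?_
      have e1 : atd G cs le B r x u = atd G cs le B r' x u := by
        refine atd_congr G cs le B r r' x u fun z y hz hy => h z y ?_ ?_
        · rcases hz with rfl | hz
          · exact Or.inl hx
          · exact Or.inr hz
        · rcases hy with rfl | hy
          · exact Or.inl hx
          · exact Or.inr hy
      have e2 : tp G cs le B r n W (x :: u) = tp G cs le B r' n W (x :: u) := by
        refine ih (x :: u) fun z y hz hy => h z y ?_ ?_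
        · rcases hz with hz | hz
          · exact Or.inl hz
          · rcases List.mem_cons.1 hz with rfl | hz
            · exact Or.inl hx
            · exact Or.inr hz
        · rcases hy with hy | hy
          · exact Or.inl hy
          · rcases List.mem_cons.1 hy with rfl | hy
            · exact Or.inl hx
            · exact Or.inr hy
      simp only [e1, e2]
    change (toColex (fs _) : Colex (Finset (AT ×ₗ Ty n))) = toColex (fs _)
    rw [h1]

end Pool.MP_33c730_lc
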