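import Pool.Agent.Lib.MP_33c730_lc.Dg.TDefs
import Pool.Agent.Lib.MP_33c730_lc.Tree
import Pool.Agent.Lib.MP_33c730_lc.Dg.TLem

set_option autoImplicit false

namespace Pool.MP_33c730_lc

variable {C V : Type}

/-! ### Rank: ranks and depths -/
theorem rk_lt [Finite V] {α : Type} [LinearOrder α] (f : V → α) (c c' : V) :
    rk f c < rk f c' ↔ f c < f c' := by
  have hfin : ∀ d, {t | (∃ c', f c' = t) ∧ t < f d}.Finite := fun d =>
    (Set.finite_range f).subset fun t ht => ht.1
  constructor
  · intro h
    by_contra hn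
    rw [not_lt] at hn
    have h2 : rk f c' ≤ rk f c :=
      Set.ncard_le_ncard (fun t ht => ⟨ht.1, lt_of_lt_of_le ht.2 hn⟩) (hfin c)
    omega
  · intro h
    refine Set.ncard_lt_ncard ⟨fun t ht => ⟨ht.1, ht.2.trans h⟩, fun hs => ?_⟩ (hfin c')
    exact lt_irrefl _ (hs (a := f c) ⟨⟨c, rfl⟩, h⟩).2

theorem rk_eq [Finite V] {α : Type} [LinearOrder α] (f : V → α) (c c' : V) :
    rk f c = rk f c' ↔ f c = f c' := by
  constructor
  · intro h
    rcases lt_trichotomy (f c) (f c') with h1 | h1 | h1
    · have := (rk_lt f c c').2 h1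
      omega
    · exact h1
    · have := (rk_lt f c' c).2 h1
      omega
  · intro h
    unfold rk
    rw [h]

theorem dep_lt [Finite V] {G : SimpleGraph V} {le : V → V → Prop} (hF : Forest G le) {a b : V}
    (h : le a b) (hne : a ≠ b) : dep le a < dep le b := by
  unfold dep
  refine Set.ncard_lt_ncard ?_ (Set.toFinite _)
  refine ⟨fun w hw => ⟨hF.trans _ _ _ hw.1 h, ?_⟩, fun hs => (hs (a := a) ⟨h, hne⟩).2 rfl⟩
  rintro rfl
  exact hw.2 (hF.antisymm _ _ hw.1 h)

theorem dep_sib {le : V → V → Prop} {c c' : V} (h : sib le c c') : dep le c = dep le c' := by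
  have h1 : anc le c = anc le c' := Set.ext h
  unfold dep
  rw [h1]

theorem dep_inj [Finite V] {G : SimpleGraph V} {le : V → V → Prop} (hF : Forest G le) (c : V) :
    Set.InjOn (dep le) (anc le c) := by
  intro a ha b hb hab
  by_contra hne
  rcases hF.chain a b c ha.1 hb.1 with h | h
  · have := dep_lt hF h hne
    omega
  · have := dep_lt hF h (Ne.symm hne)
    omega

theorem anc_sib {le : V → V → Prop} {c c' : V} (h : sib le c c') : anc le c = anc le c' :=
  Set.ext h

/-- the tuples of types depend only on the order inside the subtree -/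
theorem hk_congr (G : CG C V) (cs : List C) (le : V → V → Prop) (lt lt' : V → V → Prop)
    (n : ℕ) (c : V) (h : ∀ x y, le c x → le c y → (lt x y ↔ lt' x y)) :
    hk G cs le lt n c = hk G cs le lt' n c := by
  induction n with
  | zero => rfl
  | succ n ih =>
    have h1 : tp G cs le (anc le c) lt (n + 1) (sub le c) [] =
        tp G cs le (anc le c) lt' (n + 1) (sub le c) [] := by
      refine tp_congr G cs le (anc le c) lt lt' (n + 1) (sub le c) [] fun x y hx hy => ?_
      rcases hx with hx | hx
      · rcases hy with hy | hy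
        · exact h x y hx hy
        · simp at hy
      · simp at hx
    change (toLex (hk G cs le lt n c, tp G cs le (anc le c) lt (n + 1) (sub le c) []) :
      Hy n ×ₗ Ty (n + 1)) = toLex (hk G cs le lt' n c, tp G cs le (anc le c) lt' (n + 1) (sub le c) [])
    rw [ih, h1]

/-- levels of the tuples of types -/
theorem hk_lt_succ (G : CG C V) (cs : List C) (le : V → V → Prop) (lt : V → V → Prop)
    (n : ℕ) (c c' : V) : hk G cs le lt (n + 1) c < hk G cs le lt (n + 1) c' ↔
      (hk G cs le lt n c < hk G cs le lt n c' ∨ (hk G cs le lt n c = hk G cs le lt n c' ∧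
        tp G cs le (anc le c) lt (n + 1) (sub le c) [] <
          tp G cs le (anc le c') lt (n + 1) (sub le c') [])) := by
  change (toLex (hk G cs le lt n c, tp G cs le (anc le c) lt (n + 1) (sub le c) []) :
    Hy n ×ₗ Ty (n + 1)) < toLex (hk G cs le lt n c', tp G cs le (anc le c') lt (n + 1) (sub le c') [])
    ↔ _
  rw [Prod.Lex.toLex_lt_toLex]

theorem hk_eq_succ (G : CG C V) (cs : List C) (le : V → V → Prop) (lt : V → V → Prop)
    (n : ℕ) (c c' : V) : hk G cs le lt (n + 1) c = hk G cs le lt (n + 1) c' ↔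
      (hk G cs le lt n c = hk G cs le lt n c' ∧
        tp G cs le (anc le c) lt (n + 1) (sub le c) [] =
          tp G cs le (anc le c') lt (n + 1) (sub le c') []) := by
  change (toLex (hk G cs le lt n c, tp G cs le (anc le c) lt (n + 1) (sub le c) []) :
    Hy n ×ₗ Ty (n + 1)) = toLex (hk G cs le lt n c', tp G cs le (anc le c') lt (n + 1) (sub le c') [])
    ↔ _
  constructor
  · intro h
    have h' := congrArg ofLex h
    exact ⟨congrArg Prod.fst h', congrArg Prod.snd h'⟩
  · rintro ⟨h1, h2⟩
    rw [h1, h2]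

theorem hk_mono (G : CG C V) (cs : List C) (le : V → V → Prop) (lt : V → V → Prop)
    (n m : ℕ) (hnm : n ≤ m) (c c' : V) (h : hk G cs le lt m c ≤ hk G cs le lt m c') :
    hk G cs le lt n c ≤ hk G cs le lt n c' := by
  induction m, hnm using Nat.le_induction with
  | base => exact h
  | succ m hm ih =>
    apply ih
    rcases lt_or_eq_of_le h with h1 | h1
    · rcases (hk_lt_succ G cs le lt m c c').1 h1 with h2 | h2
      · exact h2.le
      · exact h2.1.le
    · exact ((hk_eq_succ G cs le lt m c c').1 h1).1.le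

end Pool.MP_33c730_lc
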