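import Pool.Agent.Lib.MP_33c730_lc.Tree

set_option autoImplicit false

namespace Pool.MP_33c730_lc

variable {V : Type}

/-! ### Unif: an interval of siblings looks the same from outside -/

private theorem unif_slt_irrefl {G : SimpleGraph V} {le : V → V → Prop} {κ num : V → ℕ} (c : V) :
    ¬ slt G le κ num c c := by
  rintro (h | ⟨-, h | ⟨-, h⟩⟩)
  · exact nbLt_irrefl c c (fun _ => Iff.rfl) h
  · exact lt_irrefl _ h
  · exact lt_irrefl _ h

private theorem unif_nb_symm {G : SimpleGraph V} {le : V → V → Prop} {c c' : V}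
    (h : nbEq G le c c') : nbEq G le c' c := fun a => (h a).symm

private theorem unif_nb_trans {G : SimpleGraph V} {le : V → V → Prop} {a b c : V}
    (h : nbEq G le a b) (h' : nbEq G le b c) : nbEq G le a c := fun x => (h x).trans (h' x)

theorem slt_asymm {G : SimpleGraph V} {le : V → V → Prop} (hF : Forest G le)
    {κ num : V → ℕ} {c c' : V} (h : sib le c c') (h1 : slt G le κ num c c') :
    ¬ slt G le κ num c' c := by
  rintro (h2 | ⟨hn, h2⟩)
  · rcases h1 with h1 | ⟨hn, h1⟩
    · exact nbLt_asymm hF h h1 h2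
    · exact nbLt_irrefl c' c (unif_nb_symm hn) h2
  · rcases h1 with h1 | ⟨-, h1⟩
    · exact nbLt_irrefl c c' (unif_nb_symm hn) h1
    · omega

theorem slt_trichotomy [Finite V] {G : SimpleGraph V} {le : V → V → Prop} (hF : Forest G le)
    {κ num : V → ℕ} (hnum : Function.Injective num) {c c' : V} (h : sib le c c') (hne : c ≠ c') :
    slt G le κ num c c' ∨ slt G le κ num c' c := by
  rcases nbLt_total hF h with h1 | h1 | h1
  · exact Or.inl (Or.inl h1)
  · have hn : num c ≠ num c' := fun h => hne (hnum h)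
    rcases lt_trichotomy (κ c) (κ c') with h2 | h2 | h2
    · exact Or.inl (Or.inr ⟨h1, Or.inl h2⟩)
    · rcases lt_or_gt_of_ne hn with h3 | h3
      · exact Or.inl (Or.inr ⟨h1, Or.inr ⟨h2, h3⟩⟩)
      · exact Or.inr (Or.inr ⟨unif_nb_symm h1, Or.inr ⟨h2.symm, h3⟩⟩)
    · exact Or.inr (Or.inr ⟨unif_nb_symm h1, Or.inl h2⟩)
  · exact Or.inr (Or.inl h1)

theorem slt_trans {G : SimpleGraph V} {le : V → V → Prop} (hF : Forest G le)
    {κ num : V → ℕ} {a b c : V} (h : sib le a b) (h' : sib le b c)
    (h1 : slt G le κ num a b) (h2 : slt G le κ num b c) : slt G le κ num a c := by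
  rcases h1 with h1 | ⟨hn, h1⟩
  · rcases h2 with h2 | ⟨hn', h2⟩
    · exact Or.inl (nbLt_trans hF h h' h1 h2)
    · exact Or.inl (nbLt_congr_right hn' h1)
  · rcases h2 with h2 | ⟨hn', h2⟩
    · exact Or.inl (nbLt_congr_left (unif_nb_symm hn) h2)
    · exact Or.inr ⟨unif_nb_trans hn hn', by omega⟩

/-- a vertex outside an interval of siblings: comparison of siblings -/
private theorem unif_sib [Finite V] {G : SimpleGraph V} {le : V → V → Prop} (hF : Forest G le)
    {κ num f : V → ℕ}
    (hmono : ∀ c c', sib le c c' → nbEq G le c c' → κ c ≤ κ c' → f c ≤ f c')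
    (D : Set V) (hD : ∀ d ∈ D, ∀ d' ∈ D, sib le d d' ∧ nbEq G le d d' ∧ f d = f d')
    (e : V) (hs : ∀ d ∈ D, sib le d e)
    (hc : (∀ d ∈ D, sib le d e ∧ nbEq G le d e ∧ f d = f e) →
      ((∀ d ∈ D, slt G le κ num d e) ∨ (∀ d ∈ D, slt G le κ num e d))) :
    (∀ d ∈ D, slt G le κ num d e) ∨ (∀ d ∈ D, slt G le κ num e d) := by
  by_cases hne : D.Nonempty
  · obtain ⟨d₀, hd₀⟩ := hne
    rcases nbLt_total hF (hs d₀ hd₀) with h1 | h1 | h1
    · exact Or.inl fun d hd => Or.inl (nbLt_congr_left (hD d₀ hd₀ d hd).2.1 h1)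
    · have hn : ∀ d ∈ D, nbEq G le d e := fun d hd => unif_nb_trans (hD d hd d₀ hd₀).2.1 h1
      rcases lt_trichotomy (f d₀) (f e) with h2 | h2 | h2
      · left
        intro d hd
        have h3 := (hD d hd d₀ hd₀).2.2
        refine Or.inr ⟨hn d hd, Or.inl ?_⟩
        by_contra hcon
        have h4 := hmono e d (sib_symm (hs d hd)) (unif_nb_symm (hn d hd)) (not_lt.1 hcon)
        omega
      · exact hc fun d hd => ⟨hs d hd, hn d hd, (hD d hd d₀ hd₀).2.2.trans h2⟩
      · right
        intro d hd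
        have h3 := (hD d hd d₀ hd₀).2.2
        refine Or.inr ⟨unif_nb_symm (hn d hd), Or.inl ?_⟩
        by_contra hcon
        have h4 := hmono d e (hs d hd) (hn d hd) (not_lt.1 hcon)
        omega
    · exact Or.inr fun d hd => Or.inl (nbLt_congr_right (hD d₀ hd₀ d hd).2.1 h1)
  · left
    intro d hd
    exact absurd ⟨d, hd⟩ hne

/-- the relation of `y` to all elements below `D` is constant -/
private theorem unif_cases [Finite V] {G : SimpleGraph V} {le : V → V → Prop} (hF : Forest G le)
    {κ num f : V → ℕ}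
    (hmono : ∀ c c', sib le c c' → nbEq G le c c' → κ c ≤ κ c' → f c ≤ f c')
    (D : Set V) (hD : ∀ d ∈ D, ∀ d' ∈ D, sib le d d' ∧ nbEq G le d d' ∧ f d = f d')
    (y : V) (hy : ∀ d ∈ D, ¬ le d y)
    (hyc : ∀ e, le e y → (∀ d ∈ D, sib le d e ∧ nbEq G le d e ∧ f d = f e) →
      ((∀ d ∈ D, slt G le κ num d e) ∨ (∀ d ∈ D, slt G le κ num e d))) :
    (∀ x, (∃ d ∈ D, le d x) → dlt G le κ num x y ∧ ¬ dlt G le κ num y x) ∨
    (∀ x, (∃ d ∈ D, le d x) → dlt G le κ num y x ∧ ¬ dlt G le κ num x y) ∨
    (∀ x, (∃ d ∈ D, le d x) → ¬ dlt G le κ num y x ∧ ¬ dlt G le κ num x y) := by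
  classical
  by_cases hne : D.Nonempty
  · obtain ⟨d₀, hd₀⟩ := hne
    by_cases hya : le y d₀
    · -- `y` is an ancestor
      have hyd : y ≠ d₀ := by
        rintro rfl
        exact hy y hd₀ (hF.refl y)
      right
      left
      rintro x ⟨d, hd, hdx⟩
      have h1 := ((hD d₀ hd₀ d hd).1 y).1 ⟨hya, hyd⟩
      have h2 : le y x := hF.trans _ _ _ h1.1 hdx
      have h3 : x ≠ y := by
        rintro rfl
        exact hy d hd hdx
      exact dlt_anc hF h2 h3
    · obtain ⟨e, e', hs, hee, hed, hey⟩ := sib_exists hF hya (hy d₀ hd₀)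
      -- `e` is over `y`, `e'` over `d₀`
      have hcomp : e' = d₀ ∨ (le e' d₀ ∧ e' ≠ d₀) := by
        by_cases h : e' = d₀
        · exact Or.inl h
        · exact Or.inr ⟨hey, h⟩
      rcases hcomp with rfl | ⟨h1, h2⟩
      · -- `e` is a sibling of the elements of `D`
        have hs' : ∀ d ∈ D, sib le d e := fun d hd =>
          sib_trans (hD d hd e' hd₀).1 (sib_symm hs)
        have heD : ∀ d ∈ D, d ≠ e := by
          rintro d hd rfl
          exact hy d hd hed
        rcases unif_sib hF hmono D hD e hs' (hyc e hed) with h | h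
        · left
          rintro x ⟨d, hd, hdx⟩
          exact dlt_sib hF (hs' d hd) (h d hd) (slt_asymm hF (hs' d hd) (h d hd)) hdx hed
        · right
          left
          rintro x ⟨d, hd, hdx⟩
          exact dlt_sib hF (sib_symm (hs' d hd)) (h d hd)
            (slt_asymm hF (sib_symm (hs' d hd)) (h d hd)) hed hdx
      · -- `e'` is an ancestor of all elements of `D`
        have hall : ∀ x, (∃ d ∈ D, le d x) → le e' x := by
          rintro x ⟨d, hd, hdx⟩
          exact hF.trans _ _ _ (((hD d₀ hd₀ d hd).1 e').1 ⟨h1, h2⟩).1 hdx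
        by_cases h3 : slt G le κ num e e'
        · right
          left
          intro x hx
          exact dlt_sib hF hs h3 (slt_asymm hF hs h3) hed (hall x hx)
        · by_cases h4 : slt G le κ num e' e
          · left
            intro x hx
            exact dlt_sib hF (sib_symm hs) h4 h3 (hall x hx) hed
          · right
            right
            intro x hx
            have hx' := hall x hx
            have hsub := sib_sub hF hs hee hed hx'
            constructor
            · rintro (h5 | ⟨g, g', hg, hgy, hgx, hgs⟩)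
              · exact hsub.2.2.1 h5.1
              · have hgg : g ≠ g' := by
                  rintro rfl
                  exact unif_slt_irrefl _ hgs
                obtain ⟨rfl, rfl⟩ := sib_unique hF hs hee hed hx' hg hgg hgy hgx
                exact h3 hgs
            · rintro (h5 | ⟨g, g', hg, hgy, hgx, hgs⟩)
              · exact hsub.2.2.2 h5.1
              · have hgg : g ≠ g' := by
                  rintro rfl
                  exact unif_slt_irrefl _ hgs
                obtain ⟨rfl, rfl⟩ := sib_unique hF (sib_symm hs) hee.symm hx' hed hg hgg hgy hgx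
                exact h4 hgs
  · left
    rintro x ⟨d, hd, -⟩
    exact absurd ⟨d, hd⟩ hne

theorem unif [Finite V] {G : SimpleGraph V} {le : V → V → Prop} (hF : Forest G le)
    {κ num f : V → ℕ}
    (hmono : ∀ c c', sib le c c' → nbEq G le c c' → κ c ≤ κ c' → f c ≤ f c')
    (D : Set V) (hD : ∀ d ∈ D, ∀ d' ∈ D, sib le d d' ∧ nbEq G le d d' ∧ f d = f d')
    (y : V) (hy : ∀ d ∈ D, ¬ le d y)
    (hyc : ∀ e, le e y → (∀ d ∈ D, sib le d e ∧ nbEq G le d e ∧ f d = f e) →
      ((∀ d ∈ D, slt G le κ num d e) ∨ (∀ d ∈ D, slt G le κ num e d)))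
    (x x' : V) (hx : ∃ d ∈ D, le d x) (hx' : ∃ d ∈ D, le d x') :
    (dlt G le κ num x y ↔ dlt G le κ num x' y) ∧ (dlt G le κ num y x ↔ dlt G le κ num y x') := by
  rcases unif_cases hF hmono D hD y hy hyc with h | h | h
  · exact ⟨iff_of_true (h x hx).1 (h x' hx').1, iff_of_false (h x hx).2 (h x' hx').2⟩
  · exact ⟨iff_of_false (h x hx).2 (h x' hx').2, iff_of_true (h x hx).1 (h x' hx').1⟩
  · exact ⟨iff_of_false (h x hx).2 (h x' hx').2, iff_of_false (h x hx).1 (h x' hx').1⟩

end Pool.MP_33c730_lc
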