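import Pool.Agent.Lib.MP_33c730_lc.Dg.Ctx
import Pool.Agent.Lib.MP_33c730_lc.Dg.Unif
import Pool.Agent.Lib.MP_33c730_lc.Dg.Rank
import Pool.Agent.Lib.MP_33c730_lc.Pump

set_option autoImplicit false

namespace Pool.MP_33c730_lc

variable {C V : Type}

/-! ### Reduce: dropping siblings in the middle of large classes -/
private theorem red_slt_irrefl {G : SimpleGraph V} {le : V → V → Prop} {κ num : V → ℕ} (c : V) :
    ¬ slt G le κ num c c := by
  rintro (h | ⟨-, h | ⟨-, h⟩⟩)
  · exact nbLt_irrefl c c (fun _ => Iff.rfl) h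
  · exact lt_irrefl _ h
  · exact lt_irrefl _ h

private theorem red_sorted_list (k : V → ℕ) (s : Finset V)
    (hk : ∀ x ∈ s, ∀ y ∈ s, x ≠ y → k x ≠ k y) :
    ∃ l : List V, (∀ x, x ∈ l ↔ x ∈ s) ∧ l.Pairwise (fun a b => k a < k b) ∧
      l.length = s.card := by
  classical
  induction s using Finset.induction_on_max_value k with
  | empty => exact ⟨[], by simp, List.Pairwise.nil, rfl⟩
  | insert a s ha hmax ih =>
    obtain ⟨l, h1, h2, h3⟩ := ih (fun x hx y hy => hk x (Finset.mem_insert_of_mem hx) y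
      (Finset.mem_insert_of_mem hy))
    refine ⟨l ++ [a], ?_, ?_, ?_⟩
    · intro x
      rw [List.mem_append, h1, List.mem_singleton, Finset.mem_insert]
      tauto
    · rw [List.pairwise_append]
      refine ⟨h2, List.pairwise_singleton _ _, ?_⟩
      intro x hx y hy
      rw [List.mem_singleton] at hy
      subst hy
      have hx' := (h1 x).1 hx
      have hne : x ≠ y := fun h => ha (h ▸ hx')
      exact lt_of_le_of_ne (hmax x hx') (hk x (Finset.mem_insert_of_mem hx') y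
        (Finset.mem_insert_self _ _) hne)
    · rw [List.length_append, h3, Finset.card_insert_of_notMem ha]
      rfl

private theorem red_uni_map (l : List V) (f : V → Set V) (S : Set V) (h : ∀ x, x ∈ l ↔ x ∈ S) :
    uni (l.map f) = {x | ∃ e ∈ S, x ∈ f e} := by
  ext x
  constructor
  · rintro ⟨A, hA, hx⟩
    obtain ⟨c, hc, rfl⟩ := List.mem_map.1 hA
    exact ⟨c, (h c).1 hc, hx⟩
  · rintro ⟨c, hc, hx⟩
    exact ⟨f c, List.mem_map.2 ⟨c, (h c).2 hc, rfl⟩, hx⟩

/-- the ordered sum of the subtrees of a set `D` of equivalent siblings, with and without `d`. -/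
private theorem red_pump [Finite V] (G : CG C V) (le : V → V → Prop) (hF : Forest G.gr le)
    (κ num : V → ℕ) (hnum : Function.Injective num) (n : ℕ) (d : V) (D : Set V)
    (hDs : ∀ e ∈ D, ∀ e' ∈ D, sib le e e') (hDn : ∀ e ∈ D, ∀ e' ∈ D, nbEq G.gr le e e')
    (hE : ∀ e ∈ D, ∀ e' ∈ D,
      EF G (anc le e) (dlt G.gr le κ num) (dlt G.gr le κ num) (sub le e) (sub le e') n [])
    (hd : d ∈ D) (g : Fin (2 ^ n) → V) (hg : Function.Injective g)
    (hgD : ∀ i, g i ∈ D ∧ g i ≠ d) :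
    EF G (anc le d) (dlt G.gr le κ num) (dlt G.gr le κ num) {x | ∃ e ∈ D, le e x}
      {x | ∃ e ∈ D, e ≠ d ∧ le e x} n [] := by
  classical
  have := Fintype.ofFinite V
  let k : V → ℕ := rk (fun v => (toLex (κ v, num v) : ℕ ×ₗ ℕ))
  have hkinj : ∀ x y, x ≠ y → k x ≠ k y := by
    intro x y hne h
    have h1 := (rk_eq (fun v => (toLex (κ v, num v) : ℕ ×ₗ ℕ)) x y).1 h
    have h2 : (κ x, num x) = (κ y, num y) := toLex.injective h1
    exact hne (hnum (Prod.ext_iff.1 h2).2)
  have hklt : ∀ x ∈ D, ∀ y ∈ D, k x < k y → slt G.gr le κ num x y := by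
    intro x hx y hy h
    have h1 := (rk_lt (fun v => (toLex (κ v, num v) : ℕ ×ₗ ℕ)) x y).1 h
    rw [Prod.Lex.toLex_lt_toLex] at h1
    exact Or.inr ⟨hDn x hx y hy, h1⟩
  have hblocks : ∀ l : List V, (∀ x ∈ l, x ∈ D) → l.Pairwise (fun a b => k a < k b) →
      Blocks G (dlt G.gr le κ num) (l.map (sub le)) := by
    intro l hl hs
    refine List.pairwise_map.2 ?_
    refine List.Pairwise.imp_of_mem ?_ hs
    intro a b ha hb hlt x hx y hy
    have haD := hl a ha
    have hbD := hl b hb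
    have hne : a ≠ b := by rintro rfl; exact lt_irrefl _ hlt
    have hsib := hDs a haD b hbD
    have h1 := sib_sub hF hsib hne hx hy
    have h2 := hklt a haD b hbD hlt
    have h3 := dlt_sib hF hsib h2 (slt_asymm hF hsib h2) hx hy
    exact ⟨h1.1, h1.2.1, h3.1, h3.2⟩
  obtain ⟨l, hl1, hl2, hl3⟩ := red_sorted_list k D.toFinset (fun x _ y _ hne => hkinj x y hne)
  obtain ⟨l', hl1', hl2', hl3'⟩ := red_sorted_list k (D.toFinset.erase d)
    (fun x _ y _ hne => hkinj x y hne)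
  have e1 : uni (l.map (sub le)) = {x | ∃ e ∈ D, le e x} :=
    red_uni_map l (sub le) D (fun x => by rw [hl1, Set.mem_toFinset])
  have e2 : uni (l'.map (sub le)) = {x | ∃ e ∈ D, e ≠ d ∧ le e x} := by
    rw [red_uni_map l' (sub le) (D \ {d}) (fun x => by
      rw [hl1', Finset.mem_erase, Set.mem_toFinset, Set.mem_sdiff, Set.mem_singleton_iff, and_comm])]
    ext x
    constructor
    · rintro ⟨e, he, hx⟩
      exact ⟨e, he.1, he.2, hx⟩
    · rintro ⟨e, he, hne, hx⟩
      exact ⟨e, ⟨he, hne⟩, hx⟩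
  rw [← e1, ← e2]
  have hcard : 2 ^ n ≤ (D.toFinset.erase d).card := by
    have h2 : (Finset.univ.image g).card = 2 ^ n := by
      rw [Finset.card_image_of_injective _ hg]; simp
    rw [← h2]
    apply Finset.card_le_card
    intro x hx
    obtain ⟨i, -, rfl⟩ := Finset.mem_image.1 hx
    rw [Finset.mem_erase, Set.mem_toFinset]
    exact ⟨(hgD i).2, (hgD i).1⟩
  have hcard' : (D.toFinset.erase d).card ≤ D.toFinset.card :=
    Finset.card_le_card (Finset.erase_subset _ _)
  refine EF.pump n _ _ (hblocks l (fun x hx => Set.mem_toFinset.1 ((hl1 x).1 hx)) hl2)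
    (hblocks l' (fun x hx => Set.mem_toFinset.1 (Finset.mem_of_mem_erase ((hl1' x).1 hx))) hl2')
    ?_ ?_
  · intro A hA A' hA'
    obtain ⟨a, ha, rfl⟩ := List.mem_map.1 hA
    obtain ⟨a', ha', rfl⟩ := List.mem_map.1 hA'
    have haD : a ∈ D := Set.mem_toFinset.1 ((hl1 a).1 ha)
    have haD' : a' ∈ D := Set.mem_toFinset.1 (Finset.mem_of_mem_erase ((hl1' a').1 ha'))
    have h1 := hE a haD a' haD'
    rwa [anc_sib (hDs a haD d hd)] at h1
  · right
    rw [List.length_map, List.length_map, hl3, hl3']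
    omega

/-- choice of the side -/
private theorem red_side [Finite V] {G : SimpleGraph V} {le : V → V → Prop} (hF : Forest G le)
    (κ num f : V → ℕ) (hnum : Function.Injective num) (K R : Set V) (n : ℕ) (d w : V)
    (hRK : ∀ e ∈ R, e ∉ K) (hdR : d ∉ R) (hdw : ¬ le d w)
    (hK1 : ∃ g : Fin (2 ^ n) → V, Function.Injective g ∧ ∀ i, g i ∈ K ∧ sib le d (g i) ∧
        nbEq G le d (g i) ∧ f d = f (g i) ∧ slt G le κ num (g i) d)
    (hK2 : ∃ g : Fin (2 ^ n) → V, Function.Injective g ∧ ∀ i, g i ∈ K ∧ sib le d (g i) ∧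
        nbEq G le d (g i) ∧ f d = f (g i) ∧ slt G le κ num d (g i)) :
    ∃ D : Set V, d ∈ D ∧ (∀ e ∈ D, (sib le d e ∧ nbEq G le d e ∧ f d = f e) ∧ e ∉ R) ∧
      (∀ e ∈ D, ¬ le e w) ∧
      (∀ e, (sib le d e ∧ nbEq G le d e ∧ f d = f e) → e ∉ D → e ∉ R →
        (∀ e' ∈ D, slt G le κ num e' e) ∨ (∀ e' ∈ D, slt G le κ num e e')) ∧
      ∃ g : Fin (2 ^ n) → V, Function.Injective g ∧ ∀ i, g i ∈ D ∧ g i ≠ d := by
  by_cases hP : ∃ e, sib le d e ∧ slt G le κ num e d ∧ le e w
  · obtain ⟨e₀, he1, he2, he3⟩ := hP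
    refine ⟨{e | (sib le d e ∧ nbEq G le d e ∧ f d = f e) ∧ e ∉ R ∧
      (e = d ∨ slt G le κ num d e)}, ?_, ?_, ?_, ?_, ?_⟩
    · exact ⟨⟨sib_refl d, fun _ => Iff.rfl, rfl⟩, hdR, Or.inl rfl⟩
    · rintro e ⟨h1, h2, -⟩
      exact ⟨h1, h2⟩
    · rintro e ⟨⟨hs, -, -⟩, -, h3⟩ hew
      rcases h3 with rfl | h3
      · exact hdw hew
      · have h4 : slt G le κ num e₀ e := slt_trans hF (sib_symm he1) hs he2 h3
        have hne : e₀ ≠ e := by
          rintro rfl
          exact red_slt_irrefl _ h4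
        have hinc := sib_incomp hF (sib_trans (sib_symm he1) hs) hne
        rcases hF.chain e₀ e w he3 hew with h | h
        · exact hinc.1 h
        · exact hinc.2 h
    · rintro e ⟨hs, hn, hf⟩ heD heR
      right
      have hed : e ≠ d := fun h => heD ⟨⟨hs, hn, hf⟩, heR, Or.inl h⟩
      have h1 : slt G le κ num e d := by
        rcases slt_trichotomy hF (κ := κ) hnum hs hed.symm with h | h
        · exact absurd ⟨⟨hs, hn, hf⟩, heR, Or.inr h⟩ heD
        · exact h
      rintro e' ⟨⟨hs', -, -⟩, -, h3⟩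
      rcases h3 with rfl | h3
      · exact h1
      · exact slt_trans hF (sib_symm hs) hs' h1 h3
    · obtain ⟨g, hg1, hg2⟩ := hK2
      refine ⟨g, hg1, fun i => ?_⟩
      obtain ⟨a1, a2, a3, a4, a5⟩ := hg2 i
      refine ⟨⟨⟨a2, a3, a4⟩, fun h => hRK _ h a1, Or.inr a5⟩, ?_⟩
      intro h
      rw [h] at a5
      exact red_slt_irrefl _ a5
  · refine ⟨{e | (sib le d e ∧ nbEq G le d e ∧ f d = f e) ∧ e ∉ R ∧
      (e = d ∨ slt G le κ num e d)}, ?_, ?_, ?_, ?_, ?_⟩
    · exact ⟨⟨sib_refl d, fun _ => Iff.rfl, rfl⟩, hdR, Or.inl rfl⟩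
    · rintro e ⟨h1, h2, -⟩
      exact ⟨h1, h2⟩
    · rintro e ⟨⟨hs, -, -⟩, -, h3⟩ hew
      rcases h3 with rfl | h3
      · exact hdw hew
      · exact hP ⟨e, hs, h3, hew⟩
    · rintro e ⟨hs, hn, hf⟩ heD heR
      left
      have hed : e ≠ d := fun h => heD ⟨⟨hs, hn, hf⟩, heR, Or.inl h⟩
      have h1 : slt G le κ num d e := by
        rcases slt_trichotomy hF (κ := κ) hnum hs hed.symm with h | h
        · exact h
        · exact absurd ⟨⟨hs, hn, hf⟩, heR, Or.inr h⟩ heD
      rintro e' ⟨⟨hs', -, -⟩, -, h3⟩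
      rcases h3 with rfl | h3
      · exact h1
      · exact slt_trans hF (sib_symm hs') hs h3 h1
    · obtain ⟨g, hg1, hg2⟩ := hK1
      refine ⟨g, hg1, fun i => ?_⟩
      obtain ⟨a1, a2, a3, a4, a5⟩ := hg2 i
      refine ⟨⟨⟨a2, a3, a4⟩, fun h => hRK _ h a1, Or.inr a5⟩, ?_⟩
      intro h
      rw [h] at a5
      exact red_slt_irrefl _ a5

/-- The step: `R` is a finite set of dropped vertices, `d` is a vertex of maximal depth in it. -/
theorem reduce_step [Finite V] (G : CG C V) (le : V → V → Prop) (hF : Forest G.gr le)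
    (κ num f : V → ℕ) (hnum : Function.Injective num)
    (hmono : ∀ c c', sib le c c' → nbEq G.gr le c c' → κ c ≤ κ c' → f c ≤ f c')
    (K : Set V) (n : ℕ)
    (hcls : ∀ c c', sib le c c' → nbEq G.gr le c c' → f c = f c' →
      EF G (anc le c) (dlt G.gr le κ num) (dlt G.gr le κ num) (sub le c) (sub le c') n [])
    (hK : ∀ c, c ∉ K →
      (∃ g : Fin (2 ^ n) → V, Function.Injective g ∧ ∀ i, g i ∈ K ∧ sib le c (g i) ∧
        nbEq G.gr le c (g i) ∧ f c = f (g i) ∧ slt G.gr le κ num (g i) c) ∧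
      (∃ g : Fin (2 ^ n) → V, Function.Injective g ∧ ∀ i, g i ∈ K ∧ sib le c (g i) ∧
        nbEq G.gr le c (g i) ∧ f c = f (g i) ∧ slt G.gr le κ num c (g i)))
    (c w : V) (hw : le c w) (R : Set V) (hR : ∀ d ∈ R, le c d ∧ d ≠ c ∧ d ∉ K ∧ ¬ le d w)
    (d : V) (hd : le c d ∧ d ≠ c ∧ d ∉ K ∧ ¬ le d w) (hmax : ∀ e ∈ R, dep le e ≤ dep le d) :
    EF G (anc le c) (dlt G.gr le κ num) (dlt G.gr le κ num)
      {x | le c x ∧ ∀ e ∈ R, ¬ le e x} {x | le c x ∧ ¬ le d x ∧ ∀ e ∈ R, ¬ le e x} n [(w, w)] := by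
  obtain ⟨hcd, hdc, hdK, hdw⟩ := hd
  by_cases hcase : ∃ e ∈ R, le e d
  · obtain ⟨e, heR, hed⟩ := hcase
    have hset : {x | le c x ∧ ¬ le d x ∧ ∀ e ∈ R, ¬ le e x} =
        {x | le c x ∧ ∀ e ∈ R, ¬ le e x} := by
      ext x
      constructor
      · rintro ⟨h1, -, h2⟩
        exact ⟨h1, h2⟩
      · rintro ⟨h1, h2⟩
        exact ⟨h1, fun h => h2 e heR (hF.trans _ _ _ hed h), h2⟩
    rw [hset]
    refine EF.refl G _ _ _ n _ ?_
    intro p hp
    rw [List.mem_singleton] at hp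
    rw [hp]
  · have hdR : d ∉ R := fun h => hcase ⟨d, h, hF.refl d⟩
    obtain ⟨D, hD1, hD2, hD3, hD4, g, hg1, hg2⟩ := red_side hF κ num f hnum K R n d w
      (fun e he => (hR e he).2.2.1) hdR hdw (hK d hdK).1 (hK d hdK).2
    have hDs : ∀ e ∈ D, ∀ e' ∈ D, sib le e e' := fun e he e' he' =>
      sib_trans (sib_symm (hD2 e he).1.1) (hD2 e' he').1.1
    have hDn : ∀ e ∈ D, ∀ e' ∈ D, nbEq G.gr le e e' := fun e he e' he' a =>
      ((hD2 e he).1.2.1 a).symm.trans ((hD2 e' he').1.2.1 a)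
    have hDf : ∀ e ∈ D, ∀ e' ∈ D, f e = f e' := fun e he e' he' =>
      (hD2 e he).1.2.2.symm.trans (hD2 e' he').1.2.2
    have hce : ∀ e ∈ D, le c e ∧ c ≠ e := fun e he => ((hD2 e he).1.1 c).1 ⟨hcd, hdc.symm⟩
    have hnR : ∀ e ∈ D, ∀ x, le e x → ∀ e' ∈ R, ¬ le e' x := by
      intro e he x hx e' he' hx'
      rcases hF.chain e' e x hx' hx with h | h
      · have hne : e' ≠ e := by
          rintro rfl
          exact (hD2 e' he).2 he'
        exact hcase ⟨e', he', (((hD2 e he).1.1 e').2 ⟨h, hne⟩).1⟩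
      · have hne : e ≠ e' := by
          rintro rfl
          exact (hD2 e he).2 he'
        have h1 := dep_lt hF h hne
        have h2 := dep_sib (hD2 e he).1.1
        have h3 := hmax e' he'
        omega
    have hpump := red_pump G le hF κ num hnum n d D hDs hDn (fun e he e' he' =>
      hcls e e' (hDs e he e' he') (hDn e he e' he') (hDf e he e' he')) hD1 g hg1 hg2
    have hctx := EF.ctx (B' := anc le c)
      (R := {x | le c x ∧ (∀ e ∈ R, ¬ le e x) ∧ ∀ e ∈ D, ¬ le e x}) (L₀ := [(w, w)]) ?_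
      (fun p hp => by simp at hp) hpump ?_ ?_ ?_
    · have s1 : {x | le c x ∧ (∀ e ∈ R, ¬ le e x) ∧ ∀ e ∈ D, ¬ le e x} ∪ {x | ∃ e ∈ D, le e x} =
          {x | le c x ∧ ∀ e ∈ R, ¬ le e x} := by
        ext x
        constructor
        · rintro (⟨h1, h2, -⟩ | ⟨e, he, hx⟩)
          · exact ⟨h1, h2⟩
          · exact ⟨hF.trans _ _ _ (hce e he).1 hx, hnR e he x hx⟩
        · rintro ⟨h1, h2⟩
          by_cases h : ∃ e ∈ D, le e x
          · exact Or.inr h
          · exact Or.inl ⟨h1, h2, fun e he hx => h ⟨e, he, hx⟩⟩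
      have s2 : {x | le c x ∧ (∀ e ∈ R, ¬ le e x) ∧ ∀ e ∈ D, ¬ le e x} ∪
          {x | ∃ e ∈ D, e ≠ d ∧ le e x} = {x | le c x ∧ ¬ le d x ∧ ∀ e ∈ R, ¬ le e x} := by
        ext x
        constructor
        · rintro (⟨h1, h2, h3⟩ | ⟨e, he, hne, hx⟩)
          · exact ⟨h1, h3 d hD1, h2⟩
          · refine ⟨hF.trans _ _ _ (hce e he).1 hx, ?_, hnR e he x hx⟩
            intro hdx
            have hinc := sib_incomp hF (hDs e he d hD1) hne
            rcases hF.chain e d x hx hdx with h | h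
            · exact hinc.1 h
            · exact hinc.2 h
        · rintro ⟨h1, h3, h2⟩
          by_cases h : ∃ e ∈ D, le e x
          · obtain ⟨e, he, hx⟩ := h
            refine Or.inr ⟨e, he, ?_, hx⟩
            rintro rfl
            exact h3 hx
          · exact Or.inl ⟨h1, h2, fun e he hx => h ⟨e, he, hx⟩⟩
      rw [s1, s2] at hctx
      exact hctx
    · intro p hp
      rw [List.mem_singleton] at hp
      subst hp
      exact ⟨rfl, hw, fun e he => (hR e he).2.2.2, hD3⟩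
    · rintro y ⟨-, -, hy⟩
      exact ⟨fun ⟨e, he, h⟩ => hy e he h, fun ⟨e, he, _, h⟩ => hy e he h⟩
    · intro y hy x hx hxy
      have hx' : ∃ e ∈ D, le e x := by
        rcases hx with h | ⟨e, he, _, h⟩
        · exact h
        · exact ⟨e, he, h⟩
      obtain ⟨e, he, hex⟩ := hx'
      rw [← anc_sib (hDs e he d hD1)]
      rcases adj_sub hF hex hxy with h | h
      · exfalso
        rcases hy with hy | hy
        · exact hy.2.2 e he h
        · exact (hce e he).2 (hF.antisymm _ _ (hce e he).1 (hF.trans _ _ _ h hy.1))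
      · exact h.1
    · intro y hy x x' hx hx'
      have hh : ∀ x, (x ∈ {x | ∃ e ∈ D, le e x} ∨ x ∈ {x | ∃ e ∈ D, e ≠ d ∧ le e x}) →
          ∃ e ∈ D, le e x := by
        rintro x (h | ⟨e, he, _, h⟩)
        · exact h
        · exact ⟨e, he, h⟩
      refine unif hF hmono D (fun e he e' he' => ⟨hDs e he e' he', hDn e he e' he',
        hDf e he e' he'⟩) y hy.2.2 ?_ x x' (hh x hx) (hh x' hx')
      intro e hey hall
      exact hD4 e (hall d hD1) (fun h => hy.2.2 e h hey) (fun h => hy.2.1 e h hey)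

theorem reduce [Finite V] (G : CG C V) (le : V → V → Prop) (hF : Forest G.gr le)
    (κ num f : V → ℕ) (hnum : Function.Injective num)
    (hmono : ∀ c c', sib le c c' → nbEq G.gr le c c' → κ c ≤ κ c' → f c ≤ f c')
    (K : Set V) (n : ℕ)
    (hcls : ∀ c c', sib le c c' → nbEq G.gr le c c' → f c = f c' →
      EF G (anc le c) (dlt G.gr le κ num) (dlt G.gr le κ num) (sub le c) (sub le c') n [])
    (hK : ∀ c, c ∉ K →
      (∃ g : Fin (2 ^ n) → V, Function.Injective g ∧ ∀ i, g i ∈ K ∧ sib le c (g i) ∧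
        nbEq G.gr le c (g i) ∧ f c = f (g i) ∧ slt G.gr le κ num (g i) c) ∧
      (∃ g : Fin (2 ^ n) → V, Function.Injective g ∧ ∀ i, g i ∈ K ∧ sib le c (g i) ∧
        nbEq G.gr le c (g i) ∧ f c = f (g i) ∧ slt G.gr le κ num c (g i)))
    (c w : V) (hw : le c w) :
    EF G (anc le c) (dlt G.gr le κ num) (dlt G.gr le κ num) (sub le c) (kpw le K w c) n
      [(w, w)] := by
  classical
  have := Fintype.ofFinite V
  have key : ∀ (m : ℕ) (R : Finset V), R.card = m →
      (∀ d ∈ R, le c d ∧ d ≠ c ∧ d ∉ K ∧ ¬ le d w) →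
      EF G (anc le c) (dlt G.gr le κ num) (dlt G.gr le κ num) (sub le c)
        {x | le c x ∧ ∀ e ∈ (R : Set V), ¬ le e x} n [(w, w)] := by
    intro m
    induction m with
    | zero =>
      intro R hR _
      have hR' : R = ∅ := Finset.card_eq_zero.1 hR
      subst hR'
      have hset : {x | le c x ∧ ∀ e ∈ ((∅ : Finset V) : Set V), ¬ le e x} = sub le c := by
        ext x
        constructor
        · rintro ⟨h, -⟩
          exact h
        · intro h
          exact ⟨h, fun e he => by simp at he⟩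
      rw [hset]
      refine EF.refl G _ _ _ n _ ?_
      intro p hp
      rw [List.mem_singleton] at hp
      rw [hp]
    | succ m ih =>
      intro R hR hRp
      have hne : R.Nonempty := by
        rw [← Finset.card_pos]
        omega
      obtain ⟨d, hdR, hmax⟩ := Finset.exists_max_image R (dep le) hne
      have h1 := ih (R.erase d) (by rw [Finset.card_erase_of_mem hdR]; omega)
        (fun e he => hRp e (Finset.mem_of_mem_erase he))
      have h2 := reduce_step G le hF κ num f hnum hmono K n hcls hK c w hw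
        ((R.erase d : Finset V) : Set V)
        (fun e he => hRp e (Finset.mem_of_mem_erase (Finset.mem_coe.1 he))) d (hRp d hdR)
        (fun e he => hmax e (Finset.mem_of_mem_erase (Finset.mem_coe.1 he)))
      have hset : {x | le c x ∧ ¬ le d x ∧ ∀ e ∈ ((R.erase d : Finset V) : Set V), ¬ le e x} =
          {x | le c x ∧ ∀ e ∈ (R : Set V), ¬ le e x} := by
        ext x
        constructor
        · rintro ⟨a1, a2, a3⟩
          refine ⟨a1, fun e he => ?_⟩
          by_cases hed : e = d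
          · rw [hed]
            exact a2
          · exact a3 e (Finset.mem_coe.2 (Finset.mem_erase.2 ⟨hed, Finset.mem_coe.1 he⟩))
        · rintro ⟨a1, a2⟩
          exact ⟨a1, a2 d (Finset.mem_coe.2 hdR), fun e he => a2 e
            (Finset.mem_coe.2 (Finset.mem_of_mem_erase (Finset.mem_coe.1 he)))⟩
      rw [hset] at h2
      exact EF.trans (G := G) (B := anc le c) (n := n) [(w, w, w)] h1 h2
  have h := key _ (Finset.univ.filter fun d => le c d ∧ d ≠ c ∧ d ∉ K ∧ ¬ le d w) rfl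
    (fun d hd => (Finset.mem_filter.1 hd).2)
  have hset : {x | le c x ∧ ∀ e ∈ ((Finset.univ.filter fun d => le c d ∧ d ≠ c ∧ d ∉ K ∧
      ¬ le d w : Finset V) : Set V), ¬ le e x} = kpw le K w c := by
    ext x
    constructor
    · rintro ⟨a1, a2⟩
      refine ⟨a1, fun y hy hyc hyx => ?_⟩
      by_contra hcon
      rw [not_or] at hcon
      exact a2 y (Finset.mem_coe.2 (Finset.mem_filter.2 ⟨Finset.mem_univ _, hy, hyc, hcon.1,
        hcon.2⟩)) hyx
    · rintro ⟨a1, a2⟩
      refine ⟨a1, fun e he hex => ?_⟩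
      obtain ⟨b1, b2, b3, b4⟩ := (Finset.mem_filter.1 (Finset.mem_coe.1 he)).2
      rcases a2 e b1 b2 hex with h | h
      · exact b3 h
      · exact b4 h
  rwa [hset] at h

end Pool.MP_33c730_lc
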