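import Pool.Agent.Lib.MP_33c730_lc.Dg.Rank

set_option autoImplicit false

namespace Pool.MP_33c730_lc

variable {C V : Type}

/-! ### Sorted: an order in which siblings are sorted by their types -/

private theorem sorted_dlt_local_imp [Finite V] {G : SimpleGraph V} {le : V → V → Prop}
    (hF : Forest G le) {k1 k1' k2 : V → ℕ} (c : V)
    (h1 : ∀ v, dep le c < dep le v → k1 v = k1' v) {x y : V}
    (hx : le c x) (hy : le c y) (h : dlt G le k1 k2 x y) : dlt G le k1' k2 x y := by
  rcases h with h | ⟨d, d', hs, hdx, hdy, hslt⟩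
  · exact Or.inl h
  · have hne : d ≠ d' := by
      rintro rfl
      rcases hslt with h | ⟨-, h | ⟨-, h⟩⟩
      · exact nbLt_irrefl d d (fun _ => Iff.rfl) h
      · exact lt_irrefl _ h
      · exact lt_irrefl _ h
    have hinc := sib_incomp hF hs hne
    have hdc : ¬ le d c := by
      intro hdc
      have hdy' : le d y := hF.trans _ _ _ hdc hy
      rcases hF.chain d d' y hdy' hdy with h | h
      · exact hinc.1 h
      · exact hinc.2 h
    have hcd : le c d := by
      rcases hF.chain d c x hdx hx with h | h
      · exact absurd h hdc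
      · exact h
    have hdne : c ≠ d := by
      rintro rfl
      exact hdc (hF.refl _)
    have hlt := dep_lt hF hcd hdne
    have hlt' : dep le c < dep le d' := by rwa [← dep_sib hs]
    refine Or.inr ⟨d, d', hs, hdx, hdy, ?_⟩
    unfold slt at hslt ⊢
    rw [← h1 d hlt, ← h1 d' hlt']
    exact hslt

private theorem sorted_dlt_local [Finite V] {G : SimpleGraph V} {le : V → V → Prop}
    (hF : Forest G le) {k1 k1' k2 : V → ℕ} (c : V)
    (h1 : ∀ v, dep le c < dep le v → k1 v = k1' v) {x y : V}
    (hx : le c x) (hy : le c y) : dlt G le k1 k2 x y ↔ dlt G le k1' k2 x y :=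
  ⟨sorted_dlt_local_imp hF c h1 hx hy,
    sorted_dlt_local_imp hF c (fun v hv => (h1 v hv).symm) hx hy⟩

theorem sorted [Finite V] (G : CG C V) (cs : List C) (le : V → V → Prop) (hF : Forest G.gr le)
    (num : V → ℕ) (q : ℕ) : ∃ κ : V → ℕ, ∀ c c', sib le c c' → nbEq G.gr le c c' →
      (κ c < κ c' ↔ hk G cs le (dlt G.gr le κ num) q c < hk G cs le (dlt G.gr le κ num) q c') := by
  classical
  have key : ∀ j : ℕ, ∃ κ : V → ℕ, ∀ c c', Nat.card V + 1 - j ≤ dep le c → sib le c c' →
      nbEq G.gr le c c' →
      (κ c < κ c' ↔ hk G cs le (dlt G.gr le κ num) q c <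
        hk G cs le (dlt G.gr le κ num) q c') := by
    intro j
    induction j with
    | zero =>
      refine ⟨fun _ => 0, fun c c' h => ?_⟩
      exfalso
      have h1 : dep le c ≤ Nat.card V := Set.ncard_le_card _
      omega
    | succ j ih =>
      by_cases hj : Nat.card V + 1 - j = 0
      · have h0 : Nat.card V + 1 - (j + 1) = Nat.card V + 1 - j := by omega
        rw [h0]
        exact ih
      · obtain ⟨d, hd⟩ := Nat.exists_eq_succ_of_ne_zero hj
        have h2 : Nat.card V + 1 - (j + 1) = d := by omega
        rw [h2]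
        rw [hd] at ih
        obtain ⟨κ, hκ⟩ := ih
        let κ' : V → ℕ := fun v =>
          if dep le v = d then rk (hk G cs le (dlt G.gr le κ num) q) v else κ v
        have e1 : ∀ v, dep le v ≠ d → κ v = κ' v := fun v hv => (if_neg hv).symm
        have f1 : ∀ v, dep le v = d →
            κ' v = rk (hk G cs le (dlt G.gr le κ num) q) v := fun v hv => if_pos hv
        have hloc : ∀ c, d ≤ dep le c →
            hk G cs le (dlt G.gr le κ num) q c = hk G cs le (dlt G.gr le κ' num) q c := by
          intro c hc
          refine hk_congr G cs le _ _ q c fun x y hx hy => ?_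
          exact sorted_dlt_local hF c (fun v hv => e1 v (by omega)) hx hy
        refine ⟨κ', fun c c' hdc hs hn => ?_⟩
        have hds := dep_sib hs
        have hdc' : d ≤ dep le c' := by omega
        rw [← hloc c hdc, ← hloc c' hdc']
        by_cases hc : dep le c = d
        · rw [f1 c hc, f1 c' (hds ▸ hc)]
          exact rk_lt _ c c'
        · rw [← e1 c hc, ← e1 c' (hds ▸ hc)]
          exact hκ c c' (by omega) hs hn
  obtain ⟨κ, hκ⟩ := key (Nat.card V + 1)
  exact ⟨κ, fun c c' => hκ c c' (by omega)⟩

end Pool.MP_33c730_lc
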