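import Pool.Agent.Lib.MP_33c730_lc.Dg.TLem
import Pool.Agent.Lib.MP_33c730_lc.Dg.Reduce
import Pool.Agent.Lib.MP_33c730_lc.Dg.Pos
import Pool.Agent.Lib.MP_33c730_lc.Dg.Sorted

set_option autoImplicit false

namespace Pool.MP_33c730_lc

variable {C V : Type}

/-! ### Comp2: legitimate labels exist in all graphs -/
section Comp2

private theorem comp2_slt_irrefl {G : SimpleGraph V} {le : V → V → Prop} {κ num : V → ℕ} (c : V) :
    ¬ slt G le κ num c c := by
  rintro (h | ⟨-, h | ⟨-, h⟩⟩)
  · exact nbLt_irrefl c c (fun _ => Iff.rfl) h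
  · exact lt_irrefl _ h
  · exact lt_irrefl _ h

private theorem comp2_slt_agree [Finite V] {G : SimpleGraph V} {le : V → V → Prop}
    (hF : Forest G le) {κ num f k j : V → ℕ} (hnum : Function.Injective num)
    (hmono : ∀ c c', sib le c c' → nbEq G le c c' → κ c ≤ κ c' → f c ≤ f c')
    (hk : ∀ c c', k c < k c' ↔ f c < f c') {K : Set V}
    (hj : ∀ c c', sib le c c' → nbEq G le c c' → f c = f c' → slt G le κ num c c' →
        (c ∈ K ∨ c' ∈ K) → j c < j c') {e e' : V} (hs : sib le e e') (hne : e ≠ e')
    (hK : e ∈ K ∨ e' ∈ K) : slt G le κ num e e' ↔ slt G le k j e e' := by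
  have hkeq : k e = k e' ↔ f e = f e' := by
    have h1 := hk e e'
    have h2 := hk e' e
    omega
  have hnbs : nbEq G le e e' → nbEq G le e' e := fun h a => (h a).symm
  constructor
  · intro h
    rcases h with h | ⟨hn, h⟩
    · exact Or.inl h
    · refine Or.inr ⟨hn, ?_⟩
      have hκ : κ e ≤ κ e' := by
        rcases h with h | h
        · exact h.le
        · exact h.1.le
      have hf := hmono e e' hs hn hκ
      rcases lt_or_eq_of_le hf with h' | h'
      · exact Or.inl ((hk e e').2 h')
      · exact Or.inr ⟨hkeq.2 h', hj e e' hs hn h' (Or.inr ⟨hn, h⟩) hK⟩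
  · intro h
    rcases h with h | ⟨hn, h⟩
    · exact Or.inl h
    · rcases h with h | ⟨h1, h2⟩
      · refine Or.inr ⟨hn, Or.inl ?_⟩
        by_contra hcon
        have h3 := hmono e' e (sib_symm hs) (hnbs hn) (not_lt.1 hcon)
        have h4 := (hk e e').1 h
        omega
      · have h3 := hkeq.1 h1
        rcases slt_trichotomy hF (κ := κ) hnum hs hne with h4 | h4
        · exact h4
        · have h5 := hj e' e (sib_symm hs) (hnbs hn) h3.symm h4 hK.symm
          omega

/-- the two orders agree on reduced subtrees -/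
private theorem comp2_dlt_agree [Finite V] {G : SimpleGraph V} {le : V → V → Prop}
    (hF : Forest G le) {κ num f k j : V → ℕ} (hnum : Function.Injective num)
    (hmono : ∀ c c', sib le c c' → nbEq G le c c' → κ c ≤ κ c' → f c ≤ f c')
    (hk : ∀ c c', k c < k c' ↔ f c < f c') {K : Set V}
    (hj : ∀ c c', sib le c c' → nbEq G le c c' → f c = f c' → slt G le κ num c c' →
        (c ∈ K ∨ c' ∈ K) → j c < j c') (c w : V) (x y : V)
    (hx : x ∈ kpw le K w c) (hy : y ∈ kpw le K w c) :
    dlt G le κ num x y ↔ dlt G le k j x y := by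
  have key : ∀ e e', sib le e e' → le e x → le e' y → e ≠ e' → (e ∈ K ∨ e' ∈ K) := by
    intro e e' hs hex hey hne
    have hinc := sib_incomp hF hs hne
    have hce : le c e ∧ e ≠ c := by
      rcases hF.chain c e x hx.1 hex with h | h
      · refine ⟨h, ?_⟩
        rintro rfl
        rcases hF.chain e e' y hy.1 hey with h' | h'
        · exact hinc.1 h'
        · exact hinc.2 h'
      · exfalso
        rcases hF.chain e e' y (hF.trans _ _ _ h hy.1) hey with h' | h'
        · exact hinc.1 h'
        · exact hinc.2 h'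
    have hce' : le c e' ∧ e' ≠ c := by
      have h1 : le c e' ∧ c ≠ e' := (hs c).1 ⟨hce.1, fun h => hce.2 h.symm⟩
      exact ⟨h1.1, fun h => h1.2 h.symm⟩
    rcases hx.2 e hce.1 hce.2 hex with h1 | h1
    · exact Or.inl h1
    · rcases hy.2 e' hce'.1 hce'.2 hey with h2 | h2
      · exact Or.inr h2
      · exfalso
        rcases hF.chain e e' w h1 h2 with h' | h'
        · exact hinc.1 h'
        · exact hinc.2 h'
  constructor
  · rintro (h | ⟨e, e', hs, hex, hey, hslt⟩)
    · exact Or.inl h
    · have hne : e ≠ e' := by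
        rintro rfl
        exact comp2_slt_irrefl e hslt
      exact Or.inr ⟨e, e', hs, hex, hey,
        (comp2_slt_agree hF hnum hmono hk hj hs hne (key e e' hs hex hey hne)).1 hslt⟩
  · rintro (h | ⟨e, e', hs, hex, hey, hslt⟩)
    · exact Or.inl h
    · have hne : e ≠ e' := by
        rintro rfl
        exact comp2_slt_irrefl e hslt
      exact Or.inr ⟨e, e', hs, hex, hey,
        (comp2_slt_agree hF hnum hmono hk hj hs hne (key e e' hs hex hey hne)).2 hslt⟩

private theorem comp2_kpw_mem {G : SimpleGraph V} {le : V → V → Prop} (hF : Forest G le)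
    (K : Set V) {c w : V} (hw : le c w) : w ∈ kpw le K w c :=
  ⟨hw, fun _ _ _ h => Or.inr h⟩

private theorem comp2_kpw_self {G : SimpleGraph V} {le : V → V → Prop} (hF : Forest G le)
    (K : Set V) (c : V) : kpw le K c c = kp le K c := by
  ext x
  constructor
  · rintro ⟨h1, h2⟩
    refine ⟨h1, fun y hy hne hyx => ?_⟩
    rcases h2 y hy hne hyx with h | h
    · exact h
    · exact absurd (hF.antisymm _ _ h hy) hne
  · rintro ⟨h1, h2⟩
    exact ⟨h1, fun y hy hne hyx => Or.inl (h2 y hy hne hyx)⟩

private theorem comp2_hk_EF [Finite V] (G : CG C V) (cs : List C) (hcs : ∀ c, c ∈ cs)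
    (le : V → V → Prop) (hF : Forest G.gr le) (lt : V → V → Prop) (r : ℕ) (c c' : V)
    (hs : sib le c c') (h : hk G cs le lt r c = hk G cs le lt r c') :
    EF G (anc le c) lt lt (sub le c) (sub le c') r [] := by
  cases r with
  | zero =>
    intro p hp
    simp at hp
  | succ r =>
    have h1 := ((hk_eq_succ G cs le lt r c c').1 h).2
    rw [← anc_sib hs] at h1
    exact (tp_eq_iff G cs hcs le (anc le c) (dep_inj hF c) lt lt (r + 1) (sub le c) (sub le c') []
      (fun p hp => by simp at hp)).1 h1

/-- the type computed at level `r` is the type of the full order. -/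
private theorem comp2_ty_eq [Finite V] (G : CG C V) (cs : List C) (hcs : ∀ c, c ∈ cs)
    (le : V → V → Prop) (hF : Forest G.gr le) (κ num k j : V → ℕ) (K : Set V) (r : ℕ)
    (hD : ∀ c w x y, x ∈ kpw le K w c → y ∈ kpw le K w c →
      (dlt G.gr le κ num x y ↔ dlt G.gr le k j x y))
    (hB : ∀ c w, le c w → EF G (anc le c) (dlt G.gr le κ num) (dlt G.gr le κ num) (sub le c)
      (kpw le K w c) r [(w, w)]) (c : V) :
    ty G cs le K (dlt G.gr le k j) r c =
      tp G cs le (anc le c) (dlt G.gr le κ num) (r + 1) (sub le c) [] := by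
  have key : ∀ w ∈ sub le c,
      ((toLex (atd G cs le (anc le c) (dlt G.gr le k j) w [],
        tp G cs le (anc le c) (dlt G.gr le k j) r (kpw le K w c) [w])) : AT ×ₗ Ty r) =
      toLex (atd G cs le (anc le c) (dlt G.gr le κ num) w [],
        tp G cs le (anc le c) (dlt G.gr le κ num) r (sub le c) [w]) := by
    intro w hw
    have e1 : atd G cs le (anc le c) (dlt G.gr le k j) w [] =
        atd G cs le (anc le c) (dlt G.gr le κ num) w [] := by
      refine atd_congr G cs le (anc le c) _ _ w [] ?_
      rintro z y (rfl | hz) (rfl | hy)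
      · exact ⟨fun h => absurd h (dlt_irrefl hF _), fun h => absurd h (dlt_irrefl hF _)⟩
      · simp at hy
      · simp at hz
      · simp at hy
    have e2 : tp G cs le (anc le c) (dlt G.gr le k j) r (kpw le K w c) [w] =
        tp G cs le (anc le c) (dlt G.gr le κ num) r (kpw le K w c) [w] := by
      refine tp_congr G cs le (anc le c) _ _ r _ [w] ?_
      have hmem : w ∈ kpw le K w c := comp2_kpw_mem hF K hw
      intro x y hx hy
      have hx' : x ∈ kpw le K w c := by
        rcases hx with h | h
        · exact h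
        · rw [List.mem_singleton] at h
          rw [h]
          exact hmem
      have hy' : y ∈ kpw le K w c := by
        rcases hy with h | h
        · exact h
        · rw [List.mem_singleton] at h
          rw [h]
          exact hmem
      exact (hD c w x y hx' hy').symm
    have e3 : tp G cs le (anc le c) (dlt G.gr le κ num) r (sub le c) [w] =
        tp G cs le (anc le c) (dlt G.gr le κ num) r (kpw le K w c) [w] := by
      have h1 := hB c w hw
      exact (tp_eq_iff G cs hcs le (anc le c) (dep_inj hF c) _ _ r (sub le c) (kpw le K w c)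
        [(w, w)] h1.efalg_atom).2 h1
    rw [e1, e2, e3]
  have h2 : ((fun w => (toLex (atd G cs le (anc le c) (dlt G.gr le k j) w [],
      tp G cs le (anc le c) (dlt G.gr le k j) r (kpw le K w c) [w]) : AT ×ₗ Ty r)) '' (sub le c)) =
      ((fun w => (toLex (atd G cs le (anc le c) (dlt G.gr le κ num) w [],
        tp G cs le (anc le c) (dlt G.gr le κ num) r (sub le c) [w]) : AT ×ₗ Ty r)) ''
          (sub le c)) := Set.image_congr key
  change (toColex (fs _) : Colex (Finset (AT ×ₗ Ty r))) = toColex (fs _)
  rw [h2]

theorem complete2 [Finite V] (G : CG C V) (cs : List C) (hcs : ∀ c, c ∈ cs) (le : V → V → Prop)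
    (hF : Forest G.gr le) (q : ℕ) : ∃ (K : ℕ → Set V) (j : ℕ → V → ℕ),
      (∀ r v, j r v ≤ 2 * 2 ^ q) ∧
      Legit G le (K q) (klev G cs le K j q) (j q) q := by
  classical
  obtain ⟨num, hnum⟩ : ∃ num : V → ℕ, Function.Injective num :=
    ⟨fun v => (Finite.equivFin V v).val, fun a b h =>
      (Finite.equivFin V).injective (Fin.ext h)⟩
  obtain ⟨κ, hκ⟩ := sorted G cs le hF num q
  have hmono : ∀ r, r ≤ q → ∀ c c', sib le c c' → nbEq G.gr le c c' → κ c ≤ κ c' →
      rk (hk G cs le (dlt G.gr le κ num) r) c ≤ rk (hk G cs le (dlt G.gr le κ num) r) c' := by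
    intro r hr c c' hs hn h
    have hn' : nbEq G.gr le c' c := fun a => (hn a).symm
    have h1 : ¬ hk G cs le (dlt G.gr le κ num) q c' < hk G cs le (dlt G.gr le κ num) q c := by
      rw [← hκ c' c (sib_symm hs) hn']
      omega
    have h2 := hk_mono G cs le (dlt G.gr le κ num) r q hr c c' (not_lt.1 h1)
    by_contra hcon
    exact absurd ((rk_lt _ c' c).1 (not_le.1 hcon)) (not_lt.2 h2)
  choose K j hj1 hj2 hj3 using fun r => positions hF κ num
    (rk (hk G cs le (dlt G.gr le κ num) r)) hnum r
  refine ⟨K, fun r v => if r ≤ q then j r v else 0, ?_, ?_⟩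
  · intro r v
    dsimp only
    split_ifs with h
    · refine (hj1 r v).trans ?_
      have := Nat.pow_le_pow_right (n := 2) (by norm_num) h
      omega
    · exact Nat.zero_le _
  set j' : ℕ → V → ℕ := fun r v => if r ≤ q then j r v else 0 with hj'
  have hjj : ∀ r, r ≤ q → j' r = j r := by
    intro r hr
    funext v
    simp only [hj', if_pos hr]
  -- levels
  have hB : ∀ r, r ≤ q → ∀ c w, le c w → EF G (anc le c) (dlt G.gr le κ num) (dlt G.gr le κ num)
      (sub le c) (kpw le (K r) w c) r [(w, w)] := by
    intro r hr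
    refine reduce G le hF κ num (rk (hk G cs le (dlt G.gr le κ num) r)) hnum (hmono r hr) (K r) r
      ?_ ?_
    · intro c c' hs _ hf
      exact comp2_hk_EF G cs hcs le hF _ r c c' hs ((rk_eq _ c c').1 hf)
    · exact hj3 r
  have hA : ∀ r, r ≤ q → ∀ c c', klev G cs le K j' r c < klev G cs le K j' r c' ↔
      hk G cs le (dlt G.gr le κ num) r c < hk G cs le (dlt G.gr le κ num) r c' := by
    intro r
    induction r with
    | zero =>
      intro _ c c'
      constructor
      · intro h
        exact absurd h (lt_irrefl _)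
      · intro h
        exact absurd h (lt_irrefl _)
    | succ r ih =>
      intro hr c c'
      have hr' : r ≤ q := Nat.le_of_succ_le hr
      have ih' := ih hr'
      have hkf : ∀ c c', klev G cs le K j' r c < klev G cs le K j' r c' ↔
          rk (hk G cs le (dlt G.gr le κ num) r) c < rk (hk G cs le (dlt G.gr le κ num) r) c' :=
        fun c c' => (ih' c c').trans (rk_lt _ c c').symm
      have hD : ∀ c w x y, x ∈ kpw le (K r) w c → y ∈ kpw le (K r) w c →
          (dlt G.gr le κ num x y ↔ dlt G.gr le (klev G cs le K j' r) (j' r) x y) := by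
        intro c w x y hx hy
        rw [hjj r hr']
        exact comp2_dlt_agree hF hnum (hmono r hr') hkf (hj2 r) c w x y hx hy
      have hty := fun c => comp2_ty_eq G cs hcs le hF κ num (klev G cs le K j' r) (j' r) (K r) r
        hD (hB r hr') c
      have h1 : klev G cs le K j' (r + 1) c < klev G cs le K j' (r + 1) c' ↔
          ((toLex (klev G cs le K j' r c, ty G cs le (K r)
            (dlt G.gr le (klev G cs le K j' r) (j' r)) r c) : ℕ ×ₗ Ty (r + 1)) <
          toLex (klev G cs le K j' r c', ty G cs le (K r)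
            (dlt G.gr le (klev G cs le K j' r) (j' r)) r c')) :=
        rk_lt (fun c => (toLex (klev G cs le K j' r c, ty G cs le (K r)
            (dlt G.gr le (klev G cs le K j' r) (j' r)) r c) : ℕ ×ₗ Ty (r + 1))) c c'
      rw [h1, Prod.Lex.toLex_lt_toLex, hk_lt_succ, hty c, hty c']
      have h2 : klev G cs le K j' r c = klev G cs le K j' r c' ↔
          hk G cs le (dlt G.gr le κ num) r c = hk G cs le (dlt G.gr le κ num) r c' := by
        have a1 := ih' c c'
        have a2 := ih' c' c
        constructor
        · intro h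
          refine le_antisymm ?_ ?_
          · exact not_lt.1 fun h3 => by rw [← a2] at h3; omega
          · exact not_lt.1 fun h3 => by rw [← a1] at h3; omega
        · intro h
          have b1 : ¬ klev G cs le K j' r c < klev G cs le K j' r c' := by
            rw [a1, h]; exact lt_irrefl _
          have b2 : ¬ klev G cs le K j' r c' < klev G cs le K j' r c := by
            rw [a2, h]; exact lt_irrefl _
          omega
      exact or_congr (ih' c c') (and_congr h2 Iff.rfl)
  have hkf : ∀ c c', klev G cs le K j' q c < klev G cs le K j' q c' ↔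
      rk (hk G cs le (dlt G.gr le κ num) q) c < rk (hk G cs le (dlt G.gr le κ num) q) c' :=
    fun c c' => (hA q le_rfl c c').trans (rk_lt _ c c').symm
  have hke : ∀ c c', klev G cs le K j' q c = klev G cs le K j' q c' ↔
      rk (hk G cs le (dlt G.gr le κ num) q) c = rk (hk G cs le (dlt G.gr le κ num) q) c' := by
    intro c c'
    have h1 := hkf c c'
    have h2 := hkf c' c
    omega
  have hDq : ∀ c w x y, x ∈ kpw le (K q) w c → y ∈ kpw le (K q) w c →
      (dlt G.gr le κ num x y ↔ dlt G.gr le (klev G cs le K j' q) (j' q) x y) := by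
    intro c w x y hx hy
    rw [hjj q le_rfl]
    exact comp2_dlt_agree hF hnum (hmono q le_rfl) hkf (hj2 q) c w x y hx hy
  refine ⟨?_, ?_, ?_⟩
  · intro c hc c' hc' hne hs hn hkk
    rw [hjj q le_rfl]
    have hf := (hke c c').1 hkk
    have hn' : nbEq G.gr le c' c := fun a => (hn a).symm
    rcases slt_trichotomy hF (κ := κ) hnum hs hne with h | h
    · exact (hj2 q c c' hs hn hf h (Or.inl hc)).ne
    · exact (hj2 q c' c (sib_symm hs) hn' hf.symm h (Or.inl hc')).ne'
  · intro c c' hs hn hkk
    have hf := (rk_eq _ c c').1 ((hke c c').1 hkk)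
    have e1 : EF G (anc le c) (dlt G.gr le κ num) (dlt G.gr le κ num) (sub le c) (sub le c') q [] :=
      comp2_hk_EF G cs hcs le hF _ q c c' hs hf
    have e2 : EF G (anc le c) (dlt G.gr le κ num) (dlt G.gr le κ num) (sub le c)
        (kp le (K q) c) q [] := by
      have h := hB q le_rfl c c (hF.refl c)
      rw [comp2_kpw_self hF] at h
      exact h.mono le_rfl (List.nil_subset _)
    have e3 : EF G (anc le c) (dlt G.gr le κ num) (dlt G.gr le κ num) (sub le c')
        (kp le (K q) c') q [] := by
      have h := hB q le_rfl c' c' (hF.refl c')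
      rw [comp2_kpw_self hF, ← anc_sib hs] at h
      exact h.mono le_rfl (List.nil_subset _)
    have t1 : EF G (anc le c) (dlt G.gr le κ num) (dlt G.gr le κ num) (kp le (K q) c)
        (sub le c') q [] := by
      have h := EF.trans (G := G) (B := anc le c) (n := q) [] (by simpa using e2.symm)
        (by simpa using e1)
      simpa using h
    have t2 : EF G (anc le c) (dlt G.gr le κ num) (dlt G.gr le κ num) (kp le (K q) c)
        (kp le (K q) c') q [] := by
      have h := EF.trans (G := G) (B := anc le c) (n := q) [] (by simpa using t1)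
        (by simpa using e3)
      simpa using h
    refine t2.congr (fun p hp => by simp at hp) ?_ ?_
    · intro x hx y hy
      rw [← comp2_kpw_self hF] at hx hy
      exact hDq c c x y hx hy
    · intro x hx y hy
      rw [← comp2_kpw_self hF] at hx hy
      exact hDq c' c' x y hx hy
  · intro c hc
    obtain ⟨⟨g, hg1, hg2⟩, -⟩ := hj3 q c hc
    refine ⟨g, hg1, fun i => ?_⟩
    obtain ⟨h1, h2, h3, h4, -⟩ := hg2 i
    exact ⟨h1, h2, h3, (hke c (g i)).2 h4⟩

end Comp2

end Pool.MP_33c730_lc
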