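/-
MP_33c730_lc (helper20): degenerate graphs. Definition only.
-/
import Pool.Agent.Lib.MP_33c730_lc.Defs

set_option autoImplicit false

namespace Pool.MP_33c730_lc

/-- `G` is `d`-degenerate: every nonempty finite set `W` of vertices contains a vertex with at most
`d` neighbours in `W`. -/
def Degenerate {V : Type} (d : ℕ) (G : SimpleGraph V) : Prop :=
  ∀ W : Finset V, W.Nonempty → ∃ x ∈ W, {y | y ∈ W ∧ G.Adj x y}.ncard ≤ d

end Pool.MP_33c730_lc
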