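import Pool.Agent.Lib.MP_33c730_lc.Dg.Code2
import Pool.Agent.Lib.MP_33c730_lc.Dg.DegDefs
import Pool.Agent.Lib.MP_33c730_lc.Degen
import Pool.Agent.Lib.MP_33c730_lc.Tree

set_option autoImplicit false

namespace Pool.MP_33c730_lc

/-! ### Conf: the conflict graph of a degenerate graph is sparse -/
theorem degenerate_bound {V : Type} [Finite V] {d : ℕ} {G : SimpleGraph V} (h : Degenerate d G)
    (W : Finset V) : Set.ncard {p : V × V | p.1 ∈ W ∧ p.2 ∈ W ∧ G.Adj p.1 p.2} ≤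
      (2 * d) * W.card := by
  classical
  have key : ∀ k : ℕ, ∀ W : Finset V, W.card = k →
      Set.ncard {p : V × V | p.1 ∈ W ∧ p.2 ∈ W ∧ G.Adj p.1 p.2} ≤ (2 * d) * k := by
    intro k
    induction k with
    | zero =>
      intro W hW
      rw [Finset.card_eq_zero] at hW
      subst hW
      simp
    | succ k ih =>
      intro W hW
      have hne : W.Nonempty := by
        rw [← Finset.card_pos]
        omega
      obtain ⟨x, hx, hdeg⟩ := h W hne
      have h1 := ih (W.erase x) (by rw [Finset.card_erase_of_mem hx]; omega)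
      have hsub : {p : V × V | p.1 ∈ W ∧ p.2 ∈ W ∧ G.Adj p.1 p.2} ⊆
          {p : V × V | p.1 ∈ W.erase x ∧ p.2 ∈ W.erase x ∧ G.Adj p.1 p.2} ∪
          ((fun y => (x, y)) '' {y | y ∈ W ∧ G.Adj x y} ∪
            (fun y => (y, x)) '' {y | y ∈ W ∧ G.Adj x y}) := by
        rintro ⟨a, b⟩ ⟨ha, hb, hab⟩
        simp only at ha hb hab
        by_cases hax : a = x
        · right; left
          subst hax
          exact ⟨b, ⟨hb, hab⟩, rfl⟩
        · by_cases hbx : b = x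
          · right; right
            subst hbx
            exact ⟨a, ⟨ha, hab.symm⟩, rfl⟩
          · left
            exact ⟨Finset.mem_erase.2 ⟨hax, ha⟩, Finset.mem_erase.2 ⟨hbx, hb⟩, hab⟩
      have h2 := Set.ncard_le_ncard hsub (Set.toFinite _)
      have h3 := Set.ncard_union_le {p : V × V | p.1 ∈ W.erase x ∧ p.2 ∈ W.erase x ∧
          G.Adj p.1 p.2}
          ((fun y => (x, y)) '' {y | y ∈ W ∧ G.Adj x y} ∪
            (fun y => (y, x)) '' {y | y ∈ W ∧ G.Adj x y})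
      have h4 := Set.ncard_union_le ((fun y => (x, y)) '' {y | y ∈ W ∧ G.Adj x y})
            ((fun y => (y, x)) '' {y | y ∈ W ∧ G.Adj x y})
      have h5 : ((fun y => (x, y)) '' {y | y ∈ W ∧ G.Adj x y}).ncard ≤ d :=
        (Set.ncard_image_le (Set.toFinite _)).trans hdeg
      have h6 : ((fun y => (y, x)) '' {y | y ∈ W ∧ G.Adj x y}).ncard ≤ d :=
        (Set.ncard_image_le (Set.toFinite _)).trans hdeg
      have h7 : 2 * d * (k + 1) = 2 * d * k + 2 * d := by ring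
      omega
  exact key W.card W rfl

/-- the number of pairs `(s, v)`, `v` a child of `s ∈ W` with `W` meeting the subtree of `v`. -/
theorem child_count {V : Type} [Finite V] {G : SimpleGraph V} {le : V → V → Prop}
    (hF : Forest G le) (W : Finset V) :
    Set.ncard {v : V | ∃ s ∈ W, par le s v ∧ ∃ t ∈ W, le v t} ≤ W.card := by
  classical
  have hlt : ∀ a b : V, le a b → a ≠ b → (anc le a).ncard < (anc le b).ncard := by
    intro a b h hne
    refine Set.ncard_lt_ncard ?_ (Set.toFinite _)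
    refine ⟨fun w hw => ⟨hF.trans _ _ _ hw.1 h, ?_⟩, fun hs => (hs (a := a) ⟨h, hne⟩).2 rfl⟩
    rintro rfl
    exact hw.2 (hF.antisymm _ _ hw.1 h)
  have hex : ∀ v : V, ∃ t : V, (∃ s ∈ W, par le s v ∧ ∃ t ∈ W, le v t) →
      t ∈ W ∧ le v t ∧ ∀ u ∈ W, le v u → (anc le t).ncard ≤ (anc le u).ncard := by
    intro v
    by_cases hv : ∃ s ∈ W, par le s v ∧ ∃ t ∈ W, le v t
    · obtain ⟨s, hs, hp, t, ht, hvt⟩ := hv
      obtain ⟨a, ha, hmin⟩ := Set.exists_min_image {w | w ∈ W ∧ le v w}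
        (fun a => (anc le a).ncard) (Set.toFinite _) ⟨t, ht, hvt⟩
      exact ⟨a, fun _ => ⟨ha.1, ha.2, fun u hu hvu => hmin u ⟨hu, hvu⟩⟩⟩
    · exact ⟨v, fun h => absurd h hv⟩
  choose g hg using hex
  rw [← Set.ncard_coe_finset W]
  refine Set.ncard_le_ncard_of_injOn g (fun v hv => Finset.mem_coe.2 (hg v hv).1) ?_
    (Set.toFinite _)
  have main : ∀ v v' : V, (∃ s ∈ W, par le s v ∧ ∃ t ∈ W, le v t) →
      (∃ s ∈ W, par le s v' ∧ ∃ t ∈ W, le v' t) → g v = g v' → le v v' → v = v' := by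
    intro v v' hv hv' he hl
    by_contra hne
    obtain ⟨s', hs', hp', ht'⟩ := hv'
    have h1 : le v s' := hp'.2.2 v hl hne
    have h2 := (hg v hv).2.2 s' hs' h1
    have h3 := hg v' ⟨s', hs', hp', ht'⟩
    have h4 := hlt s' v' hp'.1 hp'.2.1
    have h5 : (anc le v').ncard ≤ (anc le (g v')).ncard := by
      by_cases he' : v' = g v'
      · rw [← he']
      · exact (hlt v' (g v') h3.2.1 he').le
    rw [he] at h2
    omega
  intro v hv v' hv' he
  rcases hF.chain v v' (g v) (hg v hv).2.1 (he ▸ (hg v' hv').2.1) with h | h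
  · exact main v v' hv hv' he h
  · exact (main v' v hv' hv he.symm h).symm

theorem conf_bound {V : Type} [Finite V] {G : SimpleGraph V} {le : V → V → Prop}
    (hF : Forest G le) (f : V → ℕ) (hf : Function.Injective f) (c : ℕ)
    (hc : ∀ x, Set.ncard {y | G.Adj x y ∧ f y < f x} ≤ c) (W : Finset V) :
    Set.ncard {p : V × V | p.1 ∈ W ∧ p.2 ∈ W ∧ (confl G le).Adj p.1 p.2} ≤
      (4 * c) * W.card := by
  classical
  have := Fintype.ofFinite V
  set C : Set V := {v : V | ∃ s ∈ W, par le s v ∧ ∃ t ∈ W, le v t} with hC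
  have hCW : C.ncard ≤ W.card := child_count hF W
  -- pairs counted by a finite set of first vertices
  have hfib : ∀ S : Finset V, Set.ncard {p : V × V | p.1 ∈ S ∧ G.Adj p.1 p.2 ∧ f p.2 < f p.1} ≤
      c * S.card := by
    intro S
    have h1 : {p : V × V | p.1 ∈ S ∧ G.Adj p.1 p.2 ∧ f p.2 < f p.1} ⊆
        ⋃ x ∈ S, (fun y => (x, y)) '' {y | G.Adj x y ∧ f y < f x} := by
      rintro ⟨a, b⟩ ⟨ha, hab, hlt⟩
      simp only [Set.mem_iUnion]
      exact ⟨a, ha, b, ⟨hab, hlt⟩, rfl⟩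
    refine (Set.ncard_le_ncard h1 (Set.toFinite _)).trans ?_
    refine (Finset.set_ncard_biUnion_le _ _).trans ?_
    calc ∑ x ∈ S, ((fun y => (x, y)) '' {y | G.Adj x y ∧ f y < f x}).ncard
        ≤ ∑ x ∈ S, c := Finset.sum_le_sum fun x _ =>
          (Set.ncard_image_le (Set.toFinite _)).trans (hc x)
      _ = c * S.card := by rw [Finset.sum_const, smul_eq_mul, mul_comm]
  -- pairs (v, t)
  have hvt : Set.ncard {p : V × V | p.1 ∈ C ∧ p.2 ∈ W ∧ G.Adj p.1 p.2} ≤ 2 * c * W.card := by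
    have h1 : {p : V × V | p.1 ∈ C ∧ p.2 ∈ W ∧ G.Adj p.1 p.2} ⊆
        {p : V × V | p.1 ∈ C.toFinset ∧ G.Adj p.1 p.2 ∧ f p.2 < f p.1} ∪
        Prod.swap '' {p : V × V | p.1 ∈ W ∧ G.Adj p.1 p.2 ∧ f p.2 < f p.1} := by
      rintro ⟨a, b⟩ ⟨ha, hb, hab⟩
      simp only at ha hb hab
      rcases lt_trichotomy (f a) (f b) with h | h | h
      · right
        exact ⟨(b, a), ⟨hb, hab.symm, h⟩, rfl⟩
      · exact absurd (hf h) hab.ne
      · left
        exact ⟨by simpa using ha, hab, h⟩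
    have h2 := Set.ncard_le_ncard h1 (Set.toFinite _)
    have h3 := Set.ncard_union_le
      {p : V × V | p.1 ∈ C.toFinset ∧ G.Adj p.1 p.2 ∧ f p.2 < f p.1}
      (Prod.swap '' {p : V × V | p.1 ∈ W ∧ G.Adj p.1 p.2 ∧ f p.2 < f p.1})
    have h4 := hfib C.toFinset
    have h5 : (Prod.swap '' {p : V × V | p.1 ∈ W ∧ G.Adj p.1 p.2 ∧ f p.2 < f p.1}).ncard ≤
      c * W.card := (Set.ncard_image_le (Set.toFinite _)).trans (hfib W)
    have h6 : C.toFinset.card ≤ W.card := by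
      rw [← Set.ncard_eq_toFinset_card']
      exact hCW
    have h7 : c * C.toFinset.card ≤ c * W.card := Nat.mul_le_mul_left _ h6
    have h8 : 2 * c * W.card = c * W.card + c * W.card := by ring
    omega
  -- pairs (s, t)
  have hst : Set.ncard {p : V × V | p.1 ∈ W ∧ p.2 ∈ W ∧ conf G le p.1 p.2} ≤
      2 * c * W.card := by
    refine le_trans ?_ hvt
    have hex : ∀ p : V × V, ∃ v : V, conf G le p.1 p.2 →
        par le p.1 v ∧ le v p.2 ∧ v ≠ p.2 ∧ G.Adj v p.2 := by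
      intro p
      by_cases hp : conf G le p.1 p.2
      · obtain ⟨v, hv⟩ := hp
        exact ⟨v, fun _ => hv⟩
      · exact ⟨p.1, fun h => absurd h hp⟩
    choose g hg using hex
    refine Set.ncard_le_ncard_of_injOn (fun p => (g p, p.2)) ?_ ?_ (Set.toFinite _)
    · rintro ⟨s, t⟩ ⟨hs, ht, hcf⟩
      have h1 := hg (s, t) hcf
      exact ⟨⟨s, hs, h1.1, t, ht, h1.2.1⟩, ht, h1.2.2.2⟩
    · rintro ⟨s, t⟩ ⟨hs, ht, hcf⟩ ⟨s', t'⟩ ⟨hs', ht', hcf'⟩ he
      simp only [Prod.mk.injEq] at he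
      have h1 := hg (s, t) hcf
      have h2 := hg (s', t') hcf'
      obtain ⟨he1, he2⟩ := he
      rw [← he1] at h2
      simp only at h1 h2
      have h3 : le s s' := h2.1.2.2 s h1.1.1 h1.1.2.1
      have h4 : le s' s := h1.1.2.2 s' h2.1.1 h2.1.2.1
      rw [hF.antisymm _ _ h3 h4, he2]
  have h1 : {p : V × V | p.1 ∈ W ∧ p.2 ∈ W ∧ (confl G le).Adj p.1 p.2} ⊆
      {p : V × V | p.1 ∈ W ∧ p.2 ∈ W ∧ conf G le p.1 p.2} ∪
      Prod.swap '' {p : V × V | p.1 ∈ W ∧ p.2 ∈ W ∧ conf G le p.1 p.2} := by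
    rintro ⟨a, b⟩ ⟨ha, hb, hab⟩
    simp only at ha hb hab
    rcases hab.2 with h | h
    · left
      exact ⟨ha, hb, h⟩
    · right
      exact ⟨(b, a), ⟨hb, ha, h⟩, rfl⟩
  have h2 := Set.ncard_le_ncard h1 (Set.toFinite _)
  have h3 := Set.ncard_union_le
    {p : V × V | p.1 ∈ W ∧ p.2 ∈ W ∧ conf G le p.1 p.2}
    (Prod.swap '' {p : V × V | p.1 ∈ W ∧ p.2 ∈ W ∧ conf G le p.1 p.2})
  have h4 : (Prod.swap '' {p : V × V | p.1 ∈ W ∧ p.2 ∈ W ∧ conf G le p.1 p.2}).ncard ≤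
    2 * c * W.card := (Set.ncard_image_le (Set.toFinite _)).trans hst
  have h5 : 4 * c * W.card = 2 * c * W.card + 2 * c * W.card := by ring
  omega

theorem conf_coloring (d : ℕ) : ∃ m : ℕ, ∀ (V : Type) [Finite V] (G : SimpleGraph V)
    (le : V → V → Prop), Degenerate d G → Forest G le →
    ∃ χ : V → Fin m, ∀ p v t, par le p v → le v t → v ≠ t → G.Adj v t → χ p ≠ χ t := by
  refine ⟨4 * (2 * d) + 1, fun V _ G le hd hF => ?_⟩
  obtain ⟨f, hf, hf2⟩ := degen_order G (2 * d) fun W => degenerate_bound hd W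
  obtain ⟨g, hg, hg2⟩ := degen_order (confl G le) (4 * (2 * d)) fun W =>
    conf_bound hF f hf (2 * d) hf2 W
  obtain ⟨χ, hχ⟩ := greedy_col (confl G le) (4 * (2 * d)) g hg hg2
  refine ⟨χ, fun p v t hp hvt hne hadj => hχ p t ⟨?_, Or.inl ⟨v, hp, hvt, hne, hadj⟩⟩⟩
  rintro rfl
  exact hp.2.1 (hF.antisymm _ _ hp.1 hvt)

end Pool.MP_33c730_lc
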