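import Pool.Agent.Lib.MP_33c730_lc.EFAlg

set_option autoImplicit false

namespace Pool.MP_33c730_lc

variable {C V : Type}

/-! ### Ctx: replacing a part by an equivalent part inside a context -/
theorem EF.ctx {G : CG C V} {B B' : Set V} {r : V → V → Prop} {R W W' : Set V} {n : ℕ}
    {L₀ L : List (V × V)} (hL₀ : ∀ p ∈ L₀, p.1 = p.2 ∧ p.1 ∈ R)
    (hL : ∀ p ∈ L, p.1 ∈ W ∧ p.2 ∈ W') (hE : EF G B r r W W' n L)
    (hd : ∀ y ∈ R, y ∉ W ∧ y ∉ W')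
    (hadj : ∀ y, (y ∈ R ∨ y ∈ B') → ∀ x, (x ∈ W ∨ x ∈ W') → G.gr.Adj x y → y ∈ B)
    (hord : ∀ y ∈ R, ∀ x x', (x ∈ W ∨ x ∈ W') → (x' ∈ W ∨ x' ∈ W') →
      ((r x y ↔ r x' y) ∧ (r y x ↔ r y x'))) :
    EF G B' r r (R ∪ W) (R ∪ W') n (L₀ ++ L) := by
  -- atomic agreement
  have hA : ∀ L₀ L : List (V × V), (∀ p ∈ L₀, p.1 = p.2 ∧ p.1 ∈ R) →
      (∀ p ∈ L, p.1 ∈ W ∧ p.2 ∈ W') → Atom G B r r L → Atom G B' r r (L₀ ++ L) := by
    intro L₀ L hL₀ hL h p hp q hq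
    have hB' : ∀ x ∈ W, ∀ x' ∈ W', (∀ y ∈ B, (G.gr.Adj x y ↔ G.gr.Adj x' y)) →
        ∀ y, (y ∈ R ∨ y ∈ B') → (G.gr.Adj x y ↔ G.gr.Adj x' y) := by
      intro x hx x' hx' hy y hyR
      constructor
      · intro h1
        exact (hy y (hadj y hyR x (Or.inl hx) h1)).1 h1
      · intro h1
        exact (hy y (hadj y hyR x' (Or.inr hx') h1)).2 h1
    rcases List.mem_append.1 hp with hp | hp <;> rcases List.mem_append.1 hq with hq | hq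
    · obtain ⟨e1, -⟩ := hL₀ p hp
      obtain ⟨e2, -⟩ := hL₀ q hq
      rw [← e1, ← e2]
      exact ⟨Iff.rfl, Iff.rfl, Iff.rfl, fun _ => Iff.rfl, fun _ _ => Iff.rfl⟩
    · obtain ⟨e1, m1⟩ := hL₀ p hp
      obtain ⟨m2, m2'⟩ := hL q hq
      rw [← e1]
      obtain ⟨-, -, -, -, h5⟩ := h q hq q hq
      refine ⟨⟨fun h => absurd (h ▸ m2) (hd _ m1).1, fun h => absurd (h ▸ m2') (hd _ m1).2⟩, ?_,
        (hord p.1 m1 q.1 q.2 (Or.inl m2) (Or.inr m2')).2, fun _ => Iff.rfl, fun _ _ => Iff.rfl⟩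
      rw [G.gr.adj_comm p.1 q.1, G.gr.adj_comm p.1 q.2]
      exact hB' q.1 m2 q.2 m2' h5 p.1 (Or.inl m1)
    · obtain ⟨e1, m1⟩ := hL₀ q hq
      obtain ⟨m2, m2'⟩ := hL p hp
      rw [← e1]
      obtain ⟨-, -, -, h4, h5⟩ := h p hp p hp
      refine ⟨⟨fun h => absurd (h ▸ m2) (hd _ m1).1, fun h => absurd (h ▸ m2') (hd _ m1).2⟩, ?_,
        (hord q.1 m1 p.1 p.2 (Or.inl m2) (Or.inr m2')).1, h4, ?_⟩
      · exact hB' p.1 m2 p.2 m2' h5 q.1 (Or.inl m1)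
      · intro a ha
        exact hB' p.1 m2 p.2 m2' h5 a (Or.inr ha)
    · obtain ⟨m2, m2'⟩ := hL p hp
      obtain ⟨h1, h2, h3, h4, h5⟩ := h p hp q hq
      refine ⟨h1, h2, h3, h4, ?_⟩
      intro a ha
      exact hB' p.1 m2 p.2 m2' h5 a (Or.inr ha)
  induction n generalizing L₀ L with
  | zero => exact hA L₀ L hL₀ hL hE
  | succ n ih =>
    have hcons₀ : ∀ x ∈ R, ∀ p ∈ (x, x) :: L₀, p.1 = p.2 ∧ p.1 ∈ R := by
      intro x hx p hp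
      rcases List.mem_cons.1 hp with rfl | hp
      · exact ⟨rfl, hx⟩
      · exact hL₀ p hp
    have hcons : ∀ x ∈ W, ∀ x' ∈ W', ∀ p ∈ (x, x') :: L, p.1 ∈ W ∧ p.2 ∈ W' := by
      intro x hx x' hx' p hp
      rcases List.mem_cons.1 hp with rfl | hp
      · exact ⟨hx, hx'⟩
      · exact hL p hp
    have hsub : ∀ x x' : V, (x, x') :: (L₀ ++ L) ⊆ L₀ ++ (x, x') :: L := by
      intro x x' p hp
      simp only [List.mem_cons, List.mem_append] at hp ⊢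
      tauto
    refine ⟨hA L₀ L hL₀ hL hE.1, ?_, ?_⟩
    · rintro x (hx | hx)
      · exact ⟨x, Or.inl hx, ih (hcons₀ x hx) hL (hE.mono (Nat.le_succ n) (List.Subset.refl _))⟩
      · obtain ⟨x', hx', h⟩ := hE.2.1 x hx
        exact ⟨x', Or.inr hx', (ih hL₀ (hcons x hx x' hx') h).mono le_rfl (hsub x x')⟩
    · rintro x' (hx' | hx')
      · exact ⟨x', Or.inl hx', ih (hcons₀ x' hx') hL (hE.mono (Nat.le_succ n) (List.Subset.refl _))⟩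
      · obtain ⟨x, hx, h⟩ := hE.2.2 x' hx'
        exact ⟨x, Or.inr hx, (ih hL₀ (hcons x hx x' hx') h).mono le_rfl (hsub x x')⟩

end Pool.MP_33c730_lc
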