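import Pool.Agent.Lib.MP_33c730_lc.Dg.DefLev

set_option autoImplicit false

namespace Pool.MP_33c730_lc

/-! ### DefMain2: the final sentence -/
section
variable {C α : Type} {m b q : ℕ}

private theorem DefMain2_eq {β : Type} {P : ∀ {V : Type}, CG C V → (β → Set V) → Prop}
    (i j : α) : DefP C α β P fun _ v _ => v i = v j :=
  DefP.of (Def.eq i j)

private theorem DefMain2_adj {β : Type} {P : ∀ {V : Type}, CG C V → (β → Set V) → Prop}
    (i j : α) : DefP C α β P fun G v _ => G.gr.Adj (v i) (v j) :=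
  DefP.of (Def.adj i j)

private theorem DefMain2_col {β : Type} {P : ∀ {V : Type}, CG C V → (β → Set V) → Prop}
    (c : C) (i : α) : DefP C α β P fun G v _ => G.col c (v i) :=
  DefP.of (Def.col c i)

/-- atomic agreement is definable -/
private theorem DefMain2_atom (cs : List C) (hcs : ∀ c, c ∈ cs) (c : α) (L : List (α × α)) :
    DefP C α (Par2 m b q) okS fun G v S =>
      Atom G (anc (lS G.gr S) (v c)) (dS G cs S q) (dS G cs S q)
        (L.map fun p => (v p.1, v p.2)) := by
  refine DefP.congr (DefP.allList (fun p : α × α => DefP.allList (fun p' : α × α =>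
    DefP.and (DefP.iff (DefMain2_eq p.1 p'.1) (DefMain2_eq p.2 p'.2))
      (DefP.and (DefP.iff (DefMain2_adj p.1 p'.1) (DefMain2_adj p.2 p'.2))
        (DefP.and (DefP.iff (def_dS cs q p.1 p'.1) (def_dS cs q p.2 p'.2))
          (DefP.and (DefP.allList (fun c : C => DefP.iff (DefMain2_col c p.1)
            (DefMain2_col c p.2)) cs)
            (DefP.all (DefP.imp (def_anc2 none (some c)) (DefP.iff
              (DefMain2_adj (some p.1) none) (DefMain2_adj (some p.2) none)))))))) L) L) ?_
  intro V _ G v S _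
  unfold Atom
  simp only [List.forall_mem_map]
  refine forall_congr' fun p => imp_congr_right fun _ => forall_congr' fun p' =>
    imp_congr_right fun _ => ?_
  refine and_congr Iff.rfl (and_congr Iff.rfl (and_congr Iff.rfl (and_congr ?_ Iff.rfl)))
  exact ⟨fun h c => h c (hcs c), fun h c _ => h c⟩

theorem def_EF2 (cs : List C) (hcs : ∀ c, c ∈ cs) (n : ℕ) (c c' : α) (L : List (α × α)) :
    DefP C α (Par2 m b q) okS fun G v S =>
      EF G (anc (lS G.gr S) (v c)) (dS G cs S q) (dS G cs S q) (kp (lS G.gr S) (kS S q) (v c))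
        (kp (lS G.gr S) (kS S q) (v c')) n (L.map fun p => (v p.1, v p.2)) := by
  induction n generalizing α with
  | zero => exact DefMain2_atom cs hcs c L
  | succ n ih =>
    refine DefP.congr (DefP.and (DefMain2_atom cs hcs c L) (DefP.and
      (DefP.all (DefP.imp (def_kp2 q none (some c)) (DefP.ex (DefP.and
        (def_kp2 q none (some (some c')))
        (ih (some (some c)) (some (some c'))
          ((some none, none) :: L.map fun p => (some (some p.1), some (some p.2))))))))
      (DefP.all (DefP.imp (def_kp2 q none (some c')) (DefP.ex (DefP.and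
        (def_kp2 q none (some (some c)))
        (ih (some (some c)) (some (some c'))
          ((none, some none) :: L.map fun p => (some (some p.1), some (some p.2)))))))))) ?_
    intro V _ G v S _
    simp only [List.map_cons, List.map_map]
    exact Iff.rfl

theorem def_legit2 (cs : List C) (hcs : ∀ c, c ∈ cs) : DefP C α (Par2 m b q) okS
    fun G _ S => Legit G (lS G.gr S) (kS S q) (klS G cs S q) (jS S q) q := by
  refine DefP.congr (DefP.and
    (DefP.all (DefP.imp (def_kS q none) (DefP.all (DefP.imp (def_kS q none)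
      (DefP.imp (DefP.not (DefMain2_eq (some none) none))
        (DefP.imp (def_klEq cs q (some none) none)
          (DefP.imp (def_nbEq2 (some none) none)
            (DefP.not (def_jeq q (some none) none))))))))) (DefP.and
    (DefP.all (DefP.all (DefP.imp (def_klEq cs q (some none) none)
      (DefP.imp (def_nbEq2 (some none) none) (def_EF2 cs hcs q (some none) none [])))))
    (DefP.all (DefP.imp (DefP.not (def_kS q none)) (DefP.exTup (ι := Fin (2 ^ q))
      (DefP.and (DefP.allFin fun i : Fin (2 ^ q) => DefP.allFin fun j : Fin (2 ^ q) =>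
        DefP.imp (DefMain2_eq (.inr i) (.inr j)) (DefP.of (Def.const (i = j))))
        (DefP.allFin fun i : Fin (2 ^ q) => DefP.and (def_kS q (.inr i))
          (DefP.and (def_klEq cs q (.inl none) (.inr i))
            (def_nbEq2 (.inl none) (.inr i)))))))))) ?_
  intro V _ G v S _
  constructor
  · rintro ⟨h1, h2, h3⟩
    refine ⟨?_, ?_, ?_⟩
    · intro c hc c' hc' hne hsib hnb hk
      exact h1 c hc c' hc' hne ⟨hsib, hk⟩ hnb
    · intro c c' hsib hnb hk
      exact h2 c c' ⟨hsib, hk⟩ hnb
    · intro c hc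
      obtain ⟨f, hf, hf'⟩ := h3 c hc
      refine ⟨f, fun i j hij => hf i j hij, fun i => ?_⟩
      obtain ⟨h4, ⟨h5, h6⟩, h7⟩ := hf' i
      exact ⟨h4, h5, h7, h6⟩
  · intro h
    refine ⟨?_, ?_, ?_⟩
    · intro c hc c' hc' hne hk hnb
      exact h.inj c hc c' hc' hne hk.1 hnb hk.2
    · intro c c' hk hnb
      exact h.same c c' hk.1 hnb hk.2
    · intro c hc
      obtain ⟨f, hf, hf'⟩ := h.drop c hc
      refine ⟨f, fun i j hij => hf hij, fun i => ?_⟩
      obtain ⟨h4, h5, h6, h7⟩ := hf' i
      exact ⟨h4, ⟨h5, h7⟩, h6⟩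

theorem def_satOn2 (cs : List C) (φ : FO C α) : DefP C α (Par2 m b q) okS fun G v S =>
    φ.SatOn G (kpAll (lS G.gr S) (kS S q)) (dS G cs S q) v := by
  induction φ with
  | eq i j => exact DefP.congr (DefMain2_eq i j) (fun _ _ _ _ => Iff.rfl)
  | adj i j => exact DefP.congr (DefMain2_adj i j) (fun _ _ _ _ => Iff.rfl)
  | lt i j => exact DefP.congr (def_dS cs q i j) (fun _ _ _ _ => Iff.rfl)
  | col c i => exact DefP.congr (DefMain2_col c i) (fun _ _ _ _ => Iff.rfl)
  | neg f ih => exact DefP.congr (DefP.not ih) (fun _ _ _ _ => Iff.rfl)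
  | and f g ih1 ih2 => exact DefP.congr (DefP.and ih1 ih2) (fun _ _ _ _ => Iff.rfl)
  | ex f ih =>
    exact DefP.congr (DefP.ex (DefP.and (def_kpAll2 q none) ih)) (fun _ _ _ _ => Iff.rfl)
end

theorem def_main2 (C : Type) (cs : List C) (hcs : ∀ c, c ∈ cs) (m b q : ℕ) (φ : FO C Empty) :
    ∃ ψ : MSO C Empty Empty, ∀ (V : Type) [Finite V] (G : CG C V),
      ψ.Sat G Empty.elim Empty.elim ↔ ∃ S : Par2 m b q → Set V, Forest G.gr (lS G.gr S) ∧
        (Legit G (lS G.gr S) (kS S q) (klS G cs S q) (jS S q) q ∧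
        φ.SatOn G (kpAll (lS G.gr S) (kS S q)) (dS G cs S q) Empty.elim) := by
  obtain ⟨ψ, hψ⟩ := DefP.close (def_okS (C := C) (α := Empty) (m := m) (b := b) (q := q))
    (DefP.and (def_legit2 cs hcs) (def_satOn2 cs φ))
  exact ⟨ψ, fun V _ G => hψ V G⟩

end Pool.MP_33c730_lc
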