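import Pool.Agent.Lib.MP_33c730_lc.Dg.DefPApi
import Pool.Agent.Lib.MP_33c730_lc.Coding

set_option autoImplicit false

namespace Pool.MP_33c730_lc

/-! ### DefNot2: the notions for the coded trees are MSO definable -/

private theorem defnot2_up {C α β : Type} {m : ℕ} (cs os : Fin m → β) (x y : α) :
    Def C α β fun G v S => up2 G.gr (fun j => S (cs j)) (fun j => S (os j)) (v x) (v y) :=
  Def.congr (Def.and (Def.adj x y) (Def.exFin fun j => Def.and (Def.mem x (os j))
    (Def.mem y (cs j))))
    (fun _ _ _ => Iff.rfl)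

private theorem defnot2_le {C α β : Type} {m : ℕ} (cs os : Fin m → β) (a x : α) :
    Def C α β fun G v S => le2 G.gr (fun j => S (cs j)) (fun j => S (os j)) (v a) (v x) :=
  Def.congr (Def.allS (Def.imp (Def.mem x none) (Def.imp
    (Def.all (Def.all (Def.imp (Def.mem (some none) none)
      (Def.imp (defnot2_up (fun j => some (cs j)) (fun j => some (os j)) (some none) none)
        (Def.mem none none)))))
    (Def.mem a none))))
    (fun _ _ _ => Iff.rfl)

section
variable {C α : Type} {m b q : ℕ}

theorem def_lS' (i j : α) : Def C α (Par2 m b q) fun G v S => lS G.gr S (v i) (v j) :=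
  Def.congr (defnot2_le (fun l => .inl (.inl l)) (fun l => .inl (.inr l)) i j)
    (fun _ _ _ => Iff.rfl)

theorem def_okS : Def C α (Par2 m b q) fun G _ S => okS G S := by
  refine Def.congr (Def.and (Def.all (def_lS' none none)) (Def.and
    (Def.all (Def.all (Def.imp (def_lS' (some none) none) (Def.imp (def_lS' none (some none))
      (Def.eq (some none) none))))) (Def.and
    (Def.all (Def.all (Def.all (Def.imp (def_lS' (some (some none)) (some none))
      (Def.imp (def_lS' (some none) none) (def_lS' (some (some none)) none)))))) (Def.and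
    (Def.all (Def.all (Def.all (Def.imp (def_lS' (some (some none)) none)
      (Def.imp (def_lS' (some none) none) (Def.or (def_lS' (some (some none)) (some none))
        (def_lS' (some none) (some (some none))))))))) 
    (Def.all (Def.all (Def.imp (Def.adj (some none) none) (Def.or (def_lS' (some none) none)
      (def_lS' none (some none))))))))))
    ?_
  intro V G v S
  constructor
  · rintro ⟨h1, h2, h3, h4, h5⟩
    exact ⟨h1, h2, h3, h4, h5⟩
  · intro h
    exact ⟨h.refl, h.antisymm, h.trans, h.chain, h.comp⟩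

theorem def_lS (i j : α) : DefP C α (Par2 m b q) okS fun G v S => lS G.gr S (v i) (v j) :=
  DefP.of (def_lS' i j)

private theorem defnot2_eq (i j : α) : DefP C α (Par2 m b q) okS fun _ v _ => v i = v j :=
  DefP.of (Def.eq i j)

private theorem defnot2_adj (i j : α) :
    DefP C α (Par2 m b q) okS fun G v _ => G.gr.Adj (v i) (v j) :=
  DefP.of (Def.adj i j)

theorem def_kS (r : ℕ) (i : α) : DefP C α (Par2 m b q) okS fun _ v S => v i ∈ kS S r := by
  by_cases h : r < q + 1
  · refine DefP.congr (DefP.of (Def.mem i (.inr (.inl ⟨r, h⟩)))) ?_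
    intro V _ G v S _
    exact ⟨fun h' => ⟨h, h'⟩, fun ⟨_, h'⟩ => h'⟩
  · refine DefP.congr (DefP.const False) ?_
    intro V _ G v S _
    exact ⟨fun h' => h'.elim, fun ⟨h', _⟩ => h h'⟩

theorem def_anc2 (i j : α) :
    DefP C α (Par2 m b q) okS fun G v S => v i ∈ anc (lS G.gr S) (v j) :=
  DefP.congr (DefP.and (def_lS i j) (DefP.not (defnot2_eq i j))) (fun _ _ _ _ => Iff.rfl)

theorem def_nb2 (i j : α) :
    DefP C α (Par2 m b q) okS fun G v S => v i ∈ nb G.gr (lS G.gr S) (v j) :=
  DefP.congr (DefP.and (DefP.and (def_lS i j) (DefP.not (defnot2_eq i j)))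
    (DefP.ex (DefP.and (def_lS (some j) none) (defnot2_adj (some i) none))))
    (fun _ _ _ _ => Iff.rfl)

theorem def_sib2 (i j : α) :
    DefP C α (Par2 m b q) okS fun G v S => sib (lS G.gr S) (v i) (v j) :=
  DefP.congr (DefP.all (DefP.iff
    (DefP.and (def_lS none (some i)) (DefP.not (defnot2_eq none (some i))))
    (DefP.and (def_lS none (some j)) (DefP.not (defnot2_eq none (some j))))))
    (fun _ _ _ _ => Iff.rfl)

theorem def_kp2 (r : ℕ) (x c : α) :
    DefP C α (Par2 m b q) okS fun G v S => v x ∈ kp (lS G.gr S) (kS S r) (v c) :=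
  DefP.congr (DefP.and (def_lS c x) (DefP.all (DefP.imp (def_lS (some c) none)
    (DefP.imp (DefP.not (defnot2_eq none (some c))) (DefP.imp (def_lS none (some x))
      (def_kS r none))))))
    (fun _ _ _ _ => Iff.rfl)

theorem def_kpw2 (r : ℕ) (x w c : α) :
    DefP C α (Par2 m b q) okS fun G v S => v x ∈ kpw (lS G.gr S) (kS S r) (v w) (v c) :=
  DefP.congr (DefP.and (def_lS c x) (DefP.all (DefP.imp (def_lS (some c) none)
    (DefP.imp (DefP.not (defnot2_eq none (some c))) (DefP.imp (def_lS none (some x))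
      (DefP.or (def_kS r none) (def_lS none (some w))))))))
    (fun _ _ _ _ => Iff.rfl)

theorem def_kpAll2 (r : ℕ) (x : α) :
    DefP C α (Par2 m b q) okS fun G v S => v x ∈ kpAll (lS G.gr S) (kS S r) :=
  DefP.congr (DefP.all (DefP.imp (def_lS none (some x)) (def_kS r none)))
    (fun _ _ _ _ => Iff.rfl)

theorem def_nbEq2 (i j : α) :
    DefP C α (Par2 m b q) okS fun G v S => nbEq G.gr (lS G.gr S) (v i) (v j) :=
  DefP.congr (DefP.all (DefP.iff (def_nb2 none (some i)) (def_nb2 none (some j))))
    (fun _ _ _ _ => Iff.rfl)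

theorem def_nbLt2 (i j : α) :
    DefP C α (Par2 m b q) okS fun G v S => nbLt G.gr (lS G.gr S) (v i) (v j) :=
  DefP.congr (DefP.ex (DefP.and (def_nb2 none (some i)) (DefP.and
    (DefP.not (def_nb2 none (some j)))
    (DefP.all (DefP.imp (def_lS none (some none)) (DefP.imp
      (DefP.not (defnot2_eq none (some none)))
      (DefP.iff (def_nb2 none (some (some i))) (def_nb2 none (some (some j))))))))))
    (fun _ _ _ _ => Iff.rfl)

theorem def_jlt (r : ℕ) (i j : α) :
    DefP C α (Par2 m b q) okS fun _ v S => jS S r (v i) < jS S r (v j) := by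
  have hm : ∀ (l : Fin b) (i : α), Def C α (Par2 m b q) fun _ v S =>
      v i ∈ ({w | ∃ h : r < q + 1, w ∈ S (.inr (.inr (⟨r, h⟩, l)))} : Set _) := by
    intro l i
    by_cases h : r < q + 1
    · refine Def.congr (Def.mem i (.inr (.inr (⟨r, h⟩, l)))) ?_
      intro V G v S
      exact ⟨fun h' => ⟨h, h'⟩, fun ⟨_, h'⟩ => h'⟩
    · refine Def.congr (Def.const False) ?_
      intro V G v S
      exact ⟨fun h' => h'.elim, fun ⟨h', _⟩ => h h'⟩
  refine DefP.of (Def.congr (Def.exFin fun l : Fin b => Def.and (hm l i)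
    (Def.allFin fun l' : Fin b => Def.imp (Def.const (l' ≤ l)) (Def.not (hm l' j)))) ?_)
  intro V G v S
  exact (idx_lt _ _ _).symm

theorem def_jeq (r : ℕ) (i j : α) :
    DefP C α (Par2 m b q) okS fun _ v S => jS S r (v i) = jS S r (v j) := by
  refine DefP.congr (DefP.and (DefP.not (def_jlt r i j)) (DefP.not (def_jlt r j i))) ?_
  intro V _ G v S _
  constructor
  · rintro ⟨h1, h2⟩
    exact le_antisymm (not_lt.mp h2) (not_lt.mp h1)
  · intro h
    exact ⟨fun h' => absurd h (ne_of_lt h'), fun h' => absurd h.symm (ne_of_lt h')⟩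
end

end Pool.MP_33c730_lc
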