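import Pool.Agent.Lib.MP_33c730_lc.Dg.Code2
import Pool.Agent.Lib.MP_33c730_lc.DefApi

set_option autoImplicit false

namespace Pool.MP_33c730_lc

/-! ### DefPApi: closure properties -/
section
variable {C α β : Type} {P : ∀ {V : Type}, CG C V → (β → Set V) → Prop}

theorem DefP.of {R : ∀ {V : Type}, CG C V → (α → V) → (β → Set V) → Prop}
    (h : Def C α β R) : DefP C α β P R := by
  obtain ⟨φ, hφ⟩ := h
  exact ⟨φ, fun V _ G v S _ => hφ V G v S⟩

theorem DefP.congr {R R' : ∀ {V : Type}, CG C V → (α → V) → (β → Set V) → Prop}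
    (h : DefP C α β P R) (hR : ∀ {V : Type} [Finite V] (G : CG C V) (v : α → V) (S : β → Set V),
      P G S → (R G v S ↔ R' G v S)) : DefP C α β P R' := by
  obtain ⟨φ, hφ⟩ := h
  exact ⟨φ, fun V _ G v S hP => (hφ V G v S hP).trans (hR G v S hP)⟩

theorem DefP.rename {α' : Type} {R : ∀ {V : Type}, CG C V → (α → V) → (β → Set V) → Prop}
    (h : DefP C α β P R) (f : α → α') :
    DefP C α' β P fun G v S => R G (fun i => v (f i)) S := by
  obtain ⟨φ, hφ⟩ := h
  exact ⟨MSO.ren f id φ, fun V _ G v S hP => (MSO.sat_ren G f id φ v S).trans (hφ V G _ _ hP)⟩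

theorem DefP.not {R : ∀ {V : Type}, CG C V → (α → V) → (β → Set V) → Prop}
    (h : DefP C α β P R) : DefP C α β P fun G v S => ¬ R G v S := by
  obtain ⟨φ, hφ⟩ := h
  exact ⟨.neg φ, fun V _ G v S hP => not_congr (hφ V G v S hP)⟩

theorem DefP.and {R R' : ∀ {V : Type}, CG C V → (α → V) → (β → Set V) → Prop}
    (h : DefP C α β P R) (h' : DefP C α β P R') :
    DefP C α β P fun G v S => R G v S ∧ R' G v S := by
  obtain ⟨φ, hφ⟩ := h
  obtain ⟨ψ, hψ⟩ := h'
  exact ⟨.and φ ψ, fun V _ G v S hP => and_congr (hφ V G v S hP) (hψ V G v S hP)⟩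

theorem DefP.or {R R' : ∀ {V : Type}, CG C V → (α → V) → (β → Set V) → Prop}
    (h : DefP C α β P R) (h' : DefP C α β P R') :
    DefP C α β P fun G v S => R G v S ∨ R' G v S := by
  refine DefP.congr (DefP.not (DefP.and (DefP.not h) (DefP.not h'))) ?_
  intro V _ G v S _
  tauto

theorem DefP.imp {R R' : ∀ {V : Type}, CG C V → (α → V) → (β → Set V) → Prop}
    (h : DefP C α β P R) (h' : DefP C α β P R') :
    DefP C α β P fun G v S => R G v S → R' G v S := by
  refine DefP.congr (DefP.not (DefP.and h (DefP.not h'))) ?_
  intro V _ G v S _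
  tauto

theorem DefP.iff {R R' : ∀ {V : Type}, CG C V → (α → V) → (β → Set V) → Prop}
    (h : DefP C α β P R) (h' : DefP C α β P R') :
    DefP C α β P fun G v S => (R G v S ↔ R' G v S) := by
  refine DefP.congr (DefP.and (DefP.imp h h') (DefP.imp h' h)) ?_
  intro V _ G v S _
  tauto

theorem DefP.ex {R : ∀ {V : Type}, CG C V → (Option α → V) → (β → Set V) → Prop}
    (h : DefP C (Option α) β P R) : DefP C α β P fun G v S => ∃ x, R G (ext x v) S := by
  obtain ⟨φ, hφ⟩ := h
  exact ⟨.ex φ, fun V _ G v S hP => exists_congr fun x => hφ V G _ S hP⟩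

theorem DefP.all {R : ∀ {V : Type}, CG C V → (Option α → V) → (β → Set V) → Prop}
    (h : DefP C (Option α) β P R) : DefP C α β P fun G v S => ∀ x, R G (ext x v) S := by
  refine DefP.congr (DefP.not (DefP.ex (DefP.not h))) ?_
  intro V _ G v S _
  exact not_exists_not

theorem DefP.const (p : Prop) : DefP C α β P fun _ _ _ => p := DefP.of (Def.const p)

theorem DefP.allList {ι : Type} {R : ι → ∀ {V : Type}, CG C V → (α → V) → (β → Set V) → Prop}
    (h : ∀ i, DefP C α β P (R i)) (l : List ι) :
    DefP C α β P fun G v S => ∀ i ∈ l, R i G v S := by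
  induction l with
  | nil =>
    refine DefP.congr (DefP.const True) ?_
    intro V _ G v S _
    simp
  | cons a l ih =>
    refine DefP.congr (DefP.and (h a) ih) ?_
    intro V _ G v S _
    simp

theorem DefP.allFin {ι : Type} [Finite ι]
    {R : ι → ∀ {V : Type}, CG C V → (α → V) → (β → Set V) → Prop}
    (h : ∀ i, DefP C α β P (R i)) : DefP C α β P fun G v S => ∀ i, R i G v S := by
  obtain ⟨_⟩ := nonempty_fintype ι
  refine DefP.congr (DefP.allList h Finset.univ.toList) ?_
  intro V _ G v S _
  simp

private def defp_shift {α ι : Type} : α ⊕ Option ι → Option α ⊕ ι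
  | .inl a => .inl (some a)
  | .inr none => .inl none
  | .inr (some i) => .inr i

theorem DefP.exTup {ι : Type} [Finite ι]
    {R : ∀ {V : Type}, CG C V → (α ⊕ ι → V) → (β → Set V) → Prop}
    (h : DefP C (α ⊕ ι) β P R) :
    DefP C α β P fun {V} G v S => ∃ f : ι → V, R G (Sum.elim v f) S := by
  have key : ∀ (κ : Type) [Finite κ], ∀ (α' : Type)
      (Q : ∀ {V : Type}, CG C V → (α' ⊕ κ → V) → (β → Set V) → Prop),
      DefP C (α' ⊕ κ) β P Q →
      DefP C α' β P fun {V} G v S => ∃ f : κ → V, Q G (Sum.elim v f) S := by
    intro κ hκ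
    induction κ using Finite.induction_empty_option with
    | of_equiv e ih =>
      intro α' Q hQ
      refine DefP.congr (ih α' _ (hQ.rename (Sum.map id e.symm))) ?_
      intro V _ G v S _
      constructor
      · rintro ⟨f, hf⟩
        refine ⟨fun j => f (e.symm j), ?_⟩
        have h1 : (fun i => Sum.elim v f (Sum.map id e.symm i)) =
            Sum.elim v (fun j => f (e.symm j)) := by
          funext i
          cases i <;> rfl
        rw [← h1]
        exact hf
      · rintro ⟨f, hf⟩
        refine ⟨fun j => f (e j), ?_⟩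
        have h1 : (fun i => Sum.elim v (fun j => f (e j)) (Sum.map id e.symm i)) =
            Sum.elim v f := by
          funext i
          cases i with
          | inl a => rfl
          | inr a => exact congrArg f (e.apply_symm_apply a)
        change Q G (fun i => Sum.elim v (fun j => f (e j)) (Sum.map id e.symm i)) S
        rw [h1]
        exact hf
    | h_empty =>
      intro α' Q hQ
      refine DefP.congr (hQ.rename (Sum.elim id PEmpty.elim)) ?_
      intro V _ G v S _
      have h1 : ∀ f : PEmpty → V, (fun i => v (Sum.elim id PEmpty.elim i)) = Sum.elim v f := by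
        intro f
        funext i
        cases i with
        | inl a => rfl
        | inr a => exact a.elim
      constructor
      · intro hf
        refine ⟨PEmpty.elim, ?_⟩
        rw [← h1 PEmpty.elim]
        exact hf
      · rintro ⟨f, hf⟩
        rw [← h1 f] at hf
        exact hf
    | h_option ih =>
      intro α' Q hQ
      refine DefP.congr (DefP.ex (ih (Option α') _ (hQ.rename defp_shift))) ?_
      intro V _ G v S _
      constructor
      · rintro ⟨x, f, hf⟩
        refine ⟨ext x f, ?_⟩
        have h1 : (fun i => Sum.elim (ext x v) f (defp_shift i)) =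
            Sum.elim v (ext x f) := by
          funext i
          rcases i with a | (_ | a) <;> rfl
        rw [← h1]
        exact hf
      · rintro ⟨f, hf⟩
        refine ⟨f none, fun i => f (some i), ?_⟩
        have h1 : (fun i => Sum.elim (ext (f none) v) (fun i => f (some i)) (defp_shift i)) =
            Sum.elim v f := by
          funext i
          rcases i with a | (_ | a) <;> rfl
        change Q G (fun i => Sum.elim (ext (f none) v) (fun i => f (some i)) (defp_shift i)) S
        rw [h1]
        exact hf
  exact key ι α R h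

/-- comparison of lists of truth values of the same length, given by two lists of definable
relations. -/
theorem DefP.listLt (l l' : List (∀ {V : Type}, CG C V → (α → V) → (β → Set V) → Prop))
    (hlen : l.length = l'.length)
    (h : ∀ R ∈ l, DefP C α β P R) (h' : ∀ R ∈ l', DefP C α β P R) :
    DefP C α β P fun {V} G v S =>
      ((l.map fun R => @R V G v S) : List Prop) < l'.map fun R => @R V G v S := by
  induction l generalizing l' with
  | nil =>
    have hl' : l' = [] := List.length_eq_zero_iff.1 hlen.symm
    subst hl'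
    refine DefP.congr (DefP.const False) ?_
    intro V _ G v S _
    exact ⟨fun h => h.elim, fun h => absurd h (lt_irrefl _)⟩
  | cons a l ih =>
    cases l' with
    | nil => exact absurd hlen (by simp)
    | cons a' l' =>
      have ih' := ih l' (by simpa using hlen) (fun R hR => h R (List.mem_cons_of_mem _ hR))
        (fun R hR => h' R (List.mem_cons_of_mem _ hR))
      have ha := h a List.mem_cons_self
      have ha' := h' a' List.mem_cons_self
      refine DefP.congr (DefP.or (DefP.and (DefP.not ha) ha') (DefP.and (DefP.iff ha ha') ih')) ?_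
      intro V _ G v S _
      rw [List.map_cons, List.map_cons, List.cons_lt_cons_iff]
      refine or_congr ?_ (and_congr ?_ Iff.rfl)
      · constructor
        · rintro ⟨h1, h2⟩
          refine lt_of_le_of_ne (fun h => absurd h h1) ?_
          intro h
          exact h1 (h ▸ h2)
        · intro h
          have h1 : (@a V G v S → @a' V G v S) := h.le
          have h2 : ¬ (@a' V G v S → @a V G v S) := fun h3 => h.ne (propext ⟨h1, h3⟩)
          tauto
      · exact ⟨fun h => propext h, fun h => by rw [h]⟩

/-- closing all set variables by existential quantifiers -/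
theorem DefP.close [Finite β] (hP : Def C Empty β fun G _ S => P G S)
    {R : ∀ {V : Type}, CG C V → (Empty → V) → (β → Set V) → Prop} (h : DefP C Empty β P R) :
    ∃ ψ : MSO C Empty Empty, ∀ (V : Type) [Finite V] (G : CG C V),
      ψ.Sat G Empty.elim Empty.elim ↔ ∃ S : β → Set V, P G S ∧ R G Empty.elim S := by
  obtain ⟨χ, hχ⟩ := hP
  obtain ⟨φ, hφ⟩ := h
  obtain ⟨ψ, hψ⟩ := Def.close (C := C) (β := β)
    (R := fun G v S => (MSO.and χ φ).Sat G v S) ⟨MSO.and χ φ, fun _ _ _ _ => Iff.rfl⟩
  refine ⟨ψ, fun V _ G => (hψ V G Empty.elim Empty.elim).trans ?_⟩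
  refine exists_congr fun S => ?_
  constructor
  · rintro ⟨h1, h2⟩
    have h3 : P G S := (hχ V G Empty.elim S).1 h1
    exact ⟨h3, (hφ V G Empty.elim S h3).1 h2⟩
  · rintro ⟨h1, h2⟩
    exact ⟨(hχ V G Empty.elim S).2 h1, (hφ V G Empty.elim S h1).2 h2⟩
end

end Pool.MP_33c730_lc
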