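import Pool.Agent.Lib.MP_33c730_lc.Dg.DefNot2
import Pool.Agent.Lib.MP_33c730_lc.Dg.TLem
import Pool.Agent.Lib.MP_33c730_lc.Dg.Rank

set_option autoImplicit false

namespace Pool.MP_33c730_lc

/-! ### DefTp: comparison of types is definable, if the order of the level is definable -/

private theorem dtp_nbr {V : Type} [Finite V] {G : SimpleGraph V} {le : V → V → Prop}
    (hF : Forest G le) (a x x' : V) :
    toColex (fs (dep le '' {z | z ∈ anc le a ∧ G.Adj x z})) <
        toColex (fs (dep le '' {z | z ∈ anc le a ∧ G.Adj x' z})) ↔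
      ∃ z, (z ∈ anc le a ∧ G.Adj x' z ∧ ¬ G.Adj x z) ∧
        ∀ z', (z' ∈ anc le a ∧ G.Adj x z' ∧ ¬ G.Adj x' z') → (le z' z ∧ ¬ z' = z) := by
  have h1 : (dep le '' {z | z ∈ anc le a ∧ G.Adj x z}).Finite := (Set.toFinite _).image _
  have h2 : (dep le '' {z | z ∈ anc le a ∧ G.Adj x' z}).Finite := (Set.toFinite _).image _
  have hinj := dep_inj hF a
  have hlt : ∀ z ∈ anc le a, ∀ z' ∈ anc le a, (dep le z' < dep le z ↔ (le z' z ∧ ¬ z' = z)) := by
    intro z hz z' hz'
    constructor
    · intro h
      have hne : z' ≠ z := by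
        rintro rfl
        exact lt_irrefl _ h
      rcases hF.chain z' z a hz'.1 hz.1 with h3 | h3
      · exact ⟨h3, hne⟩
      · exact absurd (dep_lt hF h3 (Ne.symm hne)) (by omega)
    · rintro ⟨h3, h4⟩
      exact dep_lt hF h3 h4
  rw [colex_lt]
  simp only [fs_mem _ h1, fs_mem _ h2]
  constructor
  · rintro ⟨_, ⟨z, hz, rfl⟩, h3, h4⟩
    refine ⟨z, ⟨hz.1, hz.2, fun h => h3 ⟨z, ⟨hz.1, h⟩, rfl⟩⟩, fun z' hz' => ?_⟩
    rw [← hlt z hz.1 z' hz'.1]
    refine h4 _ ⟨z', ⟨hz'.1, hz'.2.1⟩, rfl⟩ ?_
    rintro ⟨y, hy, he⟩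
    have := hinj hy.1 hz'.1 he
    subst this
    exact hz'.2.2 hy.2
  · rintro ⟨z, hz, h3⟩
    refine ⟨_, ⟨z, ⟨hz.1, hz.2.1⟩, rfl⟩, ?_, ?_⟩
    · rintro ⟨y, hy, he⟩
      have := hinj hy.1 hz.1 he
      subst this
      exact hz.2.2 hy.2
    · rintro _ ⟨z', hz', rfl⟩ hn
      rw [hlt z hz.1 z' hz'.1]
      exact h3 z' ⟨hz'.1, hz'.2, fun h => hn ⟨z', ⟨hz'.1, h⟩, rfl⟩⟩

section
variable {C α β : Type} {P : ∀ {V : Type}, CG C V → (β → Set V) → Prop}

private theorem dtp_eqOfLt {T : Type} [LinearOrder T]
    {f g : ∀ {V : Type}, CG C V → (α → V) → (β → Set V) → T}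
    (h : DefP C α β P fun G v S => f G v S < g G v S)
    (h' : DefP C α β P fun G v S => g G v S < f G v S) :
    DefP C α β P fun G v S => f G v S = g G v S := by
  refine DefP.congr (DefP.and (DefP.not h) (DefP.not h')) ?_
  intro V _ G v S _
  constructor
  · rintro ⟨h1, h2⟩
    exact le_antisymm (not_lt.mp h2) (not_lt.mp h1)
  · intro h
    exact ⟨fun h' => absurd h (ne_of_lt h'), fun h' => absurd h.symm (ne_of_lt h')⟩

private theorem dtp_pairLt {T T' : Type} [LinearOrder T] [LinearOrder T']
    {f g : ∀ {V : Type}, CG C V → (α → V) → (β → Set V) → T}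
    {f' g' : ∀ {V : Type}, CG C V → (α → V) → (β → Set V) → T'}
    (h1 : DefP C α β P fun G v S => f G v S < g G v S)
    (h2 : DefP C α β P fun G v S => g G v S < f G v S)
    (h3 : DefP C α β P fun G v S => f' G v S < g' G v S) :
    DefP C α β P fun G v S => (toLex (f G v S, f' G v S) : T ×ₗ T') < toLex (g G v S, g' G v S) := by
  refine DefP.congr (DefP.or h1 (DefP.and (dtp_eqOfLt h1 h2) h3)) ?_
  intro V _ G v S _
  exact (Prod.Lex.toLex_lt_toLex (x := (f G v S, f' G v S)) (y := (g G v S, g' G v S))).symm

private theorem dtp_pairEq {T T' : Type} [LinearOrder T] [LinearOrder T']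
    {f g : ∀ {V : Type}, CG C V → (α → V) → (β → Set V) → T}
    {f' g' : ∀ {V : Type}, CG C V → (α → V) → (β → Set V) → T'}
    (h1 : DefP C α β P fun G v S => f G v S < g G v S)
    (h2 : DefP C α β P fun G v S => g G v S < f G v S)
    (h3 : DefP C α β P fun G v S => f' G v S < g' G v S)
    (h4 : DefP C α β P fun G v S => g' G v S < f' G v S) :
    DefP C α β P fun G v S => (toLex (f G v S, f' G v S) : T ×ₗ T') = toLex (g G v S, g' G v S) := by
  refine DefP.congr (DefP.and (dtp_eqOfLt h1 h2) (dtp_eqOfLt h3 h4)) ?_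
  intro V _ G v S _
  constructor
  · rintro ⟨h1, h2⟩
    rw [h1, h2]
  · intro h
    have h' := congrArg ofLex h
    exact ⟨congrArg Prod.fst h', congrArg Prod.snd h'⟩
end
section
variable {C α : Type} {m b q : ℕ}

/-- comparison of the neighbourhoods in the interface `anc a` -/
theorem def_nbrLt (a x x' : α) : DefP C α (Par2 m b q) okS fun G v S =>
    toColex (fs (dep (lS G.gr S) '' {z | z ∈ anc (lS G.gr S) (v a) ∧ G.gr.Adj (v x) z})) <
      toColex (fs (dep (lS G.gr S) '' {z | z ∈ anc (lS G.gr S) (v a) ∧ G.gr.Adj (v x') z})) := by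
  refine DefP.congr (DefP.ex (DefP.and (DefP.and (def_anc2 none (some a))
    (DefP.and (DefP.of (Def.adj (some x') none)) (DefP.not (DefP.of (Def.adj (some x) none)))))
    (DefP.all (DefP.imp (DefP.and (def_anc2 none (some (some a)))
      (DefP.and (DefP.of (Def.adj (some (some x)) none))
        (DefP.not (DefP.of (Def.adj (some (some x')) none)))))
      (DefP.and (def_lS none (some none)) (DefP.not (DefP.of (Def.eq none (some none))))))))) ?_
  intro V _ G v S hP
  exact (dtp_nbr hP (v a) (v x) (v x')).symm

/-- the list of the relations described by `bits` -/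
private def dtp_btl (cs : List C) (r : ℕ) (x : α) (u : List α) :
    List (∀ {V : Type}, CG C V → (α → V) → (Par2 m b q → Set V) → Prop) :=
  (fun {_} G v S => dS G cs S r (v x) (v x)) ::
    (cs.map fun c => (fun {V : Type} (G : CG C V) (v : α → V) (_ : Par2 m b q → Set V) =>
      G.col c (v x))) ++
    u.flatMap fun w => [fun {_} _ v _ => v x = v w, fun {_} G v _ => G.gr.Adj (v x) (v w),
      fun {_} G v S => dS G cs S r (v x) (v w), fun {_} G v S => dS G cs S r (v w) (v x)]

private theorem dtp_btl_map (cs : List C) (r : ℕ) (x : α) (u : List α) {V : Type} (G : CG C V)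
    (v : α → V) (S : Par2 m b q → Set V) :
    ((dtp_btl (m := m) (b := b) (q := q) cs r x u).map fun R => @R V G v S) =
      bits G cs (dS G cs S r) (v x) (u.map v) := by
  unfold dtp_btl bits
  rw [List.map_append, List.map_cons, List.map_map, List.map_flatMap, List.flatMap_map]
  rfl

private theorem dtp_btl_len (cs : List C) (r : ℕ) (x x' : α) (u u' : List α)
    (hlen : u.length = u'.length) :
    (dtp_btl (m := m) (b := b) (q := q) cs r x u).length =
      (dtp_btl (m := m) (b := b) (q := q) cs r x' u').length := by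
  unfold dtp_btl
  simp [hlen]

private theorem dtp_btl_def (cs : List C) (r : ℕ)
    (hd : ∀ {α : Type} (i j : α), DefP C α (Par2 m b q) okS fun G v S => dS G cs S r (v i) (v j))
    (x : α) (u : List α) : ∀ R ∈ dtp_btl (m := m) (b := b) (q := q) cs r x u,
      DefP C α (Par2 m b q) okS R := by
  intro R hR
  unfold dtp_btl at hR
  rcases List.mem_append.1 hR with h | h
  · rcases List.mem_cons.1 h with h | h
    · rw [h]
      exact hd x x
    · obtain ⟨c, _, h⟩ := List.mem_map.1 h
      rw [← h]
      exact DefP.of (Def.col c x)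
  · obtain ⟨w, _, h⟩ := List.mem_flatMap.1 h
    simp only [List.mem_cons, List.not_mem_nil, or_false] at h
    rcases h with h | h | h | h
    · rw [h]
      exact DefP.of (Def.eq x w)
    · rw [h]
      exact DefP.of (Def.adj x w)
    · rw [h]
      exact hd x w
    · rw [h]
      exact hd w x

/-- comparison of the atomic data -/
theorem def_atdLt (cs : List C) (r : ℕ)
    (hd : ∀ {α : Type} (i j : α), DefP C α (Par2 m b q) okS fun G v S => dS G cs S r (v i) (v j))
    (a x x' : α) (u u' : List α) (hlen : u.length = u'.length) :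
    DefP C α (Par2 m b q) okS fun G v S =>
      atd G cs (lS G.gr S) (anc (lS G.gr S) (v a)) (dS G cs S r) (v x) (u.map v) <
        atd G cs (lS G.gr S) (anc (lS G.gr S) (v a)) (dS G cs S r) (v x') (u'.map v) := by
  have hb : DefP C α (Par2 m b q) okS fun G v S =>
      bits G cs (dS G cs S r) (v x) (u.map v) < bits G cs (dS G cs S r) (v x') (u'.map v) := by
    refine DefP.congr (DefP.listLt (dtp_btl cs r x u) (dtp_btl cs r x' u')
      (dtp_btl_len cs r x x' u u' hlen) (dtp_btl_def cs r hd x u) (dtp_btl_def cs r hd x' u')) ?_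
    intro V _ G v S _
    rw [dtp_btl_map, dtp_btl_map]
  exact dtp_pairLt (def_nbrLt a x x') (def_nbrLt a x' x) hb

private theorem dtp_cmp (cs : List C) (r : ℕ)
    (hd : ∀ {α : Type} (i j : α), DefP C α (Par2 m b q) okS fun G v S => dS G cs S r (v i) (v j))
    (n : ℕ) (a c w c' w' x x' : α) (u u' : List α) (hlen : u.length = u'.length)
    (ih : ∀ (c w c' w' : α) (u u' : List α), u.length = u'.length →
      DefP C α (Par2 m b q) okS fun G v S =>
      tp G cs (lS G.gr S) (anc (lS G.gr S) (v a)) (dS G cs S r) n
          (kpw (lS G.gr S) (kS S r) (v w) (v c)) (u.map v) <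
        tp G cs (lS G.gr S) (anc (lS G.gr S) (v a)) (dS G cs S r) n
          (kpw (lS G.gr S) (kS S r) (v w') (v c')) (u'.map v)) :
    (DefP C α (Par2 m b q) okS fun G v S =>
      (toLex (atd G cs (lS G.gr S) (anc (lS G.gr S) (v a)) (dS G cs S r) (v x) (u.map v),
        tp G cs (lS G.gr S) (anc (lS G.gr S) (v a)) (dS G cs S r) n
          (kpw (lS G.gr S) (kS S r) (v w) (v c)) (v x :: u.map v)) : AT ×ₗ Ty n) <
      toLex (atd G cs (lS G.gr S) (anc (lS G.gr S) (v a)) (dS G cs S r) (v x') (u'.map v),
        tp G cs (lS G.gr S) (anc (lS G.gr S) (v a)) (dS G cs S r) n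
          (kpw (lS G.gr S) (kS S r) (v w') (v c')) (v x' :: u'.map v))) ∧
    (DefP C α (Par2 m b q) okS fun G v S =>
      (toLex (atd G cs (lS G.gr S) (anc (lS G.gr S) (v a)) (dS G cs S r) (v x) (u.map v),
        tp G cs (lS G.gr S) (anc (lS G.gr S) (v a)) (dS G cs S r) n
          (kpw (lS G.gr S) (kS S r) (v w) (v c)) (v x :: u.map v)) : AT ×ₗ Ty n) =
      toLex (atd G cs (lS G.gr S) (anc (lS G.gr S) (v a)) (dS G cs S r) (v x') (u'.map v),
        tp G cs (lS G.gr S) (anc (lS G.gr S) (v a)) (dS G cs S r) n
          (kpw (lS G.gr S) (kS S r) (v w') (v c')) (v x' :: u'.map v))) := by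
  have h1 := def_atdLt cs r hd a x x' u u' hlen
  have h2 := def_atdLt cs r hd a x' x u' u hlen.symm
  have h3 := ih c w c' w' (x :: u) (x' :: u') (by simp [hlen])
  have h4 := ih c' w' c w (x' :: u') (x :: u) (by simp [hlen])
  exact ⟨dtp_pairLt h1 h2 h3, dtp_pairEq h1 h2 h3 h4⟩

/-- comparison of types -/
theorem def_tpLt (cs : List C) (r : ℕ)
    (hd : ∀ {α : Type} (i j : α), DefP C α (Par2 m b q) okS fun G v S => dS G cs S r (v i) (v j))
    (n : ℕ) (a c w c' w' : α) (u u' : List α) (hlen : u.length = u'.length) :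
    DefP C α (Par2 m b q) okS fun G v S =>
      tp G cs (lS G.gr S) (anc (lS G.gr S) (v a)) (dS G cs S r) n
          (kpw (lS G.gr S) (kS S r) (v w) (v c)) (u.map v) <
        tp G cs (lS G.gr S) (anc (lS G.gr S) (v a)) (dS G cs S r) n
          (kpw (lS G.gr S) (kS S r) (v w') (v c')) (u'.map v) := by
  induction n generalizing α with
  | zero =>
    refine DefP.congr (DefP.of (Def.const False)) ?_
    intro V _ G v S _
    exact ⟨fun h => h.elim, fun h => lt_irrefl _ h⟩
  | succ n ih =>
    refine DefP.congr (DefP.ex (DefP.and (def_kpw2 r none (some w') (some c'))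
      (DefP.and (DefP.all (DefP.imp (def_kpw2 r none (some (some w)) (some (some c)))
        (DefP.not (dtp_cmp cs r hd n (some (some a)) (some (some c)) (some (some w))
          (some (some c')) (some (some w')) none (some none) (u.map fun i => some (some i))
          (u'.map fun i => some (some i)) (by simp [hlen])
          (fun c w c' w' u u' h => ih _ c w c' w' u u' h)).2)))
        (DefP.all (DefP.imp (def_kpw2 r none (some (some w)) (some (some c)))
          (DefP.imp (DefP.all (DefP.imp (def_kpw2 r none (some (some (some w')))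
            (some (some (some c')))) (DefP.not (dtp_cmp cs r hd n (some (some (some a)))
              (some (some (some c))) (some (some (some w)))
              (some (some (some c'))) (some (some (some w'))) (some none) none
              (u.map fun i => some (some (some i)))
              (u'.map fun i => some (some (some i))) (by simp [hlen])
              (fun c w c' w' u u' h => ih _ c w c' w' u u' h)).2)))
            (dtp_cmp cs r hd n (some (some a)) (some (some c)) (some (some w))
              (some (some c')) (some (some w')) none (some none) (u.map fun i => some (some i))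
              (u'.map fun i => some (some i)) (by simp [hlen])
              (fun c w c' w' u u' h => ih _ c w c' w' u u' h)).1)))))) ?_
    intro V _ G v S _
    rw [tp_succ_lt]
    simp only [List.map_map]
    exact Iff.rfl

/-- comparison of the types of subtrees of siblings -/
theorem def_tyLt (cs : List C) (r : ℕ)
    (hd : ∀ {α : Type} (i j : α), DefP C α (Par2 m b q) okS fun G v S => dS G cs S r (v i) (v j))
    (c c' : α) : DefP C α (Par2 m b q) okS fun G v S =>
      sib (lS G.gr S) (v c) (v c') ∧
        ty G cs (lS G.gr S) (kS S r) (dS G cs S r) r (v c) <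
          ty G cs (lS G.gr S) (kS S r) (dS G cs S r) r (v c') := by
  refine DefP.congr (DefP.and (def_sib2 c c') (DefP.ex (DefP.and (def_lS (some c') none)
      (DefP.and (DefP.all (DefP.imp (def_lS (some (some c)) none)
        (DefP.not (dtp_cmp cs r hd r (some (some c)) (some (some c)) none
          (some (some c')) (some none) none (some none) [] [] rfl
          (fun c w c' w' u u' h => def_tpLt cs r hd r _ c w c' w' u u' h)).2)))
        (DefP.all (DefP.imp (def_lS (some (some c)) none)
          (DefP.imp (DefP.all (DefP.imp (def_lS (some (some (some c'))) none)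
            (DefP.not (dtp_cmp cs r hd r (some (some (some c)))
              (some (some (some c))) (some none)
              (some (some (some c'))) none (some none) none [] [] rfl
              (fun c w c' w' u u' h => def_tpLt cs r hd r _ c w c' w' u u' h)).2)))
            (dtp_cmp cs r hd r (some (some c)) (some (some c)) none
              (some (some c')) (some none) none (some none) [] [] rfl
              (fun c w c' w' u u' h => def_tpLt cs r hd r _ c w c' w' u u' h)).1))))))) ?_
  intro V _ G v S _
  refine and_congr_right fun hs => ?_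
  rw [ty_lt, ← anc_sib hs]
  exact Iff.rfl
end

end Pool.MP_33c730_lc
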