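import Pool.Agent.Lib.MP_33c730_lc.Dg.IncDefs
import Pool.Agent.Lib.MP_33c730_lc.Dg.DegDefs

set_option autoImplicit false

namespace Pool.MP_33c730_lc

variable {C : Type}

/-! ### Inc: interpretation of a graph in its incidence graph -/

/-- translation of first-order formulas to the incidence graph. -/
def FO.inc : {α : Type} → FO C α → FO (Option C) α
  | _, .eq i j => .eq i j
  | _, .adj i j => .and (.neg (.eq i j))
      (.ex (.and (.neg (.col none none)) (.and (.adj (some i) none) (.adj none (some j)))))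
  | _, .lt i j => .lt i j
  | _, .col c i => .col (some c) i
  | _, .neg f => .neg (FO.inc f)
  | _, .and f g => .and (FO.inc f) (FO.inc g)
  | _, .ex f => .ex (.and (.col none none) (FO.inc f))

private theorem inc_ext {α V V' : Type} (ι : V → V') (x : V) (v : α → V) :
    (fun i => ι (ext x v i)) = ext (ι x) fun i => ι (v i) := by
  funext i
  cases i <;> rfl

theorem FO.inc_sat {V V' : Type} (H : CG (Option C) V') (G : CG C V) (ι : V → V')
    (hι : Function.Injective ι) (hr : ∀ y, H.col none y ↔ ∃ x, ι x = y)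
    (hadj : ∀ x y, G.gr.Adj x y ↔
      x ≠ y ∧ ∃ e, ¬ H.col none e ∧ H.gr.Adj (ι x) e ∧ H.gr.Adj e (ι y))
    (hcol : ∀ c x, G.col c x ↔ H.col (some c) (ι x)) (lt : V → V → Prop) (lt' : V' → V' → Prop)
    (hlt : ∀ x y, lt x y ↔ lt' (ι x) (ι y)) {α : Type} (φ : FO C α) (v : α → V) :
    (FO.inc φ).Sat H lt' (fun i => ι (v i)) ↔ φ.Sat G lt v := by
  induction φ with
  | eq i j => exact hι.eq_iff
  | adj i j =>
    refine Iff.trans ?_ (hadj (v i) (v j)).symm
    exact and_congr (not_congr hι.eq_iff) Iff.rfl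
  | lt i j => exact (hlt _ _).symm
  | col c i => exact (hcol _ _).symm
  | neg f ih => exact not_congr (ih v)
  | and f g ih1 ih2 => exact and_congr (ih1 v) (ih2 v)
  | ex f ih =>
    constructor
    · rintro ⟨y, hy, h⟩
      obtain ⟨x, rfl⟩ := (hr y).1 hy
      refine ⟨x, (ih (ext x v)).1 ?_⟩
      rw [inc_ext]
      exact h
    · rintro ⟨x, h⟩
      refine ⟨ι x, (hr _).2 ⟨x, rfl⟩, ?_⟩
      rw [← inc_ext]
      exact (ih (ext x v)).2 h

private theorem inc_empty {V V' : Type} (ι : V → V') :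
    (fun i => ι (Empty.elim i : V)) = (Empty.elim : Empty → V') := by
  funext i
  exact i.elim

/-- the translation preserves order-invariance. -/
theorem OrderInvariant.inc {φ : FO C Empty} (hφ : OrderInvariant φ) :
    OrderInvariant (FO.inc φ) := by
  intro V' _ H r₁ r₂ h₁ h₂
  let G : CG C {x // H.col none x} :=
    { gr :=
        { Adj := fun x y => x ≠ y ∧ ∃ e, ¬ H.col none e ∧ H.gr.Adj x.1 e ∧ H.gr.Adj e y.1
          symm := ⟨by
            rintro x y ⟨h1, e, h2, h3, h4⟩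
            exact ⟨h1.symm, e, h2, h4.symm, h3.symm⟩⟩
          loopless := ⟨fun x h => h.1 rfl⟩ }
      col := fun c x => H.col (some c) x.1 }
  have hsto : ∀ r : V' → V' → Prop, IsStrictTotalOrder V' r →
      IsStrictTotalOrder {x // H.col none x} fun x y => r x.1 y.1 := by
    intro r hr
    exact
      { trichotomous := fun a b h1 h2 => Subtype.ext (hr.trichotomous a.1 b.1 h1 h2)
        irrefl := fun a h => hr.irrefl a.1 h
        trans := fun a b c h1 h2 => hr.trans a.1 b.1 c.1 h1 h2 }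
  have key : ∀ r : V' → V' → Prop, (FO.inc φ).Sat H r Empty.elim ↔
      φ.Sat G (fun x y => r x.1 y.1) Empty.elim := by
    intro r
    have h := FO.inc_sat H G Subtype.val Subtype.val_injective
      (fun y => ⟨fun hy => ⟨⟨y, hy⟩, rfl⟩, fun ⟨x, hx⟩ => hx ▸ x.2⟩) (fun _ _ => Iff.rfl)
      (fun _ _ => Iff.rfl) (fun x y => r x.1 y.1) r (fun _ _ => Iff.rfl) φ Empty.elim
    rwa [inc_empty] at h
  rw [key r₁, key r₂]
  exact hφ _ G _ _ (hsto r₁ h₁) (hsto r₂ h₂)

theorem inc_adj {V : Type} (G : CG C V) (v : V) (e : G.gr.edgeSet) :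
    (Inc G).gr.Adj (.inl v) (.inr e) ↔ v ∈ e.1 := by
  unfold Inc
  simp only [SimpleGraph.fromRel_adj]
  constructor
  · rintro ⟨-, ⟨w, f, h1, h2, h3⟩ | ⟨w, f, h1, h2, h3⟩⟩
    · cases h2
      cases h3
      exact h1
    · cases h2
  · intro h
    exact ⟨by simp, Or.inl ⟨v, e, h, rfl, rfl⟩⟩

theorem inc_adj_cases {V : Type} (G : CG C V) (a b : V ⊕ G.gr.edgeSet)
    (h : (Inc G).gr.Adj a b) : (∃ (v : V) (e : G.gr.edgeSet), v ∈ e.1 ∧
      ((a = .inl v ∧ b = .inr e) ∨ (a = .inr e ∧ b = .inl v))) := by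
  unfold Inc at h
  simp only [SimpleGraph.fromRel_adj] at h
  rcases h with ⟨-, ⟨w, f, h1, h2, h3⟩ | ⟨w, f, h1, h2, h3⟩⟩
  · exact ⟨w, f, h1, Or.inl ⟨h2, h3⟩⟩
  · exact ⟨w, f, h1, Or.inr ⟨h3, h2⟩⟩

/-- incidence graphs are 2-degenerate. -/
theorem inc_degenerate {V : Type} [Finite V] (G : CG C V) : Degenerate 2 (Inc G).gr := by
  intro W hW
  by_cases h : ∃ e : G.gr.edgeSet, Sum.inr e ∈ W
  · obtain ⟨e, he⟩ := h
    refine ⟨.inr e, he, ?_⟩
    obtain ⟨a, b, hab⟩ : ∃ a b, e.1 = s(a, b) := by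
      induction e.1 using Sym2.ind with
      | _ a b => exact ⟨a, b, rfl⟩
    have hsub : {y | y ∈ W ∧ (Inc G).gr.Adj (.inr e) y} ⊆
        ({Sum.inl a, Sum.inl b} : Set (V ⊕ G.gr.edgeSet)) := by
      rintro y ⟨-, hy⟩
      obtain ⟨v, f, hv, h1 | h1⟩ := inc_adj_cases G _ _ hy
      · exact absurd h1.1 (by simp)
      · obtain ⟨h2, rfl⟩ := h1
        cases h2
        rw [hab, Sym2.mem_iff] at hv
        rcases hv with rfl | rfl <;> simp
    refine (Set.ncard_le_ncard hsub (Set.toFinite _)).trans ?_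
    refine (Set.ncard_insert_le _ _).trans ?_
    rw [Set.ncard_singleton]
  · obtain ⟨x, hx⟩ := hW
    refine ⟨x, hx, ?_⟩
    have hempty : {y | y ∈ W ∧ (Inc G).gr.Adj x y} = ∅ := by
      rw [Set.eq_empty_iff_forall_notMem]
      rintro y ⟨hy, hxy⟩
      obtain ⟨v, f, hv, h1 | h1⟩ := inc_adj_cases G _ _ hxy
      · exact h ⟨f, h1.2 ▸ hy⟩
      · exact h ⟨f, h1.1 ▸ hx⟩
    rw [hempty, Set.ncard_empty]
    exact Nat.zero_le _

/-- the formula in the incidence graph. -/
theorem inc_graph_sat {V : Type} (G : CG C V) (lt : V → V → Prop)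
    (lt' : (V ⊕ G.gr.edgeSet) → (V ⊕ G.gr.edgeSet) → Prop)
    (hlt : ∀ x y, lt x y ↔ lt' (.inl x) (.inl y)) (φ : FO C Empty) :
    (FO.inc φ).Sat (Inc G) lt' Empty.elim ↔ φ.Sat G lt Empty.elim := by
  have h := FO.inc_sat (Inc G) G Sum.inl Sum.inl_injective ?_ ?_ (fun _ _ => Iff.rfl) lt lt' hlt φ
    Empty.elim
  · rwa [inc_empty] at h
  · rintro (y | y)
    · exact ⟨fun _ => ⟨y, rfl⟩, fun _ => trivial⟩
    · exact ⟨fun h => h.elim, fun ⟨x, hx⟩ => by cases hx⟩
  · intro x y
    constructor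
    · intro h
      refine ⟨h.ne, .inr ⟨s(x, y), h⟩, fun h' => h', ?_, ?_⟩
      · rw [inc_adj]
        exact Sym2.mem_mk_left x y
      · rw [(Inc G).gr.adj_comm, inc_adj]
        exact Sym2.mem_mk_right x y
    · rintro ⟨hne, e, he, h1, h2⟩
      rcases e with e | e
      · exact absurd trivial he
      · rw [inc_adj] at h1
        rw [(Inc G).gr.adj_comm, inc_adj] at h2
        have h3 : e.1 = s(x, y) := (Sym2.mem_and_mem_iff hne).1 ⟨h1, h2⟩
        have h4 := e.2
        rw [h3] at h4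
        exact h4

theorem inc_order {V E : Type} [Finite E] (lt : V → V → Prop) (h : IsStrictTotalOrder V lt) :
    ∃ lt' : (V ⊕ E) → (V ⊕ E) → Prop, IsStrictTotalOrder (V ⊕ E) lt' ∧
      ∀ x y, lt x y ↔ lt' (.inl x) (.inl y) := by
  let f : E → ℕ := fun e => (Finite.equivFin E e).val
  have hf : Function.Injective f := fun a b hab => (Finite.equivFin E).injective (Fin.ext hab)
  refine ⟨Sum.Lex lt fun a b => f a < f b, ?_, fun x y => Sum.lex_inl_inl.symm⟩
  exact
    { trichotomous := by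
        rintro (a | a) (b | b) h1 h2
        · rw [Sum.lex_inl_inl] at h1 h2
          rw [h.trichotomous a b h1 h2]
        · exact absurd (Sum.Lex.sep a b) h1
        · exact absurd (Sum.Lex.sep b a) h2
        · rw [Sum.lex_inr_inr] at h1 h2
          rw [hf (le_antisymm (not_lt.1 h2) (not_lt.1 h1))]
      irrefl := by
        rintro (a | a) h1
        · rw [Sum.lex_inl_inl] at h1
          exact h.irrefl a h1
        · rw [Sum.lex_inr_inr] at h1
          exact lt_irrefl _ h1
      trans := by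
        rintro (a | a) (b | b) (c | c) h1 h2
        · rw [Sum.lex_inl_inl] at *
          exact h.trans a b c h1 h2
        · exact Sum.Lex.sep _ _
        · exact absurd h2 Sum.lex_inr_inl
        · exact Sum.Lex.sep _ _
        · exact absurd h1 Sum.lex_inr_inl
        · exact absurd h1 Sum.lex_inr_inl
        · exact absurd h2 Sum.lex_inr_inl
        · rw [Sum.lex_inr_inr] at *
          exact lt_trans h1 h2 }

end Pool.MP_33c730_lc
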