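/-
MP_33c730_lc (helper20): the incidence graph. Definition only.
-/
import Pool.Agent.Lib.MP_33c730_lc.Defs

set_option autoImplicit false

namespace Pool.MP_33c730_lc

variable {C V : Type}

/-- The coloured incidence graph of a coloured graph `G`: its vertices are the vertices and the
edges of `G`, a vertex is adjacent to the edges which contain it. The new colour `none` marks the
vertices of `G`, the colours of `G` are kept. An MSO sentence over the incidence graph is the same
as a sentence of MSO with quantification over sets of vertices and sets of edges over `G`. -/
def Inc (G : CG C V) : CG (Option C) (V ⊕ G.gr.edgeSet) where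
  gr := SimpleGraph.fromRel fun a b => ∃ (v : V) (e : G.gr.edgeSet), v ∈ e.1 ∧ a = .inl v ∧ b = .inr e
  col
    | none, .inl _ => True
    | none, .inr _ => False
    | some c, .inl v => G.col c v
    | some _, .inr _ => False

end Pool.MP_33c730_lc
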