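import Pool.Agent.Lib.MP_33c730_lc.Logic
import Pool.Agent.Lib.MP_33c730_lc.Sound
import Pool.Agent.Lib.MP_33c730_lc.Dfs
import Pool.Agent.Lib.MP_33c730_lc.Dg.Comp2
import Pool.Agent.Lib.MP_33c730_lc.Dg.Conf
import Pool.Agent.Lib.MP_33c730_lc.Dg.Coding2
import Pool.Agent.Lib.MP_33c730_lc.Dg.DefMain2

set_option autoImplicit false

namespace Pool.MP_33c730_lc

/-! ### Main2: assembly -/
/-- **Order-invariant first-order logic is contained in MSO on every class of graphs of bounded
degeneracy.** -/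
theorem main_degenerate (C : Type) [Finite C] (d : ℕ) (φ : FO C Empty) (hφ : OrderInvariant φ) :
    ∃ ψ : MSO C Empty Empty, ∀ (V : Type) [Finite V] (G : CG C V), Degenerate d G.gr →
      ∀ lt : V → V → Prop, IsStrictTotalOrder V lt →
        (ψ.Sat G Empty.elim Empty.elim ↔ φ.Sat G lt Empty.elim) := by
  classical
  have := Fintype.ofFinite C
  obtain ⟨m, hm⟩ := conf_coloring d
  let cs : List C := Finset.univ.toList
  have hcs : ∀ c, c ∈ cs := fun c => by simp [cs]
  let b : ℕ := 2 * 2 ^ φ.rank + 1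
  obtain ⟨ψ, hψ⟩ := def_main2 C cs hcs m b φ.rank φ
  have key : ∀ (V : Type) [Finite V] (G : CG C V) (le : V → V → Prop) (K : Set V) (k1 k2 : V → ℕ),
      Forest G.gr le → Legit G le K k1 k2 φ.rank → ∀ lt : V → V → Prop, IsStrictTotalOrder V lt →
      (φ.SatOn G (kpAll le K) (dlt G.gr le k1 k2) Empty.elim ↔ φ.Sat G lt Empty.elim) := by
    intro V _ G le K k1 k2 hF hL lt hlt
    obtain ⟨r, hr, hEF⟩ := sound G le K k1 k2 φ.rank hF hL
    have h1 := EF_sat G ∅ r (dlt G.gr le k1 k2) Set.univ (kpAll le K) φ φ.rank [] Empty.elim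
      Empty.elim le_rfl hEF (fun i => i.elim)
    rw [← h1, satOn_univ]
    exact hφ V G r lt hr hlt
  refine ⟨ψ, ?_⟩
  intro V _ G hG lt hlt
  rw [hψ V G]
  constructor
  · rintro ⟨S, hF, hL, hS⟩
    exact (key V G _ _ _ _ hF hL lt hlt).1 hS
  · intro hsat
    obtain ⟨le, hN⟩ := exists_normal V G.gr
    obtain ⟨χ, hχ⟩ := hm V G.gr le hG hN.toForest
    obtain ⟨K, j, hj, hL⟩ := complete2 G cs hcs le hN.toForest φ.rank
    let S : Par2 m b φ.rank → Set V := Sum.elim
      (Sum.elim (fun j => {v | χ v = j}) (fun j => {v | ∃ p, par le p v ∧ χ p = j}))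
      (Sum.elim (fun r => K r) (fun p => {v | j p.1 v = (p.2 : ℕ)}))
    have hle : lS G.gr S = le := by
      funext a x
      exact propext (coding2 hN χ hχ a x)
    have hK : ∀ r, r ≤ φ.rank → kS S r = K r := by
      intro r hr
      ext v
      exact ⟨fun ⟨_, h⟩ => h, fun h => ⟨Nat.lt_succ_of_le hr, h⟩⟩
    have hjj : ∀ r, r ≤ φ.rank → jS S r = j r := by
      intro r hr
      funext v
      have h1 : (fun i : Fin b => {v | ∃ h : r < φ.rank + 1,
          v ∈ S (.inr (.inr (⟨r, h⟩, i)))}) = fun i : Fin b => {v | j r v = (i : ℕ)} := by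
        funext i
        ext v
        exact ⟨fun ⟨_, h⟩ => h, fun h => ⟨Nat.lt_succ_of_le hr, h⟩⟩
      unfold jS
      rw [h1]
      exact idx_coding (j r) (fun v => Nat.lt_succ_of_le (hj r v)) v
    have hk : ∀ r, r ≤ φ.rank → klS G cs S r = klev G cs le K j r := by
      intro r
      unfold klS
      rw [hle]
      induction r with
      | zero => intro _; rfl
      | succ r ih =>
        intro hr
        have h1 := ih (Nat.le_of_succ_le hr)
        change rk _ = rk _
        rw [h1, hK r (Nat.le_of_succ_le hr), hjj r (Nat.le_of_succ_le hr)]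
    refine ⟨S, ?_⟩
    unfold dS
    rw [hle, hK _ le_rfl, hk _ le_rfl, hjj _ le_rfl]
    exact ⟨hN.toForest, hL, (key V G le _ _ _ hN.toForest hL lt hlt).2 hsat⟩

end Pool.MP_33c730_lc
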