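import Pool.Agent.Lib.MP_33c730_lc.Dg.Main2
import Pool.Agent.Lib.MP_33c730_lc.Dg.Inc

set_option autoImplicit false

namespace Pool.MP_33c730_lc

/-- **Order-invariant first-order logic is contained in MSO with vertex-set and edge-set
quantifiers on all graphs.** -/
theorem main_inc (C : Type) [Finite C] (φ : FO C Empty) (hφ : OrderInvariant φ) :
    ∃ ψ : MSO (Option C) Empty Empty, ∀ (V : Type) [Finite V] (G : CG C V),
      ∀ lt : V → V → Prop, IsStrictTotalOrder V lt →
        (ψ.Sat (Inc G) Empty.elim Empty.elim ↔ φ.Sat G lt Empty.elim) := by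
  obtain ⟨ψ, hψ⟩ := main_degenerate (Option C) 2 (FO.inc φ) hφ.inc
  refine ⟨ψ, ?_⟩
  intro V _ G lt hlt
  obtain ⟨lt', h1, h2⟩ := inc_order (E := G.gr.edgeSet) lt hlt
  rw [hψ _ (Inc G) (inc_degenerate G) lt' h1]
  exact inc_graph_sat G lt lt' h2 φ

end Pool.MP_33c730_lc
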